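import Mathlib

/-!
# Point-reflection moves: basic lemmas (used for MP_e50cbd_co and MP_b0c270_co)
-/

namespace Pool.Agent.Helper156.JumpBasics

/-- One legal move: some piece `i` is reflected in the position of another piece `j`,
so it goes from `p i` to `2 p j - p i`; the other pieces stay. -/
def Jump {ι A : Type*} [AddCommGroup A] (p q : ι → A) : Prop :=
  ∃ i j, i ≠ j ∧ q i = p j + p j - p i ∧ ∀ k, k ≠ i → q k = p k

/-- `Steps n p q`: the configuration `q` is obtained from `p` by exactly `n` legal moves. -/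
def Steps {ι A : Type*} [AddCommGroup A] : ℕ → (ι → A) → (ι → A) → Prop
  | 0, p, q => p = q
  | n + 1, p, q => ∃ r, Jump p r ∧ Steps n r q

section basics

variable {ι A : Type*} [AddCommGroup A]

/-- reachable within `n` moves -/
def Within (n : ℕ) (p q : ι → A) : Prop := ∃ m ≤ n, Steps m p q

lemma steps_trans {m n : ℕ} {p q r : ι → A} (h1 : Steps m p q) (h2 : Steps n q r) :
    Steps (m + n) p r := by
  induction m generalizing p with
  | zero =>
    have : p = q := h1
    subst this
    rwa [Nat.zero_add]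
  | succ m ih =>
    obtain ⟨s, hs, h⟩ := h1
    rw [Nat.succ_add]
    exact ⟨s, hs, ih h⟩

lemma within_refl (p : ι → A) : Within 0 p p := ⟨0, le_rfl, rfl⟩

lemma within_trans {m n : ℕ} {p q r : ι → A} (h1 : Within m p q) (h2 : Within n q r) :
    Within (m + n) p r := by
  obtain ⟨a, ha, h⟩ := h1
  obtain ⟨b, hb, h'⟩ := h2
  exact ⟨a + b, by omega, steps_trans h h'⟩

lemma within_mono {m n : ℕ} {p q : ι → A} (h : Within m p q) (hmn : m ≤ n) : Within n p q := by
  obtain ⟨a, ha, h⟩ := h
  exact ⟨a, by omega, h⟩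

lemma within_jump {p q : ι → A} (h : Jump p q) : Within 1 p q := ⟨1, le_rfl, q, h, rfl⟩

lemma jump_symm {p q : ι → A} (h : Jump p q) : Jump q p := by
  obtain ⟨i, j, hij, h1, h2⟩ := h
  refine ⟨i, j, hij, ?_, fun k hk => (h2 k hk).symm⟩
  rw [h2 j hij.symm, h1]
  abel

lemma steps_symm {n : ℕ} {p q : ι → A} (h : Steps n p q) : Steps n q p := by
  induction n generalizing p with
  | zero =>
    have : p = q := h
    exact this.symm
  | succ n ih =>
    obtain ⟨r, hr, h⟩ := h
    exact steps_trans (ih h) ⟨p, jump_symm hr, rfl⟩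

lemma within_symm {n : ℕ} {p q : ι → A} (h : Within n p q) : Within n q p := by
  obtain ⟨m, hm, h⟩ := h
  exact ⟨m, hm, steps_symm h⟩

/-- additive maps -/
lemma steps_map {B : Type*} [AddCommGroup B] (f : A →+ B) {n : ℕ} {p q : ι → A}
    (h : Steps n p q) : Steps n (fun i => f (p i)) (fun i => f (q i)) := by
  induction n generalizing p with
  | zero =>
    have : p = q := h
    subst this
    rfl
  | succ n ih =>
    obtain ⟨r, hr, h⟩ := h
    refine ⟨fun i => f (r i), ?_, ih h⟩
    obtain ⟨i, j, hij, h1, h2⟩ := hr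
    exact ⟨i, j, hij, by simp only [h1, map_add, map_sub], fun k hk => by simp only [h2 k hk]⟩

lemma within_map {B : Type*} [AddCommGroup B] (f : A →+ B) {n : ℕ} {p q : ι → A}
    (h : Within n p q) : Within n (fun i => f (p i)) (fun i => f (q i)) := by
  obtain ⟨m, hm, h⟩ := h
  exact ⟨m, hm, steps_map f h⟩

/-- moving a subfamily of the pieces -/
lemma steps_extend {κ : Type*} (e : κ → ι) (he : Function.Injective e) {n : ℕ} {c c' : κ → A}
    (h : Steps n c c') : ∀ p : ι → A, (∀ k, p (e k) = c k) → Steps n p (Function.extend e c' p) := by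
  induction n generalizing c with
  | zero =>
    have : c = c' := h
    subst this
    intro p hp
    change p = _
    funext i
    by_cases hi : ∃ k, e k = i
    · obtain ⟨k, rfl⟩ := hi
      rw [he.extend_apply, hp]
    · rw [Function.extend_apply' _ _ _ hi]
  | succ n ih =>
    intro p hp
    obtain ⟨r, hr, h⟩ := h
    obtain ⟨i, j, hij, h1, h2⟩ := hr
    set p' := Function.extend e r p with hp'
    have hp'e : ∀ k, p' (e k) = r k := fun k => by rw [hp', he.extend_apply]
    refine ⟨p', ⟨e i, e j, fun hc => hij (he hc), ?_, ?_⟩, ?_⟩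
    · rw [hp'e, h1, hp, hp]
    · intro k hk
      by_cases hk' : ∃ a, e a = k
      · obtain ⟨a, rfl⟩ := hk'
        rw [hp'e, hp, h2 a (fun hc => hk (by rw [hc]))]
      · rw [hp', Function.extend_apply' _ _ _ hk']
    · have := ih h p' hp'e
      have e1 : Function.extend e c' p' = Function.extend e c' p := by
        funext k
        by_cases hk' : ∃ a, e a = k
        · obtain ⟨a, rfl⟩ := hk'
          rw [he.extend_apply, he.extend_apply]
        · rw [Function.extend_apply' _ _ _ hk', Function.extend_apply' _ _ _ hk', hp',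
            Function.extend_apply' _ _ _ hk']
      rwa [e1] at this

lemma within_extend {κ : Type*} (e : κ → ι) (he : Function.Injective e) {n : ℕ} {c c' : κ → A}
    (h : Within n c c') (p : ι → A) (hp : ∀ k, p (e k) = c k) :
    Within n p (Function.extend e c' p) := by
  obtain ⟨m, hm, h⟩ := h
  exact ⟨m, hm, steps_extend e he h p hp⟩

end basics

/-! ## configurations indexed by `ℕ`, moves among the first `M` pieces -/

section nat

variable {A : Type*} [AddCommGroup A]

/-- move among the first `M` pieces -/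
def JumpB (M : ℕ) (p q : ℕ → A) : Prop :=
  ∃ i j, i < M ∧ j < M ∧ i ≠ j ∧ q = Function.update p i (p j + p j - p i)

/-- exact number of moves -/
def StepsB (M : ℕ) : ℕ → (ℕ → A) → (ℕ → A) → Prop
  | 0, p, q => p = q
  | n + 1, p, q => ∃ r, JumpB M p r ∧ StepsB M n r q

/-- within `n` moves -/
def WithinB (M : ℕ) (n : ℕ) (p q : ℕ → A) : Prop := ∃ m ≤ n, StepsB M m p q

lemma stepsB_trans {M m n : ℕ} {p q r : ℕ → A} (h1 : StepsB M m p q) (h2 : StepsB M n q r) :
    StepsB M (m + n) p r := by
  induction m generalizing p with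
  | zero =>
    have : p = q := h1
    subst this
    rwa [Nat.zero_add]
  | succ m ih =>
    obtain ⟨s, hs, h⟩ := h1
    rw [Nat.succ_add]
    exact ⟨s, hs, ih h⟩

lemma withinB_refl {M : ℕ} (n : ℕ) (p : ℕ → A) : WithinB M n p p := ⟨0, Nat.zero_le _, rfl⟩

lemma withinB_trans {M m n : ℕ} {p q r : ℕ → A} (h1 : WithinB M m p q) (h2 : WithinB M n q r) :
    WithinB M (m + n) p r := by
  obtain ⟨a, ha, h⟩ := h1
  obtain ⟨b, hb, h'⟩ := h2
  exact ⟨a + b, by omega, stepsB_trans h h'⟩

lemma withinB_mono {M m n : ℕ} {p q : ℕ → A} (h : WithinB M m p q) (hmn : m ≤ n) :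
    WithinB M n p q := by
  obtain ⟨a, ha, h⟩ := h
  exact ⟨a, by omega, h⟩

lemma withinB_jump {M : ℕ} (p : ℕ → A) (i j : ℕ) (hi : i < M) (hj : j < M) (hij : i ≠ j) :
    WithinB M 1 p (Function.update p i (p j + p j - p i)) :=
  ⟨1, le_rfl, _, ⟨i, j, hi, hj, hij, rfl⟩, rfl⟩

/-- transfer to another index type -/
lemma stepsB_transfer {ι : Type*} {M n : ℕ} (v : ι → ℕ) (hv : Function.Injective v)
    (hs : ∀ i < M, ∃ a, v a = i) {p q : ℕ → A} (h : StepsB M n p q) :
    Steps n (fun a => p (v a)) (fun a => q (v a)) := by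
  induction n generalizing p with
  | zero =>
    have : p = q := h
    subst this
    rfl
  | succ n ih =>
    obtain ⟨r, hr, h⟩ := h
    refine ⟨fun a => r (v a), ?_, ih h⟩
    obtain ⟨i, j, hi, hj, hij, rfl⟩ := hr
    obtain ⟨a, rfl⟩ := hs i hi
    obtain ⟨b, rfl⟩ := hs j hj
    refine ⟨a, b, fun hc => hij (by rw [hc]), by simp, ?_⟩
    intro k hk
    have : v k ≠ v a := fun hc => hk (hv hc)
    simp [this]

lemma withinB_transfer {ι : Type*} {M n : ℕ} (v : ι → ℕ) (hv : Function.Injective v)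
    (hs : ∀ i < M, ∃ a, v a = i) {p q : ℕ → A} (h : WithinB M n p q) :
    Within n (fun a => p (v a)) (fun a => q (v a)) := by
  obtain ⟨m, hm, h⟩ := h
  exact ⟨m, hm, stepsB_transfer v hv hs h⟩

/-- `v` is a sum of at most `n` differences of positions of pieces `< M` outside `F` -/
def Av (M : ℕ) (F : ℕ → Prop) (p : ℕ → A) (n : ℕ) (v : A) : Prop :=
  ∃ L : List (ℕ × ℕ), L.length ≤ n ∧
    (∀ ab ∈ L, ab.1 < M ∧ ab.2 < M ∧ ¬ F ab.1 ∧ ¬ F ab.2) ∧
    v = (L.map (fun ab => p ab.2 - p ab.1)).sum

lemma av_zero (M : ℕ) (F : ℕ → Prop) (p : ℕ → A) (n : ℕ) : Av M F p n 0 :=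
  ⟨[], by simp, by simp, by simp⟩

lemma av_pair {M : ℕ} {F : ℕ → Prop} {p : ℕ → A} {a b : ℕ} (ha : a < M) (hb : b < M)
    (hFa : ¬ F a) (hFb : ¬ F b) : Av M F p 1 (p b - p a) :=
  ⟨[(a, b)], by simp, by simp [ha, hb, hFa, hFb], by simp⟩

lemma av_add {M : ℕ} {F : ℕ → Prop} {p : ℕ → A} {m n : ℕ} {v w : A} (h1 : Av M F p m v)
    (h2 : Av M F p n w) : Av M F p (m + n) (v + w) := by
  obtain ⟨L, hL, hL1, rfl⟩ := h1
  obtain ⟨K, hK, hK1, rfl⟩ := h2
  refine ⟨L ++ K, by rw [List.length_append]; omega, ?_, by simp⟩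
  intro ab hab
  rcases List.mem_append.mp hab with h | h
  · exact hL1 ab h
  · exact hK1 ab h

lemma av_neg {M : ℕ} {F : ℕ → Prop} {p : ℕ → A} {n : ℕ} {v : A} (h : Av M F p n v) :
    Av M F p n (-v) := by
  obtain ⟨L, hL, hL1, rfl⟩ := h
  refine ⟨L.map Prod.swap, by simpa using hL, ?_, ?_⟩
  · intro ab hab
    obtain ⟨cd, hcd, rfl⟩ := List.mem_map.mp hab
    have := hL1 cd hcd
    simp only [Prod.fst_swap, Prod.snd_swap]
    tauto
  · rw [List.map_map]
    clear hL hL1
    induction L with
    | nil => simp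
    | cons a L ih =>
      rw [List.map_cons, List.sum_cons, List.map_cons, List.sum_cons, neg_add, ih]
      simp

lemma av_mono {M : ℕ} {F : ℕ → Prop} {p : ℕ → A} {m n : ℕ} {v : A} (h : Av M F p m v)
    (hmn : m ≤ n) : Av M F p n v := by
  obtain ⟨L, hL, hL1, rfl⟩ := h
  exact ⟨L, by omega, hL1, rfl⟩

lemma av_sub {M : ℕ} {F : ℕ → Prop} {p : ℕ → A} {m n : ℕ} {v w : A} (h1 : Av M F p m v)
    (h2 : Av M F p n w) : Av M F p (m + n) (v - w) := by
  rw [sub_eq_add_neg]
  exact av_add h1 (av_neg h2)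

lemma av_nsmul {M : ℕ} {F : ℕ → Prop} {p : ℕ → A} {n : ℕ} {v : A} (h : Av M F p n v) (k : ℕ) :
    Av M F p (k * n) (k • v) := by
  induction k with
  | zero => simpa using av_zero M F p 0
  | succ k ih =>
    rw [succ_nsmul, Nat.succ_mul]
    exact av_add ih h

lemma av_congr {M : ℕ} {F : ℕ → Prop} {p p' : ℕ → A} {n : ℕ} {v : A} (h : Av M F p n v)
    (hp : ∀ k < M, ¬ F k → p' k = p k) : Av M F p' n v := by
  obtain ⟨L, hL, hL1, rfl⟩ := h
  refine ⟨L, hL, hL1, ?_⟩
  congr 1
  apply List.map_congr_left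
  intro ab hab
  have := hL1 ab hab
  rw [hp _ this.1 this.2.2.1, hp _ this.2.1 this.2.2.2]

/-- translating one piece -/
lemma translate {M : ℕ} {F : ℕ → Prop} (i : ℕ) (hi : i < M) (hF : F i) {n : ℕ} : ∀ {p : ℕ → A} {v : A},
    Av M F p n v → WithinB M (2 * n) p (Function.update p i (p i + (v + v))) := by
  intro p v h
  obtain ⟨L, hL, hL1, rfl⟩ := h
  revert hL hL1
  suffices H : ∀ (L : List (ℕ × ℕ)) (p : ℕ → A),
      (∀ ab ∈ L, ab.1 < M ∧ ab.2 < M ∧ ¬ F ab.1 ∧ ¬ F ab.2) →
      WithinB M (2 * L.length) p (Function.update p i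
        (p i + ((L.map (fun ab => p ab.2 - p ab.1)).sum + (L.map (fun ab => p ab.2 - p ab.1)).sum))) by
    intro hL hL1
    exact withinB_mono (H L p hL1) (by omega)
  intro L
  induction L with
  | nil =>
    intro p _
    simp only [List.map_nil, List.sum_nil, add_zero, Function.update_eq_self]
    exact withinB_refl _ _
  | cons ab L ih =>
    intro p h
    obtain ⟨a, b⟩ := ab
    have hab := h (a, b) (by simp)
    simp only at hab
    have hai : a ≠ i := fun hc => hab.2.2.1 (hc ▸ hF)
    have hbi : b ≠ i := fun hc => hab.2.2.2 (hc ▸ hF)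
    have h1 := withinB_jump p i a hi hab.1 hai.symm
    set p1 := Function.update p i (p a + p a - p i) with hp1
    have h2 := withinB_jump p1 i b hi hab.2.1 hbi.symm
    have e1 : p1 b = p b := by rw [hp1, Function.update_of_ne hbi]
    have e2 : p1 i = p a + p a - p i := by rw [hp1, Function.update_self]
    rw [e1, e2] at h2
    set p2 := Function.update p1 i (p b + p b - (p a + p a - p i)) with hp2
    have e3 : p2 i = p i + ((p b - p a) + (p b - p a)) := by
      rw [hp2, Function.update_self]; abel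
    have e4 : ∀ k, k ≠ i → p2 k = p k := by
      intro k hk
      rw [hp2, Function.update_of_ne hk, hp1, Function.update_of_ne hk]
    have h3 := ih p2 (fun cd hcd => h cd (by simp [hcd]))
    have e5 : (L.map (fun ab => p2 ab.2 - p2 ab.1)) = (L.map (fun ab => p ab.2 - p ab.1)) := by
      apply List.map_congr_left
      intro cd hcd
      have := h cd (by simp [hcd])
      have k1 : cd.1 ≠ i := fun hc => this.2.2.1 (by rw [hc]; exact hF)
      have k2 : cd.2 ≠ i := fun hc => this.2.2.2 (by rw [hc]; exact hF)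
      rw [e4 _ k1, e4 _ k2]
    rw [e5, e3] at h3
    have e6 : Function.update p2 i (p i + ((p b - p a) + (p b - p a)) +
        ((L.map (fun ab => p ab.2 - p ab.1)).sum + (L.map (fun ab => p ab.2 - p ab.1)).sum))
        = Function.update p i (p i + ((((a, b) :: L).map (fun ab => p ab.2 - p ab.1)).sum +
          (((a, b) :: L).map (fun ab => p ab.2 - p ab.1)).sum)) := by
      rw [hp2, hp1, Function.update_idem, Function.update_idem, List.map_cons, List.sum_cons]
      congr 1
      abel
    rw [e6] at h3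
    refine withinB_mono (withinB_trans (withinB_trans h1 h2) h3) ?_
    rw [List.length_cons]; omega

end nat

end Pool.Agent.Helper156.JumpBasics
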