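import Mathlib
import Pool.Agent.Helper156.JumpBasics

/-!
# The explicit chain of moves for a periodic sequence of odd period
-/

namespace Pool.Agent.Helper156.JumpChain

open Pool.Agent.Helper156.JumpBasics

variable {A : Type*} [AddCommGroup A]

/-- original positions -/
def P (Y : ℕ → A) (j : ℕ) : A := Y j + Y (j + 2)

/-- final positions -/
def P' (Y : ℕ → A) (j : ℕ) : A := Y j + (Y (j + 1) + Y (j + 1)) + Y (j + 2) - (Y 1 + Y 1)

/-- pieces `0..r` have been moved -/
def st (Y : ℕ → A) (r : ℕ) (j : ℕ) : A := if j ≤ r then P' Y j else P Y j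

lemma st_zero (Y : ℕ → A) : st Y 0 = P Y := by
  funext j
  unfold st
  split_ifs with h
  · have : j = 0 := by omega
    subst this
    unfold P P'
    simp only [Nat.zero_add]
    abel
  · rfl

lemma st_update (Y : ℕ → A) (r : ℕ) :
    Function.update (st Y r) (r + 1) (P' Y (r + 1)) = st Y (r + 1) := by
  funext j
  by_cases hj : j = r + 1
  · subst hj; simp [st]
  · rw [Function.update_of_ne hj]
    unfold st
    have : (j ≤ r) ↔ (j ≤ r + 1) := by omega
    simp only [this]

/-- telescoping over unmoved pieces -/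
lemma tel {M : ℕ} {F : ℕ → Prop} {p : ℕ → A} {Y : ℕ → A} (t : ℕ) : ∀ s : ℕ,
    (∀ i < s, t + 4 * i + 2 < M ∧ ¬ F (t + 4 * i) ∧ ¬ F (t + 4 * i + 2) ∧
      p (t + 4 * i) = P Y (t + 4 * i) ∧ p (t + 4 * i + 2) = P Y (t + 4 * i + 2)) →
    Av M F p s (Y t - Y (t + 4 * s)) := by
  intro s
  induction s with
  | zero => intro _; simpa using av_zero M F p 0
  | succ s ih =>
    intro h
    have h1 := ih (fun i hi => h i (by omega))
    obtain ⟨a1, a2, a3, a4, a5⟩ := h s (by omega)
    have h2 : Av M F p 1 (p (t + 4 * s) - p (t + 4 * s + 2)) := av_pair a1 (by omega) a3 a2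
    have h3 := av_add h1 h2
    rw [a4, a5] at h3
    have e : Y t - Y (t + 4 * s) + (P Y (t + 4 * s) - P Y (t + 4 * s + 2))
        = Y t - Y (t + 4 * (s + 1)) := by
      unfold P
      have e1 : t + 4 * (s + 1) = t + 4 * s + 2 + 2 := by ring
      rw [e1]
      abel
    rwa [e] at h3

/-- telescoping over moved pieces -/
lemma telA {M : ℕ} {F : ℕ → Prop} {p : ℕ → A} {Y : ℕ → A} (t : ℕ) : ∀ s : ℕ,
    (∀ i < s, t + 2 * i + 1 < M ∧ ¬ F (t + 2 * i) ∧ ¬ F (t + 2 * i + 1) ∧
      p (t + 2 * i) = P' Y (t + 2 * i) ∧ p (t + 2 * i + 1) = P' Y (t + 2 * i + 1)) →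
    Av M F p s (Y t + Y (t + 1) - Y (t + 2 * s) - Y (t + 2 * s + 1)) := by
  intro s
  induction s with
  | zero => intro _; simpa using av_zero M F p 0
  | succ s ih =>
    intro h
    have h1 := ih (fun i hi => h i (by omega))
    obtain ⟨a1, a2, a3, a4, a5⟩ := h s (by omega)
    have h2 : Av M F p 1 (p (t + 2 * s) - p (t + 2 * s + 1)) := av_pair a1 (by omega) a3 a2
    have h3 := av_add h1 h2
    rw [a4, a5] at h3
    have e : Y t + Y (t + 1) - Y (t + 2 * s) - Y (t + 2 * s + 1) +
        (P' Y (t + 2 * s) - P' Y (t + 2 * s + 1))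
        = Y t + Y (t + 1) - Y (t + 2 * (s + 1)) - Y (t + 2 * (s + 1) + 1) := by
      unfold P'
      have e1 : t + 2 * (s + 1) = t + 2 * s + 1 + 1 := by ring
      have e2 : t + 2 * s + 2 = t + 2 * s + 1 + 1 := by ring
      have e3 : t + 2 * s + 1 + 2 = t + 2 * s + 1 + 1 + 1 := by ring
      rw [e1, e2, e3]
      abel
    rwa [e] at h3

/-- move of one piece with unmoved tail -/
lemma step_single {M : ℕ} (Y : ℕ → A) (hM1 : Y (M + 1) = Y 1) (r s : ℕ)
    (hs : r + 1 + 4 * s = M) (hs0 : 0 < s) : WithinB M (2 * s) (st Y r) (st Y (r + 1)) := by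
  have h1 : Av M (fun j => j = r + 1) (st Y r) s (Y (r + 2) - Y (r + 2 + 4 * s)) := by
    apply tel
    intro i hi
    refine ⟨by omega, by omega, by omega, ?_, ?_⟩
    · unfold st; rw [if_neg (by omega)]
    · unfold st; rw [if_neg (by omega)]
  have h2 := translate (r + 1) (by omega) (by simp) h1
  have e : st Y r (r + 1) + (Y (r + 2) - Y (r + 2 + 4 * s) + (Y (r + 2) - Y (r + 2 + 4 * s)))
      = P' Y (r + 1) := by
    have e1 : r + 2 + 4 * s = M + 1 := by omega
    rw [e1, hM1]
    unfold st P P'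
    rw [if_neg (by omega)]
    have e2 : r + 2 = r + 1 + 1 := rfl
    rw [e2]
    abel
  rw [e, st_update] at h2
  exact h2

/-- the two intermediate configurations of the pair move -/
def two (c : ℕ → A) (a b : ℕ) (x y : A) : ℕ → A := Function.update (Function.update c a x) b y

omit [AddCommGroup A] in
lemma two_a (c : ℕ → A) {a b : ℕ} (hab : a ≠ b) (x y : A) : two c a b x y a = x := by
  unfold two; rw [Function.update_of_ne hab, Function.update_self]

omit [AddCommGroup A] in
lemma two_b (c : ℕ → A) (a b : ℕ) (x y : A) : two c a b x y b = y := by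
  unfold two; rw [Function.update_self]

omit [AddCommGroup A] in
lemma two_other (c : ℕ → A) {a b k : ℕ} (ha : k ≠ a) (hb : k ≠ b) (x y : A) :
    two c a b x y k = c k := by
  unfold two; rw [Function.update_of_ne hb, Function.update_of_ne ha]

omit [AddCommGroup A] in
lemma two_upd_b (c : ℕ → A) (a b : ℕ) (x y z : A) :
    Function.update (two c a b x y) b z = two c a b x z := by
  unfold two; rw [Function.update_idem]

omit [AddCommGroup A] in
lemma two_upd_a (c : ℕ → A) {a b : ℕ} (hab : a ≠ b) (x y z : A) :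
    Function.update (two c a b x y) a z = two c a b z y := by
  unfold two
  rw [Function.update_comm hab.symm, Function.update_idem]

omit [AddCommGroup A] in
lemma two_self (c : ℕ → A) (a b : ℕ) : two c a b (c a) (c b) = c := by
  unfold two
  rw [Function.update_eq_self, Function.update_eq_self]

/-- self translation of a pair -/
lemma pair_self {M : ℕ} (c : ℕ → A) {a b : ℕ} (ha : a < M) (hb : b < M) (hab : a ≠ b) (n : ℕ) :
    ∀ (x D : A), WithinB M (2 * n) (two c a b x (x + D))
      (two c a b (x + n • (D + D)) (x + n • (D + D) + D)) := by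
  induction n with
  | zero => intro x D; simpa using withinB_refl _ _
  | succ n ih =>
    intro x D
    have h1 := withinB_jump (two c a b x (x + D)) a b ha hb hab
    rw [two_a c hab, two_b, two_upd_a c hab] at h1
    set x1 : A := x + D + (x + D) - x with hx1
    have h2 := withinB_jump (two c a b x1 (x + D)) b a hb ha hab.symm
    rw [two_a c hab, two_b, two_upd_b] at h2
    have e1 : x1 = x + (D + D) := by rw [hx1]; abel
    have e2 : x1 + x1 - (x + D) = x + (D + D) + D := by rw [e1]; abel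
    rw [e2] at h2
    rw [e1] at h1 h2
    have h3 := ih (x + (D + D)) D
    have e3 : x + (D + D) + n • (D + D) = x + (n + 1) • (D + D) := by
      rw [succ_nsmul]; abel
    rw [e3] at h3
    exact withinB_mono (withinB_trans (withinB_trans h1 h2) h3) (by omega)

/-- translating a pair by something available from the others -/
lemma pair_translate {M : ℕ} (c : ℕ → A) {a b : ℕ} (ha : a < M) (hb : b < M) (hab : a ≠ b) (n : ℕ)
    (x y v : A) (hv : Av M (fun j => j = a ∨ j = b) c n v) :
    WithinB M (4 * n) (two c a b x y) (two c a b (x + (v + v)) (y + (v + v))) := by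
  have h1 : Av M (fun j => j = a ∨ j = b) (two c a b x y) n v := by
    apply av_congr hv
    intro k _ hk
    rw [not_or] at hk
    exact two_other c hk.1 hk.2 _ _
  have h2 := translate a ha (Or.inl rfl) h1
  rw [two_a c hab, two_upd_a c hab] at h2
  have h3 : Av M (fun j => j = a ∨ j = b) (two c a b (x + (v + v)) y) n v := by
    apply av_congr hv
    intro k _ hk
    rw [not_or] at hk
    exact two_other c hk.1 hk.2 _ _
  have h4 := translate b hb (Or.inr rfl) h3
  rw [two_b, two_upd_b] at h4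
  exact withinB_mono (withinB_trans h2 h4) (by omega)

/-- relative vector of the pair after the move -/
def DD (Y : ℕ → A) (q : ℕ) : A := (Y (q + 4) + Y (q + 4)) + Y (q + 5) - Y (q + 1) - (Y (q + 2) + Y (q + 2))

lemma av_sumW {M : ℕ} (Y : ℕ → A) (m s q : ℕ) (hq : q = 2 * m + 1) (hs : q + 4 + 4 * s = M) :
    ∀ n : ℕ, n ≤ m + 1 → Av M (fun j => j = q + 1 ∨ j = q + 3) (st Y q) (n * (2 * m + 4))
      (n • P Y (q + 2) - n • (Y 0 + Y 0) - Y 1 + Y (2 * n + 1)) := by
  intro n
  induction n with
  | zero => intro _; simpa using av_zero M _ (st Y q) 0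
  | succ n ih =>
    intro hn
    have h0 := ih (by omega)
    have h1 : Av M (fun j => j = q + 1 ∨ j = q + 3) (st Y q) 1 (st Y q (q + 2) - st Y q 0) :=
      av_pair (by omega) (by omega) (by omega) (by omega)
    have h2 : Av M (fun j => j = q + 1 ∨ j = q + 3) (st Y q) n
        (Y 1 + Y (1 + 1) - Y (1 + 2 * n) - Y (1 + 2 * n + 1)) := by
      apply telA
      intro i hi
      refine ⟨by omega, by omega, by omega, ?_, ?_⟩
      · unfold st; rw [if_pos (by omega)]
      · unfold st; rw [if_pos (by omega)]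
    have h3 : Av M (fun j => j = q + 1 ∨ j = q + 3) (st Y q) (n + 1)
        (Y 0 + Y (0 + 1) - Y (0 + 2 * (n + 1)) - Y (0 + 2 * (n + 1) + 1)) := by
      apply telA
      intro i hi
      refine ⟨by omega, by omega, by omega, ?_, ?_⟩
      · unfold st; rw [if_pos (by omega)]
      · unfold st; rw [if_pos (by omega)]
    have h4 := av_add h0 (av_sub (av_add h1 h2) h3)
    have e : n • P Y (q + 2) - n • (Y 0 + Y 0) - Y 1 + Y (2 * n + 1) +
        (st Y q (q + 2) - st Y q 0 + (Y 1 + Y (1 + 1) - Y (1 + 2 * n) - Y (1 + 2 * n + 1)) -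
          (Y 0 + Y (0 + 1) - Y (0 + 2 * (n + 1)) - Y (0 + 2 * (n + 1) + 1)))
        = (n + 1) • P Y (q + 2) - (n + 1) • (Y 0 + Y 0) - Y 1 + Y (2 * (n + 1) + 1) := by
      have e1 : st Y q (q + 2) = P Y (q + 2) := by unfold st; rw [if_neg (by omega)]
      have e2 : st Y q 0 = Y 0 + Y 2 := by
        unfold st P'
        rw [if_pos (by omega)]
        simp only [Nat.zero_add]
        abel
      have e3 : 1 + 2 * n = 2 * n + 1 := by ring
      have e4 : 1 + 2 * n + 1 = 2 * (n + 1) := by ring
      have e5 : 0 + 2 * (n + 1) = 2 * (n + 1) := by ring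
      have e6 : 0 + 2 * (n + 1) + 1 = 2 * (n + 1) + 1 := by ring
      rw [e1, e2, e4, e5, e3, succ_nsmul, succ_nsmul]
      simp only [Nat.zero_add, Nat.reduceAdd]
      abel
    rw [e] at h4
    refine av_mono h4 ?_
    have : (n + 1) * (2 * m + 4) = n * (2 * m + 4) + (2 * m + 4) := by ring
    omega

/-- the pair move -/
lemma step_pair {M : ℕ} (Y : ℕ → A) (hM0 : Y M = Y 0) (hM1 : Y (M + 1) = Y 1) (m s q : ℕ)
    (hq : q = 2 * m + 1) (hs : q + 4 + 4 * s = M) :
    WithinB M (13 * M ^ 2) (st Y q) (two (st Y q) (q + 1) (q + 3) (P' Y (q + 1)) (P' Y (q + 3))) := by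
  set c := st Y q with hc
  have hab : q + 1 ≠ q + 3 := by omega
  have haM : q + 1 < M := by omega
  have hbM : q + 3 < M := by omega
  have hE : Av M (fun j => j = q + 1 ∨ j = q + 3) c s (Y (q + 4) - Y 0) := by
    have h : Av M (fun j => j = q + 1 ∨ j = q + 3) c s (Y (q + 4) - Y (q + 4 + 4 * s)) := by
      apply tel
      intro i hi
      refine ⟨by omega, by omega, by omega, ?_, ?_⟩
      · rw [hc]; unfold st; rw [if_neg (by omega)]
      · rw [hc]; unfold st; rw [if_neg (by omega)]
    rwa [hs, hM0] at h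
  have hF : Av M (fun j => j = q + 1 ∨ j = q + 3) c s (Y (q + 5) - Y 1) := by
    have h : Av M (fun j => j = q + 1 ∨ j = q + 3) c s (Y (q + 5) - Y (q + 5 + 4 * s)) := by
      apply tel
      intro i hi
      refine ⟨by omega, by omega, by omega, ?_, ?_⟩
      · rw [hc]; unfold st; rw [if_neg (by omega)]
      · rw [hc]; unfold st; rw [if_neg (by omega)]
    have e : q + 5 + 4 * s = M + 1 := by omega
    rwa [e, hM1] at h
  have hA : Av M (fun j => j = q + 1 ∨ j = q + 3) c (m + 1) (Y 0 + Y 1 - Y (q + 1) - Y (q + 2)) := by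
    have h : Av M (fun j => j = q + 1 ∨ j = q + 3) c (m + 1)
        (Y 0 + Y (0 + 1) - Y (0 + 2 * (m + 1)) - Y (0 + 2 * (m + 1) + 1)) := by
      apply telA
      intro i hi
      refine ⟨by omega, by omega, by omega, ?_, ?_⟩
      · rw [hc]; unfold st; rw [if_pos (by omega)]
      · rw [hc]; unfold st; rw [if_pos (by omega)]
    have e1 : 0 + 2 * (m + 1) = q + 1 := by omega
    rw [e1] at h
    simpa using h
  have hW := av_sumW (M := M) Y m s q hq hs (m + 1) le_rfl
  rw [← hc] at hW
  have eq2 : 2 * (m + 1) + 1 = q + 2 := by omega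
  rw [eq2] at hW
  set Z : A := Y (q + 2) - Y 1 - (m + 1) • DD Y q with hZ
  have hZav : Av M (fun j => j = q + 1 ∨ j = q + 3) c
      ((m + 1) * (2 * m + 4) + (m + 1) * (m + 1 + 3 * s + s)) Z := by
    have h := av_sub hW (av_nsmul (av_add (av_add hA (av_nsmul hE 3)) hF) (m + 1))
    have e : (m + 1) • P Y (q + 2) - (m + 1) • (Y 0 + Y 0) - Y 1 + Y (q + 2) -
        (m + 1) • (Y 0 + Y 1 - Y (q + 1) - Y (q + 2) + 3 • (Y (q + 4) - Y 0) + (Y (q + 5) - Y 1))
        = Z := by
      rw [hZ]
      unfold DD P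
      have e1 : q + 2 + 2 = q + 4 := rfl
      rw [e1]
      simp only [nsmul_add, nsmul_sub]
      have e3 : ∀ x : A, (m + 1) • 3 • x = (m + 1) • x + (m + 1) • x + (m + 1) • x := by
        intro x
        rw [← nsmul_add, ← nsmul_add]
        congr 1
        abel
      simp only [e3]
      abel
    rw [e] at h
    exact h
  -- (i)
  set x0 : A := c (q + 1) with hx0
  have h1 : WithinB M 1 c (two c (q + 1) (q + 3) x0 (x0 + x0 - c (q + 3))) := by
    have h := withinB_jump c (q + 3) (q + 1) hbM haM hab.symm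
    have e : Function.update c (q + 3) (c (q + 1) + c (q + 1) - c (q + 3))
        = two c (q + 1) (q + 3) x0 (x0 + x0 - c (q + 3)) := by
      unfold two
      rw [hx0, Function.update_eq_self]
    rwa [e] at h
  -- (ii)
  have h2 : WithinB M (2 * (m + 1 + s + s)) (two c (q + 1) (q + 3) x0 (x0 + x0 - c (q + 3)))
      (two c (q + 1) (q + 3) x0 (x0 + DD Y q)) := by
    have hv := av_add (av_add hA hE) hF
    have hv' : Av M (fun j => j = q + 1 ∨ j = q + 3)
        (two c (q + 1) (q + 3) x0 (x0 + x0 - c (q + 3))) (m + 1 + s + s)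
        (Y 0 + Y 1 - Y (q + 1) - Y (q + 2) + (Y (q + 4) - Y 0) + (Y (q + 5) - Y 1)) := by
      apply av_congr hv
      intro k _ hk
      rw [not_or] at hk
      exact two_other c hk.1 hk.2 _ _
    have h := translate (q + 3) hbM (Or.inr rfl) hv'
    rw [two_b, two_upd_b] at h
    have e : x0 + x0 - c (q + 3) +
        (Y 0 + Y 1 - Y (q + 1) - Y (q + 2) + (Y (q + 4) - Y 0) + (Y (q + 5) - Y 1) +
          (Y 0 + Y 1 - Y (q + 1) - Y (q + 2) + (Y (q + 4) - Y 0) + (Y (q + 5) - Y 1)))
        = x0 + DD Y q := by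
      have e1 : c (q + 3) = P Y (q + 3) := by rw [hc]; unfold st; rw [if_neg (by omega)]
      have e2 : x0 = P Y (q + 1) := by rw [hx0, hc]; unfold st; rw [if_neg (by omega)]
      rw [e1, e2]
      unfold DD P
      have e3 : q + 3 + 2 = q + 5 := rfl
      have e4 : q + 1 + 2 = q + 3 := rfl
      rw [e3, e4]
      abel
    rwa [e] at h
  -- (iii)
  have h3 := pair_self c haM hbM hab (m + 1) x0 (DD Y q)
  -- (iv)
  have h4 := pair_translate c haM hbM hab _ (x0 + (m + 1) • (DD Y q + DD Y q))
    (x0 + (m + 1) • (DD Y q + DD Y q) + DD Y q) Z hZav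
  have ex : x0 + (m + 1) • (DD Y q + DD Y q) + (Z + Z) = P' Y (q + 1) := by
    have e2 : x0 = P Y (q + 1) := by rw [hx0, hc]; unfold st; rw [if_neg (by omega)]
    rw [e2, hZ]
    unfold P P'
    have e4 : q + 1 + 1 = q + 2 := rfl
    rw [e4, nsmul_add]
    abel
  have ey : x0 + (m + 1) • (DD Y q + DD Y q) + DD Y q + (Z + Z) = P' Y (q + 3) := by
    have : x0 + (m + 1) • (DD Y q + DD Y q) + DD Y q + (Z + Z)
        = (x0 + (m + 1) • (DD Y q + DD Y q) + (Z + Z)) + DD Y q := by abel
    rw [this, ex]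
    unfold P' DD
    have e1 : q + 1 + 1 = q + 2 := rfl
    have e2 : q + 1 + 2 = q + 3 := rfl
    have e3 : q + 3 + 1 = q + 4 := rfl
    have e4 : q + 3 + 2 = q + 5 := rfl
    rw [e1, e2, e3, e4]
    abel
  rw [ex, ey] at h4
  refine withinB_mono (withinB_trans (withinB_trans (withinB_trans h1 h2) h3) h4) ?_
  subst hq
  subst hs
  nlinarith [Nat.zero_le m, Nat.zero_le s, Nat.zero_le (m * s), Nat.zero_le (m * m),
    Nat.zero_le (s * s)]

/-- the last piece of a group -/
lemma step_third {M : ℕ} (Y : ℕ → A) (hM0 : Y M = Y 0) (m s q : ℕ)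
    (hq : q = 2 * m + 1) (hs : q + 4 + 4 * s = M) :
    WithinB M (3 * M) (two (st Y q) (q + 1) (q + 3) (P' Y (q + 1)) (P' Y (q + 3))) (st Y (q + 3)) := by
  set c := two (st Y q) (q + 1) (q + 3) (P' Y (q + 1)) (P' Y (q + 3)) with hc
  have c_moved : ∀ j, (j ≤ q + 1 ∨ j = q + 3) → c j = P' Y j := by
    intro j hj
    rcases hj with hj | hj
    · by_cases h : j = q + 1
      · subst h; rw [hc, two_a _ (by omega)]
      · rw [hc, two_other _ (by omega) (by omega)]
        unfold st; rw [if_pos (by omega)]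
    · subst hj; rw [hc, two_b]
  have c_un : ∀ j, (j = q + 2 ∨ q + 4 ≤ j) → c j = P Y j := by
    intro j hj
    rw [hc, two_other _ (by omega) (by omega)]
    unfold st; rw [if_neg (by omega)]
  have h1 := withinB_jump (M := M) c (q + 2) 0 (by omega) (by omega) (by omega)
  set c1 := Function.update c (q + 2) (c 0 + c 0 - c (q + 2)) with hc1
  have hE : Av M (fun j => j = q + 2) c s (Y (q + 4) - Y 0) := by
    have h : Av M (fun j => j = q + 2) c s (Y (q + 4) - Y (q + 4 + 4 * s)) := by
      apply tel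
      intro i hi
      exact ⟨by omega, by omega, by omega, c_un _ (by omega), c_un _ (by omega)⟩
    rwa [hs, hM0] at h
  have hA : Av M (fun j => j = q + 2) c (m + 1) (Y 1 + Y 2 - Y (q + 2) - Y (q + 3)) := by
    have h : Av M (fun j => j = q + 2) c (m + 1)
        (Y 1 + Y (1 + 1) - Y (1 + 2 * (m + 1)) - Y (1 + 2 * (m + 1) + 1)) := by
      apply telA
      intro i hi
      exact ⟨by omega, by omega, by omega, c_moved _ (by omega), c_moved _ (by omega)⟩
    have e1 : 1 + 2 * (m + 1) = q + 2 := by omega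
    rwa [e1] at h
  have hv : Av M (fun j => j = q + 2) c1 (s + (m + 1))
      ((Y (q + 4) - Y 0) - (Y 1 + Y 2 - Y (q + 2) - Y (q + 3))) := by
    apply av_congr (av_sub hE hA)
    intro k _ hk
    rw [hc1, Function.update_of_ne hk]
  have h2 := translate (q + 2) (by omega) (by simp) hv
  have e1 : c1 (q + 2) = c 0 + c 0 - c (q + 2) := by rw [hc1, Function.update_self]
  have e2 : c 0 = Y 0 + Y 2 := by
    rw [c_moved 0 (by omega)]
    unfold P'
    simp only [Nat.zero_add]
    abel
  have e3 : c (q + 2) = P Y (q + 2) := c_un _ (by omega)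
  rw [e1, e2, e3, hc1, Function.update_idem] at h2
  have e4 : Y 0 + Y 2 + (Y 0 + Y 2) - P Y (q + 2) +
      ((Y (q + 4) - Y 0) - (Y 1 + Y 2 - Y (q + 2) - Y (q + 3)) +
        ((Y (q + 4) - Y 0) - (Y 1 + Y 2 - Y (q + 2) - Y (q + 3)))) = P' Y (q + 2) := by
    unfold P P'
    have e5 : q + 2 + 1 = q + 3 := rfl
    have e6 : q + 2 + 2 = q + 4 := rfl
    rw [e5, e6]
    abel
  rw [e4] at h2
  have e5 : Function.update c (q + 2) (P' Y (q + 2)) = st Y (q + 3) := by
    funext j
    by_cases hj : j = q + 2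
    · subst hj; simp [st]
    · rw [Function.update_of_ne hj]
      by_cases h : j ≤ q + 3
      · rw [c_moved j (by omega)]; unfold st; rw [if_pos h]
      · rw [c_un j (by omega)]; unfold st; rw [if_neg h]
  rw [e5] at h2
  rw [hc1] at h1
  exact withinB_mono (withinB_trans h1 h2) (by omega)

/-- a full group of four pieces -/
lemma step_group {M : ℕ} (Y : ℕ → A) (hM0 : Y M = Y 0) (hM1 : Y (M + 1) = Y 1) (m s : ℕ)
    (hs : 2 * m + 5 + 4 * s = M) :
    WithinB M (20 * M ^ 2) (st Y (2 * m)) (st Y (2 * m + 4)) := by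
  have h1 := step_single Y hM1 (2 * m) (s + 1) (by omega) (by omega)
  have h2 := step_pair Y hM0 hM1 m s (2 * m + 1) rfl (by omega)
  have h3 := step_third Y hM0 m s (2 * m + 1) rfl (by omega)
  refine withinB_mono (withinB_trans (withinB_trans h1 h2) h3) ?_
  nlinarith

/-- all groups -/
lemma groups {M : ℕ} (Y : ℕ → A) (hM0 : Y M = Y 0) (hM1 : Y (M + 1) = Y 1) (r : ℕ) (hr : r % 2 = 0) :
    ∀ n : ℕ, r + 4 * n + 1 = M → ∀ k ≤ n, WithinB M (k * (20 * M ^ 2)) (st Y r) (st Y (r + 4 * k)) := by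
  intro n hn k
  induction k with
  | zero => intro _; simpa using withinB_refl _ _
  | succ k ih =>
    intro hk
    have h1 := ih (by omega)
    obtain ⟨m, hm⟩ : ∃ m, r + 4 * k = 2 * m := ⟨r / 2 + 2 * k, by omega⟩
    have h2 := step_group (M := M) Y hM0 hM1 m (n - k - 1) (by omega)
    rw [← hm] at h2
    have e : r + 4 * k + 4 = r + 4 * (k + 1) := by ring
    rw [e] at h2
    exact withinB_mono (withinB_trans h1 h2) (le_of_eq (by ring))

/-- the two additional first moves if `M ≡ 3 (mod 4)` -/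
lemma first_two {M : ℕ} (Y : ℕ → A) (hM0 : Y M = Y 0) (hM1 : Y (M + 1) = Y 1) (s : ℕ)
    (hs : 3 + 4 * s = M) : WithinB M (20 * M ^ 2) (st Y 0) (st Y 2) := by
  have e0 : st Y 0 0 = Y 0 + Y 2 := by rw [st_zero]; unfold P; simp
  -- piece 1
  have h1 := withinB_jump (M := M) (st Y 0) 1 0 (by omega) (by omega) (by omega)
  set c1 := Function.update (st Y 0) 1 (st Y 0 0 + st Y 0 0 - st Y 0 1) with hc1
  have hv : Av M (fun j => j = 1) c1 s (Y 3 - Y 0) := by
    have h : Av M (fun j => j = 1) c1 s (Y 3 - Y (3 + 4 * s)) := by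
      apply tel
      intro i hi
      refine ⟨by omega, by omega, by omega, ?_, ?_⟩
      · rw [hc1, Function.update_of_ne (by omega), st_zero]
      · rw [hc1, Function.update_of_ne (by omega), st_zero]
    rwa [hs, hM0] at h
  have h2 := translate (M := M) 1 (by omega) (by simp) hv
  have e1 : c1 1 + (Y 3 - Y 0 + (Y 3 - Y 0)) = P' Y 1 := by
    rw [hc1, Function.update_self, e0, st_zero]
    unfold P P'
    simp only [Nat.reduceAdd]
    abel
  have e2 : Function.update c1 1 (P' Y 1) = st Y 1 := by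
    rw [hc1, Function.update_idem]
    exact st_update Y 0
  rw [e1, e2] at h2
  -- piece 2
  have e0' : st Y 1 0 = Y 0 + Y 2 := by
    unfold st P'
    simp only [Nat.zero_le, if_true, Nat.zero_add]
    abel
  have h3 := withinB_jump (M := M) (st Y 1) 2 0 (by omega) (by omega) (by omega)
  set c2 := Function.update (st Y 1) 2 (st Y 1 0 + st Y 1 0 - st Y 1 2) with hc2
  have hv3 : Av M (fun j => j = 2) c2 s (Y 3 - Y 0) := by
    have h : Av M (fun j => j = 2) c2 s (Y 3 - Y (3 + 4 * s)) := by
      apply tel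
      intro i hi
      refine ⟨by omega, by omega, by omega, ?_, ?_⟩
      · rw [hc2, Function.update_of_ne (by omega)]; unfold st; rw [if_neg (by omega)]
      · rw [hc2, Function.update_of_ne (by omega)]; unfold st; rw [if_neg (by omega)]
    rwa [hs, hM0] at h
  have hv4 : Av M (fun j => j = 2) c2 s (Y 4 - Y 1) := by
    have h : Av M (fun j => j = 2) c2 s (Y 4 - Y (4 + 4 * s)) := by
      apply tel
      intro i hi
      refine ⟨by omega, by omega, by omega, ?_, ?_⟩
      · rw [hc2, Function.update_of_ne (by omega)]; unfold st; rw [if_neg (by omega)]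
      · rw [hc2, Function.update_of_ne (by omega)]; unfold st; rw [if_neg (by omega)]
    have e : 4 + 4 * s = M + 1 := by omega
    rwa [e, hM1] at h
  have h4 := translate (M := M) 2 (by omega) (by simp) (av_add hv3 hv4)
  have e3 : c2 2 + (Y 3 - Y 0 + (Y 4 - Y 1) + (Y 3 - Y 0 + (Y 4 - Y 1))) = P' Y 2 := by
    have e4 : st Y 1 2 = P Y 2 := by unfold st; rw [if_neg (by omega)]
    rw [hc2, Function.update_self, e0', e4]
    unfold P P'
    simp only [Nat.reduceAdd]
    abel
  have e5 : Function.update c2 2 (P' Y 2) = st Y 2 := by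
    rw [hc2, Function.update_idem]
    exact st_update Y 1
  rw [e3, e5] at h4
  refine withinB_mono (withinB_trans (withinB_trans h1 h2) (withinB_trans h3 h4)) ?_
  nlinarith

/-- **The chain.**  For an odd number `M` of pieces and a periodic sequence, the configuration
`Y j + Y (j+2)` can be moved to `Y j + 2 Y (j+1) + Y (j+2) - 2 Y 1` in `O(M^3)` moves. -/
theorem chain {M : ℕ} (hM : M % 2 = 1) (Y : ℕ → A) (hM0 : Y M = Y 0) (hM1 : Y (M + 1) = Y 1) :
    WithinB M (20 * M ^ 3) (P Y) (st Y (M - 1)) := by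
  have hcube : M * (20 * M ^ 2) = 20 * M ^ 3 := by ring
  rcases (by omega : M % 4 = 1 ∨ M % 4 = 3) with h | h
  · obtain ⟨n, hn⟩ : ∃ n, 0 + 4 * n + 1 = M := ⟨M / 4, by omega⟩
    have h1 := groups Y hM0 hM1 0 rfl n hn n le_rfl
    have e : 0 + 4 * n = M - 1 := by omega
    rw [e, st_zero] at h1
    refine withinB_mono h1 ?_
    rw [← hcube]
    exact Nat.mul_le_mul_right _ (by omega)
  · obtain ⟨n, hn⟩ : ∃ n, 3 + 4 * n = M := ⟨M / 4, by omega⟩
    have h0 := first_two Y hM0 hM1 n hn
    have h1 := groups Y hM0 hM1 2 rfl n (by omega) n le_rfl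
    have e : 2 + 4 * n = M - 1 := by omega
    rw [e] at h1
    rw [st_zero] at h0
    refine withinB_mono (withinB_trans h0 h1) ?_
    have : 20 * M ^ 2 + n * (20 * M ^ 2) = (n + 1) * (20 * M ^ 2) := by ring
    rw [this, ← hcube]
    exact Nat.mul_le_mul_right _ (by omega)

end Pool.Agent.Helper156.JumpChain
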