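import Mathlib
import Pool.Agent.Helper156.JumpBasics
import Pool.Agent.Helper156.JumpChain

/-!
# Centred enlargement of a regular polygon with an odd number of vertices
-/

namespace Pool.Agent.Helper156.JumpOdd

open Pool.Agent.Helper156.JumpBasics Pool.Agent.Helper156.JumpChain

section shift

variable {A : Type*} [AddCommGroup A]

/-- translate the first `M` pieces -/
def shift (M : ℕ) (c : ℕ → A) (x : A) (j : ℕ) : A := if j < M then c j + x else c j

lemma shift_zero (M : ℕ) (c : ℕ → A) : shift M c 0 = c := by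
  funext j; unfold shift; simp

lemma shift_shift (M : ℕ) (c : ℕ → A) (x y : A) : shift M (shift M c x) y = shift M c (x + y) := by
  funext j; unfold shift
  split_ifs <;> abel

lemma pair_all {M : ℕ} (c : ℕ → A) {a b : ℕ} (ha : a < M) (hb : b < M) (hab : a ≠ b) :
    WithinB M (2 * M + 2) c (shift M c ((c b - c a) + (c b - c a))) := by
  set x : A := (c b - c a) + (c b - c a) with hx
  set f : ℕ → ℕ → A := fun i j => if j < i ∧ j ≠ a ∧ j ≠ b then c j + x else c j with hf
  have h1 : ∀ i ≤ M, WithinB M (2 * i) c (f i) := by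
    intro i
    induction i with
    | zero =>
      intro _
      have : f 0 = c := by funext j; rw [hf]; simp
      rw [this]; exact withinB_refl _ _
    | succ i ih =>
      intro hi
      have h := ih (by omega)
      by_cases hi2 : i = a ∨ i = b
      · have : f (i + 1) = f i := by
          funext j
          rw [hf]
          simp only
          have : (j < i + 1 ∧ j ≠ a ∧ j ≠ b) ↔ (j < i ∧ j ≠ a ∧ j ≠ b) := by
            constructor
            · rintro ⟨h1, h2, h3⟩
              refine ⟨?_, h2, h3⟩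
              rcases hi2 with h4 | h4 <;> omega
            · rintro ⟨h1, h2, h3⟩
              exact ⟨by omega, h2, h3⟩
          simp only [this]
        rw [this]
        exact withinB_mono h (by omega)
      · rw [not_or] at hi2
        have hav : Av M (fun j => j = i) (f i) 1 (f i b - f i a) :=
          av_pair ha hb (fun hc => hi2.1 hc.symm) (fun hc => hi2.2 hc.symm)
        have h2 := translate (M := M) i (by omega) (by simp) hav
        have e1 : f i b = c b := by rw [hf]; simp
        have e2 : f i a = c a := by rw [hf]; simp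
        have e3 : f i i = c i := by rw [hf]; simp
        rw [e1, e2, e3, ← hx] at h2
        have e4 : Function.update (f i) i (c i + x) = f (i + 1) := by
          funext j
          by_cases hj : j = i
          · subst hj
            rw [Function.update_self, hf]
            simp only
            rw [if_pos ⟨by omega, hi2.1, hi2.2⟩]
          · rw [Function.update_of_ne hj, hf]
            simp only
            have : (j < i ∧ j ≠ a ∧ j ≠ b) ↔ (j < i + 1 ∧ j ≠ a ∧ j ≠ b) := by
              constructor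
              · rintro ⟨h1, h2, h3⟩; exact ⟨by omega, h2, h3⟩
              · rintro ⟨h1, h2, h3⟩; exact ⟨by omega, h2, h3⟩
            simp only [this]
        rw [e4] at h2
        exact withinB_mono (withinB_trans h h2) (by omega)
  have h2 := h1 M le_rfl
  have h3 := withinB_jump (M := M) (f M) a b ha hb hab
  have ea : f M a = c a := by rw [hf]; simp
  have eb : f M b = c b := by rw [hf]; simp
  rw [ea, eb] at h3
  set g := Function.update (f M) a (c b + c b - c a) with hg
  have h4 := withinB_jump (M := M) g b a hb ha hab.symm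
  have ga : g a = c b + c b - c a := by rw [hg, Function.update_self]
  have gb : g b = c b := by rw [hg, Function.update_of_ne hab.symm, eb]
  rw [ga, gb] at h4
  have e : Function.update g b (c b + c b - c a + (c b + c b - c a) - c b) = shift M c x := by
    funext j
    by_cases hjb : j = b
    · subst hjb
      rw [Function.update_self]
      unfold shift
      rw [if_pos hb, hx]
      abel
    · rw [Function.update_of_ne hjb, hg]
      by_cases hja : j = a
      · subst hja
        rw [Function.update_self]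
        unfold shift
        rw [if_pos ha, hx]
        abel
      · rw [Function.update_of_ne hja, hf]
        unfold shift
        simp only
        have : (j < M ∧ j ≠ a ∧ j ≠ b) ↔ j < M := ⟨fun h => h.1, fun h => ⟨h, hja, hjb⟩⟩
        simp only [this]
  rw [e] at h4
  exact withinB_mono (withinB_trans (withinB_trans h2 h3) h4) (by omega)

/-- translating the whole configuration -/
lemma shift_all {M : ℕ} {n : ℕ} {c : ℕ → A} {v : A} (h : Av M (fun _ => False) c n v) :
    WithinB M (n * (2 * M + 2)) c (shift M c (v + v)) := by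
  obtain ⟨L, hL, hL1, rfl⟩ := h
  refine withinB_mono (m := L.length * (2 * M + 2)) ?_ (Nat.mul_le_mul_right _ hL)
  clear hL
  revert c
  induction L with
  | nil =>
    intro c
    simp only [List.map_nil, List.sum_nil, add_zero, shift_zero]
    exact withinB_refl _ _
  | cons ab L ih =>
    intro c
    have h := hL1
    obtain ⟨a, b⟩ := ab
    have hab := h (a, b) (by simp)
    simp only at hab
    have h1 : WithinB M (2 * M + 2) c (shift M c ((c b - c a) + (c b - c a))) := by
      by_cases hne : a = b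
      · subst hne
        simp only [sub_self, add_zero, shift_zero]
        exact withinB_refl _ _
      · exact pair_all c hab.1 hab.2.1 hne
    set c1 := shift M c ((c b - c a) + (c b - c a)) with hc1
    have h2 := ih (fun cd hcd => h cd (by simp [hcd])) (c := c1)
    have e : (L.map (fun ab => c1 ab.2 - c1 ab.1)) = (L.map (fun ab => c ab.2 - c ab.1)) := by
      apply List.map_congr_left
      intro cd hcd
      have := h cd (by simp [hcd])
      rw [hc1]
      unfold shift
      rw [if_pos this.1, if_pos this.2.1]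
      abel
    rw [e, hc1, shift_shift] at h2
    have e2 : (c b - c a) + (c b - c a) + ((L.map (fun ab => c ab.2 - c ab.1)).sum +
        (L.map (fun ab => c ab.2 - c ab.1)).sum)
        = (((a, b) :: L).map (fun ab => c ab.2 - c ab.1)).sum +
          (((a, b) :: L).map (fun ab => c ab.2 - c ab.1)).sum := by
      rw [List.map_cons, List.sum_cons]
      abel
    rw [e2] at h2
    exact withinB_mono (withinB_trans h1 h2) (le_of_eq (by rw [List.length_cons]; ring))

end shift

section complex

open Complex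

variable {M : ℕ}

/-- the root of unity -/
noncomputable def zz (M : ℕ) : ℂ := exp (2 * Real.pi * I / M)

/-- its square root of odd order -/
noncomputable def et (M : ℕ) : ℂ := zz M ^ ((M + 1) / 2)

lemma zz_prim (hM : M ≠ 0) : IsPrimitiveRoot (zz M) M := Complex.isPrimitiveRoot_exp M hM

lemma et_sq (hM : M % 2 = 1) : et M ^ 2 = zz M := by
  unfold et
  rw [← pow_mul]
  have : (M + 1) / 2 * 2 = M + 1 := by omega
  rw [this, pow_succ, (zz_prim (by omega)).pow_eq_one, one_mul]

lemma et_pow (hM : M ≠ 0) : et M ^ M = 1 := by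
  unfold et
  rw [← pow_mul, mul_comm, pow_mul, (zz_prim hM).pow_eq_one, one_pow]

lemma inv_sum (hM : M % 2 = 1) (hM5 : 5 ≤ M) :
    (1 + zz M) * ∑ i ∈ Finset.range ((M - 1) / 2), zz M ^ (2 * i + 1) = -1 := by
  have h1 : ∀ s : ℕ, (1 + zz M) * ∑ i ∈ Finset.range s, zz M ^ (2 * i + 1)
      = zz M * ∑ j ∈ Finset.range (2 * s), zz M ^ j := by
    intro s
    induction s with
    | zero => simp
    | succ s ih =>
      rw [Finset.sum_range_succ, mul_add, ih]
      have : 2 * (s + 1) = 2 * s + 1 + 1 := by ring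
      rw [this, Finset.sum_range_succ, Finset.sum_range_succ]
      ring
  rw [h1]
  have h2 : 2 * ((M - 1) / 2) = M - 1 := by omega
  rw [h2]
  have h3 := (zz_prim (M := M) (by omega)).geom_sum_eq_zero (by omega)
  have h4 : M = (M - 1) + 1 := by omega
  have h5 : ∑ j ∈ Finset.range ((M - 1) + 1), zz M ^ j = 0 := by rwa [← h4]
  rw [Finset.sum_range_succ] at h5
  have h6 : zz M * zz M ^ (M - 1) = 1 := by
    rw [← pow_succ', ← h4]
    exact (zz_prim (M := M) (by omega)).pow_eq_one
  linear_combination (zz M) * h5 - h6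

lemma one_add_zz_ne (hM : M % 2 = 1) (hM5 : 5 ≤ M) : 1 + zz M ≠ 0 := by
  intro h
  have := inv_sum hM hM5
  rw [h, zero_mul] at this
  norm_num at this

lemma one_add_zz_sq_ne (hM : M % 2 = 1) (hM5 : 5 ≤ M) : 1 + zz M ^ 2 ≠ 0 := by
  intro h
  have h1 : zz M ^ 4 = 1 := by
    linear_combination (zz M ^ 2 - 1) * h
  have h2 := (zz_prim (M := M) (by omega)).dvd_of_pow_eq_one 4 h1
  have := Nat.le_of_dvd (by norm_num) h2
  omega

lemma one_add_et_ne (hM : M % 2 = 1) (hM5 : 5 ≤ M) : 1 + et M ≠ 0 := by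
  intro h
  have h1 : et M = -1 := by linear_combination h
  have h2 := et_sq hM
  rw [h1] at h2
  have h3 : zz M ^ 1 = 1 := by rw [pow_one, ← h2]; norm_num
  have h4 := (zz_prim (M := M) (by omega)).dvd_of_pow_eq_one 1 h3
  have := Nat.le_of_dvd (by norm_num) h4
  omega

/-- the ratio -/
noncomputable def kap (M : ℕ) : ℂ := (1 + zz M) ^ 3 / ((1 + zz M ^ 2) * (1 + et M) ^ 2)

/-- the offset -/
noncomputable def off (M : ℕ) : ℂ :=
  2 * kap M * (et M / (1 + zz M)) - 2 * (zz M / (1 + zz M ^ 2))

/-- first chain -/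
lemma first (hM : M % 2 = 1) (hM5 : 5 ≤ M) :
    Within (20 * M ^ 3) (fun j : Fin M => zz M ^ (j : ℕ))
      (fun j : Fin M => (1 + zz M) ^ 2 / (1 + zz M ^ 2) * zz M ^ (j : ℕ)
        - 2 * (zz M / (1 + zz M ^ 2))) := by
  have hne := one_add_zz_sq_ne hM hM5
  have hz := (zz_prim (M := M) (by omega)).pow_eq_one
  have h := chain hM (fun k => zz M ^ k / (1 + zz M ^ 2)) (by simp [hz]) (by simp [pow_succ, hz])
  have h2 := withinB_transfer (fun j : Fin M => (j : ℕ)) Fin.val_injective
    (fun i hi => ⟨⟨i, hi⟩, rfl⟩) h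
  have e1 : (fun j : Fin M => P (fun k => zz M ^ k / (1 + zz M ^ 2)) (j : ℕ))
      = fun j : Fin M => zz M ^ (j : ℕ) := by
    funext j
    unfold P
    simp only
    field_simp
    ring
  have e2 : (fun j : Fin M => st (fun k => zz M ^ k / (1 + zz M ^ 2)) (M - 1) (j : ℕ))
      = fun j : Fin M => (1 + zz M) ^ 2 / (1 + zz M ^ 2) * zz M ^ (j : ℕ)
        - 2 * (zz M / (1 + zz M ^ 2)) := by
    funext j
    unfold st
    rw [if_pos (by have := j.2; omega)]
    unfold P'
    simp only
    field_simp
    ring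
  rw [e1, e2] at h2
  exact h2

/-- second chain -/
lemma second (hM : M % 2 = 1) (hM5 : 5 ≤ M) :
    Within (20 * M ^ 3) (fun j : Fin M => kap M * zz M ^ (j : ℕ) + off M)
      (fun j : Fin M => (1 + zz M) ^ 2 / (1 + zz M ^ 2) * zz M ^ (j : ℕ)
        - 2 * (zz M / (1 + zz M ^ 2))) := by
  have hne := one_add_zz_sq_ne hM hM5
  have hne1 := one_add_zz_ne hM hM5
  have hne2 := one_add_et_ne hM hM5
  have hM0 : M ≠ 0 := by omega
  have hz := et_pow (M := M) hM0
  have hsq := et_sq hM
  have h := chain hM (fun k => kap M * et M ^ k / (1 + zz M) + off M / 2) (by simp [hz])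
    (by simp [pow_succ, hz])
  have hinj : Function.Injective (fun j : Fin M => (2 * (j : ℕ)) % M) := by
    intro a b hab
    simp only at hab
    have ha := a.2
    have hb := b.2
    apply Fin.ext
    by_contra hne
    have h1 : (2 * (a : ℕ)) ≡ 2 * b [MOD M] := hab
    have h2 : Nat.Coprime M 2 := by
      rw [Nat.coprime_comm]
      exact (Nat.coprime_two_left).mpr (Nat.odd_iff.mpr hM)
    have h3 : (a : ℕ) ≡ b [MOD M] := Nat.ModEq.cancel_left_of_coprime (by simpa using h2) h1
    have h4 : (a : ℕ) % M = b % M := h3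
    rw [Nat.mod_eq_of_lt ha, Nat.mod_eq_of_lt hb] at h4
    exact hne h4
  have hsurj : ∀ i < M, ∃ j : Fin M, (fun j : Fin M => (2 * (j : ℕ)) % M) j = i := by
    intro i hi
    refine ⟨⟨((M + 1) / 2 * i) % M, Nat.mod_lt _ (by omega)⟩, ?_⟩
    simp only
    rw [Nat.mul_mod_mod, ← mul_assoc]
    have : 2 * ((M + 1) / 2) = M + 1 := by omega
    rw [this, add_mul, one_mul, Nat.mul_add_mod, Nat.mod_eq_of_lt hi]
  have h2 := withinB_transfer _ hinj hsurj h
  have hpow : ∀ j : Fin M, et M ^ ((2 * (j : ℕ)) % M) = zz M ^ (j : ℕ) := by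
    intro j
    rw [← pow_eq_pow_mod (2 * (j : ℕ)) hz, pow_mul, hsq]
  have e1 : (fun j : Fin M => P (fun k => kap M * et M ^ k / (1 + zz M) + off M / 2)
      ((2 * (j : ℕ)) % M)) = fun j : Fin M => kap M * zz M ^ (j : ℕ) + off M := by
    funext j
    unfold P
    simp only
    rw [pow_add, hpow, hsq]
    field_simp
    ring
  have e2 : (fun j : Fin M => st (fun k => kap M * et M ^ k / (1 + zz M) + off M / 2) (M - 1)
      ((2 * (j : ℕ)) % M)) = fun j : Fin M => (1 + zz M) ^ 2 / (1 + zz M ^ 2) * zz M ^ (j : ℕ)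
        - 2 * (zz M / (1 + zz M ^ 2)) := by
    funext j
    unfold st
    rw [if_pos (by have := Nat.mod_lt (2 * (j : ℕ)) (show 0 < M by omega); omega)]
    unfold P'
    simp only
    rw [pow_add, pow_add, hpow, hsq, pow_one]
    have hk : kap M * (1 + et M) ^ 2 / (1 + zz M) = (1 + zz M) ^ 2 / (1 + zz M ^ 2) := by
      unfold kap
      field_simp
    have : kap M * zz M ^ (j : ℕ) / (1 + zz M) + off M / 2 +
        (kap M * (zz M ^ (j : ℕ) * et M) / (1 + zz M) + off M / 2 +
          (kap M * (zz M ^ (j : ℕ) * et M) / (1 + zz M) + off M / 2)) +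
        (kap M * (zz M ^ (j : ℕ) * zz M) / (1 + zz M) + off M / 2) -
        (kap M * et M / (1 + zz M) + off M / 2 + (kap M * et M / (1 + zz M) + off M / 2))
        = (kap M * (1 + 2 * et M + zz M) / (1 + zz M)) * zz M ^ (j : ℕ)
          + off M - 2 * kap M * (et M / (1 + zz M)) := by ring
    rw [this]
    have h3 : 1 + 2 * et M + zz M = (1 + et M) ^ 2 := by rw [← hsq]; ring
    rw [h3, hk]
    unfold off
    ring
  rw [e1, e2] at h2
  exact h2

/-- third part: translation back to the centre -/
lemma third (hM : M % 2 = 1) (hM5 : 5 ≤ M) :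
    Within (2 * ((M - 1) / 2) ^ 3 * (2 * M + 2)) (fun j : Fin M => kap M * zz M ^ (j : ℕ) + off M)
      (fun j : Fin M => kap M * zz M ^ (j : ℕ)) := by
  have hne := one_add_zz_sq_ne hM hM5
  have hne1 := one_add_zz_ne hM hM5
  have hne2 := one_add_et_ne hM hM5
  have hM0 : M ≠ 0 := by omega
  have hsq := et_sq hM
  have hz := (zz_prim hM0).pow_eq_one
  set c : ℕ → ℂ := fun j => kap M * zz M ^ j + off M with hc
  set G : ℕ → ℂ → Prop := fun n x => ∀ k : ℕ, Av M (fun _ => False) c n (x * et M ^ k) with hG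
  have hpos : ∀ k : ℕ, ∃ j < M, kap M * et M ^ k + off M = c j := by
    intro k
    refine ⟨((M + 1) / 2 * k) % M, Nat.mod_lt _ (by omega), ?_⟩
    rw [hc]
    simp only
    rw [← pow_eq_pow_mod _ hz, pow_mul]
    rfl
  have g0 : G 1 (kap M * (1 - et M)) := by
    intro k
    obtain ⟨a, ha, ea⟩ := hpos k
    obtain ⟨b, hb, eb⟩ := hpos (k + 1)
    have h := av_pair (M := M) (F := fun _ => False) (p := c) hb ha (by simp) (by simp)
    rw [← ea, ← eb] at h
    have e : kap M * et M ^ k + off M - (kap M * et M ^ (k + 1) + off M)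
        = kap M * (1 - et M) * et M ^ k := by ring
    rwa [e] at h
  have g1 : ∀ n x, G n x → G (n + n) (x * (1 - et M ^ 3)) := by
    intro n x h k
    have h1 := av_sub (h k) (h (k + 3))
    have e : x * et M ^ k - x * et M ^ (k + 3) = x * (1 - et M ^ 3) * et M ^ k := by ring
    rwa [e] at h1
  have g2 : ∀ n x, G n x → G (((M - 1) / 2) * n) (x / (1 + zz M)) := by
    intro n x h k
    have h1 : ∀ s : ℕ, Av M (fun _ => False) c (s * n)
        (-(x * et M ^ k * ∑ i ∈ Finset.range s, zz M ^ (2 * i + 1))) := by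
      intro s
      induction s with
      | zero => simpa using av_zero M _ c 0
      | succ s ih =>
        have h2 := av_sub ih (h (k + 2 * (2 * s + 1)))
        have e : -(x * et M ^ k * ∑ i ∈ Finset.range s, zz M ^ (2 * i + 1)) -
            x * et M ^ (k + 2 * (2 * s + 1))
            = -(x * et M ^ k * ∑ i ∈ Finset.range (s + 1), zz M ^ (2 * i + 1)) := by
          rw [Finset.sum_range_succ, pow_add, pow_mul, hsq]
          ring
        rw [e] at h2
        exact av_mono h2 (le_of_eq (by ring))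
    have h2 := h1 ((M - 1) / 2)
    have h3 := inv_sum hM hM5
    have h4 : ∑ i ∈ Finset.range ((M - 1) / 2), zz M ^ (2 * i + 1) = -(1 / (1 + zz M)) := by
      field_simp
      linear_combination h3
    rw [h4] at h2
    have e : -(x * et M ^ k * -(1 / (1 + zz M))) = x / (1 + zz M) * et M ^ k := by ring
    rwa [e] at h2
  have g3 := g2 _ _ (g2 _ _ (g2 _ _ (g1 _ _ g0)))
  have h5 := av_neg (g3 1)
  have e1 : -(kap M * (1 - et M) * (1 - et M ^ 3) / (1 + zz M) / (1 + zz M) / (1 + zz M) * et M ^ 1)
      = -(off M) / 2 := by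
    unfold off kap
    have hz2 : zz M = et M ^ 2 := hsq.symm
    rw [hz2] at hne hne1 ⊢
    field_simp
    ring
  rw [e1] at h5
  have h6 := shift_all h5
  have h7 := withinB_transfer (fun j : Fin M => (j : ℕ)) Fin.val_injective
    (fun i hi => ⟨⟨i, hi⟩, rfl⟩) h6
  have e2 : (fun j : Fin M => shift M c (-(off M) / 2 + -(off M) / 2) (j : ℕ))
      = fun j : Fin M => kap M * zz M ^ (j : ℕ) := by
    funext j
    unfold shift
    rw [if_pos j.2, hc]
    ring
  rw [e2] at h7
  obtain ⟨m, hm, hs⟩ := h7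
  exact ⟨m, hm.trans (le_of_eq (by ring)), hs⟩

/-- the ratio exceeds one -/
lemma kap_norm (hM : M % 2 = 1) (hM5 : 5 ≤ M) : 1 < ‖kap M‖ := by
  have hne := one_add_zz_sq_ne hM hM5
  have hne2 := one_add_et_ne hM hM5
  have hMr : (5 : ℝ) ≤ M := by exact_mod_cast hM5
  have hMpos : (0 : ℝ) < M := by linarith
  have hpi := Real.pi_pos
  have hz : zz M = exp ((2 * Real.pi / M : ℝ) * I) := by
    unfold zz; congr 1; push_cast; ring
  have het : et M = exp ((Real.pi / M + Real.pi : ℝ) * I) := by
    unfold et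
    rw [hz, ← Complex.exp_nat_mul]
    congr 1
    have h2 : (((M + 1) / 2 : ℕ) : ℂ) * 2 = M + 1 := by
      have : (M + 1) / 2 * 2 = M + 1 := by omega
      exact_mod_cast this
    have hMc : (M : ℂ) ≠ 0 := by exact_mod_cast (by omega : M ≠ 0)
    push_cast
    field_simp
    linear_combination h2
  have hn1 : ‖1 + zz M‖ ^ 2 = 2 + 2 * Real.cos (2 * Real.pi / M) := by
    rw [← Complex.normSq_eq_norm_sq, hz, Complex.exp_mul_I, Complex.normSq_apply]
    simp only [Complex.add_re, Complex.one_re, Complex.add_im, Complex.one_im, Complex.mul_re,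
      Complex.mul_im, Complex.I_re, Complex.I_im, ← Complex.ofReal_cos, ← Complex.ofReal_sin,
      Complex.ofReal_re, Complex.ofReal_im]
    nlinarith [Real.sin_sq_add_cos_sq (2 * Real.pi / M)]
  have hn2 : ‖1 + et M‖ ^ 2 = 2 - 2 * Real.cos (Real.pi / M) := by
    rw [← Complex.normSq_eq_norm_sq, het, Complex.exp_mul_I, Complex.normSq_apply]
    simp only [Complex.add_re, Complex.one_re, Complex.add_im, Complex.one_im, Complex.mul_re,
      Complex.mul_im, Complex.I_re, Complex.I_im, ← Complex.ofReal_cos, ← Complex.ofReal_sin,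
      Complex.ofReal_re, Complex.ofReal_im, Real.cos_add_pi, Real.sin_add_pi]
    nlinarith [Real.sin_sq_add_cos_sq (Real.pi / M)]
  have hn3 : ‖1 + zz M ^ 2‖ ≤ 2 := by
    calc ‖1 + zz M ^ 2‖ ≤ ‖(1 : ℂ)‖ + ‖zz M ^ 2‖ := norm_add_le _ _
      _ = 2 := by
        rw [norm_pow, hz, Complex.norm_exp_ofReal_mul_I]; norm_num
  have hc1 : 0 ≤ Real.cos (2 * Real.pi / M) := by
    apply Real.cos_nonneg_of_mem_Icc
    constructor
    · have : 0 ≤ 2 * Real.pi / M := by positivity
      linarith
    · rw [div_le_iff₀ hMpos]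
      nlinarith
  have hc2 : (0.7 : ℝ) ≤ Real.cos (Real.pi / M) := by
    have h1 : Real.cos (Real.pi / 4) ≤ Real.cos (Real.pi / M) := by
      apply Real.cos_le_cos_of_nonneg_of_le_pi
      · positivity
      · linarith
      · apply div_le_div_of_nonneg_left hpi.le (by norm_num) (by linarith)
    rw [Real.cos_pi_div_four] at h1
    have h2 : (1.4 : ℝ) ≤ Real.sqrt 2 := by
      apply Real.le_sqrt_of_sq_le; norm_num
    linarith
  have hx : (1.4 : ℝ) ≤ ‖1 + zz M‖ := by
    by_contra hlt
    push Not at hlt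
    have h0 := norm_nonneg (1 + zz M)
    nlinarith
  have hy : ‖1 + et M‖ ^ 2 ≤ 0.6 := by rw [hn2]; linarith
  have hypos : 0 < ‖1 + et M‖ := norm_pos_iff.mpr hne2
  have hwpos : 0 < ‖1 + zz M ^ 2‖ := norm_pos_iff.mpr hne
  unfold kap
  rw [norm_div, norm_mul, norm_pow, norm_pow, one_lt_div (by positivity)]
  have h1 : ‖1 + zz M ^ 2‖ * ‖1 + et M‖ ^ 2 ≤ 2 * 0.6 := by gcongr
  have h2 : (2 : ℝ) ≤ ‖1 + zz M‖ ^ 2 := by rw [hn1]; linarith
  have h3 : (2 : ℝ) * 1.4 ≤ ‖1 + zz M‖ ^ 3 := by
    have : ‖1 + zz M‖ ^ 3 = ‖1 + zz M‖ ^ 2 * ‖1 + zz M‖ := by ring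
    rw [this]
    gcongr
  linarith

/-- **Centred enlargement of the odd polygon.** -/
theorem odd_centred (hM : M % 2 = 1) (hM5 : 5 ≤ M) :
    ∃ u : ℂ, 1 < ‖u‖ ∧ Within (9 * M ^ 4) (fun j : Fin M => zz M ^ (j : ℕ))
      (fun j : Fin M => u * zz M ^ (j : ℕ)) := by
  refine ⟨kap M, kap_norm hM hM5, ?_⟩
  have h := within_trans (within_trans (first hM hM5) (within_symm (second hM hM5)))
    (third hM hM5)
  refine within_mono h ?_
  obtain ⟨s, hs⟩ : ∃ s, M = 2 * s + 1 := ⟨M / 2, by omega⟩
  have hs2 : (M - 1) / 2 = s := by omega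
  rw [hs2]
  have h1 : 2 * s ≤ M := by omega
  have h2 : 8 * s ^ 3 ≤ M ^ 3 := by
    have := Nat.pow_le_pow_left h1 3
    calc 8 * s ^ 3 = (2 * s) ^ 3 := by ring
      _ ≤ M ^ 3 := this
  have h3 : 5 * M ^ 3 ≤ M ^ 4 := by
    calc 5 * M ^ 3 ≤ M * M ^ 3 := Nat.mul_le_mul_right _ hM5
      _ = M ^ 4 := by ring
  have h4 : 2 * s ^ 3 * (2 * M + 2) ≤ M ^ 4 := by
    have h5 : 2 * M + 2 ≤ 4 * M := by omega
    calc 2 * s ^ 3 * (2 * M + 2) ≤ 2 * s ^ 3 * (4 * M) := Nat.mul_le_mul_left _ h5
      _ = (8 * s ^ 3) * M := by ring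
      _ ≤ M ^ 3 * M := Nat.mul_le_mul_right _ h2
      _ = M ^ 4 := by ring
  omega

end complex

end Pool.Agent.Helper156.JumpOdd
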