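import Mathlib
import Pool.Agent.Helper156.JumpBasics
import Pool.Agent.Helper156.JumpOdd

/-!
# Enlarging regular polygons by point-reflection moves
-/

namespace Pool.Agent.Helper156.JumpPoly

open Pool.Agent.Helper156.JumpBasics Pool.Agent.Helper156.JumpOdd

/-- The regular `N`-gon: piece `j` stands at `exp (2 π i j / N)`. -/
noncomputable def polygon (N : ℕ) (j : Fin N) : ℂ :=
  Complex.exp (2 * Real.pi * Complex.I * (j : ℕ) / N)

/-- The pieces stand on the vertex set of a regular `N`-gon (with centre `c`) which is larger than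
the starting one: its vertices are the points `c + u * v`, `v` a vertex of `polygon N`, for some
complex number `u` with `|u| > 1`. -/
def OnLargerPolygon (N : ℕ) (q : Fin N → ℂ) : Prop :=
  ∃ c u : ℂ, 1 < ‖u‖ ∧ Set.range q = (fun v => c + u * v) '' Set.range (polygon N)

/-- Some sequence of exactly `n` legal moves leads from the regular `N`-gon to a larger one. -/
def EnlargedBy (N n : ℕ) : Prop := ∃ q, Steps n (polygon N) q ∧ OnLargerPolygon N q

/-- a centred enlargement within `n` moves -/
def Centred (M n : ℕ) : Prop :=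
  ∃ u : ℂ, 1 < ‖u‖ ∧ Within n (fun j : Fin M => zz M ^ (j : ℕ)) (fun j : Fin M => u * zz M ^ (j : ℕ))

lemma polygon_eq (N : ℕ) (j : Fin N) : polygon N j = zz N ^ (j : ℕ) := by
  unfold polygon zz
  rw [← Complex.exp_nat_mul]
  congr 1
  ring

/-! ## plans checked by computation -/

section plan

variable {ι A : Type*} [AddCommGroup A] [DecidableEq ι]

lemma reach_pair (p : ι → A) (i a b : ι) (ha : a ≠ i) (hb : b ≠ i) :
    Within 2 p (Function.update p i (p i + ((p b - p a) + (p b - p a)))) := by
  have h1 : Jump p (Function.update p i (p a + p a - p i)) :=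
    ⟨i, a, ha.symm, by simp, fun k hk => by simp [hk]⟩
  set p1 := Function.update p i (p a + p a - p i) with hp1
  have h2 : Jump p1 (Function.update p1 i (p1 b + p1 b - p1 i)) :=
    ⟨i, b, hb.symm, by simp, fun k hk => by simp [hk]⟩
  have e : Function.update p1 i (p1 b + p1 b - p1 i)
      = Function.update p i (p i + ((p b - p a) + (p b - p a))) := by
    rw [hp1, Function.update_idem, Function.update_of_ne hb, Function.update_self]
    congr 1
    abel
  rw [e] at h2
  exact within_trans (within_jump h1) (within_jump h2)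

/-- doubled differences along a list of pairs -/
def disp (p : ι → A) (L : List (ι × ι)) : A :=
  (L.map (fun ab => (p ab.2 - p ab.1) + (p ab.2 - p ab.1))).sum

lemma reach_list (i : ι) (L : List (ι × ι)) : ∀ p : ι → A, (∀ ab ∈ L, ab.1 ≠ i ∧ ab.2 ≠ i) →
    Within (2 * L.length) p (Function.update p i (p i + disp p L)) := by
  induction L with
  | nil =>
    intro p _
    unfold disp
    simp only [List.map_nil, List.sum_nil, add_zero, Function.update_eq_self]
    exact within_mono (within_refl _) (by simp)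
  | cons ab L ih =>
    intro p h
    have hab := h ab (by simp)
    have h1 := reach_pair p i ab.1 ab.2 hab.1 hab.2
    set p' := Function.update p i (p i + ((p ab.2 - p ab.1) + (p ab.2 - p ab.1))) with hp'
    have h2 := ih p' (fun cd hcd => h cd (by simp [hcd]))
    have e : disp p' L = disp p L := by
      unfold disp
      congr 1
      apply List.map_congr_left
      intro cd hcd
      have := h cd (by simp [hcd])
      rw [hp', Function.update_of_ne this.1, Function.update_of_ne this.2]
    have e2 : Function.update p' i (p' i + disp p' L)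
        = Function.update p i (p i + disp p (ab :: L)) := by
      rw [e, hp', Function.update_idem, Function.update_self]
      congr 1
      unfold disp
      rw [List.map_cons, List.sum_cons]
      abel
    rw [e2] at h2
    exact within_mono (within_trans h1 h2) (by rw [List.length_cons]; omega)

/-- current positions when the pieces in `S` have been moved from `P` to `Q` -/
def cur (P Q : ι → A) (S : List ι) (j : ι) : A := if j ∈ S then Q j else P j

/-- check of a plan -/
def check [DecidableEq A] (P Q : ι → A) : List (ι × List (ι × ι)) → List ι → Bool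
  | [], _ => true
  | (i, L) :: r, S => decide (i ∉ S) && L.all (fun ab => decide (ab.1 ≠ i) && decide (ab.2 ≠ i)) &&
      decide (Q i = P i + disp (cur P Q S) L) && check P Q r (i :: S)

/-- pieces moved by a plan -/
def moved : List (ι × List (ι × ι)) → List ι → List ι
  | [], S => S
  | (i, _) :: r, S => moved r (i :: S)

/-- number of moves of a plan -/
def cost : List (ι × List (ι × ι)) → ℕ
  | [] => 0
  | (_, L) :: r => 2 * L.length + cost r

lemma reach_plan [DecidableEq A] (P Q : ι → A) (plan : List (ι × List (ι × ι))) :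
    ∀ S : List ι, check P Q plan S = true →
      Within (cost plan) (cur P Q S) (cur P Q (moved plan S)) := by
  induction plan with
  | nil => intro S _; exact within_refl _
  | cons iL r ih =>
    obtain ⟨i, L⟩ := iL
    intro S h
    unfold check at h
    simp only [Bool.and_eq_true, decide_eq_true_eq, List.all_eq_true] at h
    obtain ⟨⟨⟨h1, h2⟩, h3⟩, h4⟩ := h
    have h5 := reach_list i L (cur P Q S) h2
    have e : Function.update (cur P Q S) i (cur P Q S i + disp (cur P Q S) L)
        = cur P Q (i :: S) := by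
      have : cur P Q S i = P i := by simp [cur, h1]
      rw [this, ← h3]
      funext j
      by_cases hj : j = i
      · subst hj; simp [cur]
      · rw [Function.update_of_ne hj]; simp [cur, hj]
    rw [e] at h5
    exact within_trans h5 (ih _ h4)

end plan

/-- integer vectors standing for `x0 + x1 z + x2 z^2 + x3 z^3` -/
abbrev Z4 := Fin 4 → ℤ

/-- multiplication by `z` if `z^4 = -1` -/
def mul8 (x : Z4) : Z4 := ![-x 3, x 0, x 1, x 2]

/-- multiplication by `z` if `z^4 = z^2 - 1` -/
def mul12 (x : Z4) : Z4 := ![-x 3, x 0, x 1 + x 3, x 2]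

/-- the octagon -/
def oct (j : Fin 8) : Z4 := mul8^[j.val] ![1, 0, 0, 0]

/-- the dodecagon -/
def dodec (j : Fin 12) : Z4 := mul12^[j.val] ![1, 0, 0, 0]

/-- target: multiplication by `-3 - 2(z + z^7)` -/
def octT (j : Fin 8) : Z4 :=
  -(3 : ℤ) • oct j - (2 : ℤ) • (mul8 (oct j) + mul8^[7] (oct j))

/-- target: multiplication by `7 + 4(z + z^11)` -/
def dodecT (j : Fin 12) : Z4 :=
  (7 : ℤ) • dodec j + (4 : ℤ) • (mul12 (dodec j) + mul12^[11] (dodec j))

/-- plan for the octagon -/
def octPlan : List (Fin 8 × List (Fin 8 × Fin 8)) :=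
  [(0, [(1, 4), (7, 4)]), (2, [(1, 6), (3, 6)]), (5, [(4, 1), (6, 1)]), (4, [(6, 2), (7, 5)]),
  (3, [(5, 1), (6, 4)]), (1, [(6, 0), (7, 3)]), (6, [(2, 1), (2, 3)]), (7, [(3, 2), (3, 4)])]

/-- plan for the dodecagon -/
def dodecPlan : List (Fin 12 × List (Fin 12 × Fin 12)) :=
  [(6, [(0, 3), (0, 5), (0, 7), (1, 7)]), (10, [(1, 9), (4, 11), (4, 11), (4, 11)]),
  (5, [(0, 3), (0, 4), (11, 4), (11, 7)]), (2, [(4, 5), (6, 11)]), (3, [(0, 5), (6, 7)]),
  (0, [(3, 2), (9, 4)]), (8, [(5, 4), (11, 6)]), (7, [(0, 1), (3, 2), (4, 9)]),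
  (1, [(0, 3), (6, 4), (11, 10)]), (11, [(2, 3), (2, 3), (4, 9), (7, 10)]),
  (9, [(2, 3), (2, 3), (2, 3), (6, 10)]), (4, [(1, 3), (9, 10), (9, 10), (11, 10)])]

lemma oct_check : check oct octT octPlan [] = true := by decide +kernel

lemma oct_moved : ∀ j : Fin 8, j ∈ moved octPlan [] := by decide +kernel

lemma oct_cost : cost octPlan = 32 := by decide +kernel

lemma dodec_check : check dodec dodecT dodecPlan [] = true := by decide +kernel

lemma dodec_moved : ∀ j : Fin 12, j ∈ moved dodecPlan [] := by decide +kernel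

lemma dodec_cost : cost dodecPlan = 76 := by decide +kernel

/-- evaluation at a complex number -/
noncomputable def ev (z : ℂ) : Z4 →+ ℂ where
  toFun x := (x 0 : ℂ) + x 1 * z + x 2 * z ^ 2 + x 3 * z ^ 3
  map_zero' := by simp
  map_add' x y := by simp; ring

lemma ev_apply (z : ℂ) (x : Z4) : ev z x = (x 0 : ℂ) + x 1 * z + x 2 * z ^ 2 + x 3 * z ^ 3 := rfl

lemma ev_mul8 (z : ℂ) (hz : z ^ 4 = -1) (x : Z4) : ev z (mul8 x) = z * ev z x := by
  rw [ev_apply, ev_apply]
  unfold mul8
  simp only [Matrix.cons_val_zero, Matrix.cons_val_one, Matrix.cons_val]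
  push_cast
  linear_combination (-(x 3 : ℂ)) * hz

lemma ev_mul12 (z : ℂ) (hz : z ^ 4 = z ^ 2 - 1) (x : Z4) : ev z (mul12 x) = z * ev z x := by
  rw [ev_apply, ev_apply]
  unfold mul12
  simp only [Matrix.cons_val_zero, Matrix.cons_val_one, Matrix.cons_val]
  push_cast
  linear_combination (-(x 3 : ℂ)) * hz

lemma ev_iter (z : ℂ) (f : Z4 → Z4) (hf : ∀ x, ev z (f x) = z * ev z x) (k : ℕ) (x : Z4) :
    ev z (f^[k] x) = z ^ k * ev z x := by
  induction k with
  | zero => simp
  | succ k ih => rw [Function.iterate_succ_apply', hf, ih, pow_succ]; ring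

lemma ev_one (z : ℂ) : ev z ![1, 0, 0, 0] = 1 := by
  rw [ev_apply]; simp

lemma within_of_plan {M : ℕ} (V T : Fin M → Z4) (plan : List (Fin M × List (Fin M × Fin M)))
    (hc : check V T plan [] = true) (hm : ∀ j, j ∈ moved plan []) (z : ℂ) :
    Within (cost plan) (fun j => ev z (V j)) (fun j => ev z (T j)) := by
  have := reach_plan V T plan [] hc
  have e1 : cur V T [] = V := by funext j; simp [cur]
  have e2 : cur V T (moved plan []) = T := by funext j; simp [cur, hm j]
  rw [e1, e2] at this
  exact within_map (ev z) this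

lemma zz8 : zz 8 ^ 4 = -1 ∧ zz 8 + zz 8 ^ 7 = (Real.sqrt 2 : ℝ) := by
  have h1 : zz 8 = Complex.exp ((Real.pi / 4 : ℝ) * Complex.I) := by
    unfold zz; congr 1; push_cast; ring
  have h8 : zz 8 ^ 8 = 1 := (zz_prim (by norm_num)).pow_eq_one
  have hc : zz 8 = (Real.sqrt 2 / 2 : ℝ) + (Real.sqrt 2 / 2 : ℝ) * Complex.I := by
    rw [h1, Complex.exp_mul_I, ← Complex.ofReal_cos, ← Complex.ofReal_sin, Real.cos_pi_div_four,
      Real.sin_pi_div_four]
  have hs : ((Real.sqrt 2 : ℝ) : ℂ) ^ 2 = 2 := by
    rw [← Complex.ofReal_pow, Real.sq_sqrt (by norm_num)]; norm_num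
  have h2 : zz 8 ^ 2 = Complex.I := by
    rw [hc]
    push_cast
    linear_combination (1 / 4 + Complex.I / 2 + Complex.I ^ 2 / 4) * hs + (1 / 2) * Complex.I_sq
  have h4 : zz 8 ^ 4 = -1 := by
    have : zz 8 ^ 4 = (zz 8 ^ 2) ^ 2 := by ring
    rw [this, h2, Complex.I_sq]
  refine ⟨h4, ?_⟩
  have h7 : zz 8 ^ 7 = -(Complex.I * zz 8) := by
    have : zz 8 ^ 7 = zz 8 ^ 4 * (zz 8 ^ 2 * zz 8) := by ring
    rw [this, h4, h2]; ring
  rw [h7, hc]
  push_cast
  linear_combination (-(Real.sqrt 2 : ℂ) / 2) * Complex.I_sq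

lemma centred8 : Centred 8 32 := by
  refine ⟨-3 - 2 * (zz 8 + zz 8 ^ 7), ?_, ?_⟩
  · rw [zz8.2]
    have : (-3 - 2 * ((Real.sqrt 2 : ℝ) : ℂ)) = ((-(3 + 2 * Real.sqrt 2) : ℝ) : ℂ) := by
      push_cast; ring
    rw [this, Complex.norm_real, Real.norm_eq_abs, abs_neg, abs_of_nonneg (by positivity)]
    have := Real.sqrt_nonneg 2
    linarith
  · have h := within_of_plan oct octT octPlan oct_check oct_moved (zz 8)
    rw [oct_cost] at h
    have hm := ev_mul8 (zz 8) zz8.1
    have e1 : ∀ j : Fin 8, ev (zz 8) (oct j) = zz 8 ^ (j : ℕ) := by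
      intro j
      unfold oct
      rw [ev_iter _ _ hm, ev_one, mul_one]
    have e2 : ∀ j : Fin 8, ev (zz 8) (octT j)
        = (-3 - 2 * (zz 8 + zz 8 ^ 7)) * zz 8 ^ (j : ℕ) := by
      intro j
      unfold octT
      rw [map_sub, map_zsmul, map_zsmul, map_add, ev_iter _ _ hm, hm, e1]
      simp only [zsmul_eq_mul]
      push_cast
      ring
    simp only [e1, e2] at h
    exact h

lemma zz12 : zz 12 ^ 4 = zz 12 ^ 2 - 1 ∧ zz 12 + zz 12 ^ 11 = (Real.sqrt 3 : ℝ) := by
  have h1 : zz 12 = Complex.exp ((Real.pi / 6 : ℝ) * Complex.I) := by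
    unfold zz; congr 1; push_cast; ring
  have hc : zz 12 = (Real.sqrt 3 / 2 : ℝ) + (1 / 2 : ℝ) * Complex.I := by
    rw [h1, Complex.exp_mul_I, ← Complex.ofReal_cos, ← Complex.ofReal_sin, Real.cos_pi_div_six,
      Real.sin_pi_div_six]
  have hs : ((Real.sqrt 3 : ℝ) : ℂ) ^ 2 = 3 := by
    rw [← Complex.ofReal_pow, Real.sq_sqrt (by norm_num)]; norm_num
  have h2 : zz 12 ^ 2 = 1 / 2 + (Real.sqrt 3 / 2 : ℝ) * Complex.I := by
    rw [hc]
    push_cast
    linear_combination (1 / 4) * hs + (1 / 4) * Complex.I_sq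
  have h4 : zz 12 ^ 4 = zz 12 ^ 2 - 1 := by
    have : zz 12 ^ 4 = (zz 12 ^ 2) ^ 2 := by ring
    rw [this, h2]
    push_cast
    linear_combination (1 / 4) * Complex.I ^ 2 * hs + (3 / 4) * Complex.I_sq
  refine ⟨h4, ?_⟩
  have h6 : zz 12 ^ 6 = -1 := by linear_combination (zz 12 ^ 2 + 1) * h4
  have h3 : zz 12 ^ 3 = Complex.I := by
    have : zz 12 ^ 3 = zz 12 ^ 2 * zz 12 := by ring
    rw [this, h2, hc]
    push_cast
    linear_combination (1 / 4) * Complex.I * hs + ((Real.sqrt 3 : ℂ) / 4) * Complex.I_sq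
  have h11 : zz 12 ^ 11 = -(Complex.I * zz 12 ^ 2) := by
    have : zz 12 ^ 11 = zz 12 ^ 6 * (zz 12 ^ 3 * zz 12 ^ 2) := by ring
    rw [this, h6, h3]; ring
  rw [h11, h2, hc]
  push_cast
  linear_combination (-(Real.sqrt 3 : ℂ) / 2) * Complex.I_sq

lemma centred12 : Centred 12 76 := by
  refine ⟨7 + 4 * (zz 12 + zz 12 ^ 11), ?_, ?_⟩
  · rw [zz12.2]
    have : (7 + 4 * ((Real.sqrt 3 : ℝ) : ℂ)) = ((7 + 4 * Real.sqrt 3 : ℝ) : ℂ) := by
      push_cast; ring
    rw [this, Complex.norm_real, Real.norm_eq_abs, abs_of_nonneg (by positivity)]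
    have := Real.sqrt_nonneg 3
    linarith
  · have h := within_of_plan dodec dodecT dodecPlan dodec_check dodec_moved (zz 12)
    rw [dodec_cost] at h
    have hm := ev_mul12 (zz 12) zz12.1
    have e1 : ∀ j : Fin 12, ev (zz 12) (dodec j) = zz 12 ^ (j : ℕ) := by
      intro j
      unfold dodec
      rw [ev_iter _ _ hm, ev_one, mul_one]
    have e2 : ∀ j : Fin 12, ev (zz 12) (dodecT j)
        = (7 + 4 * (zz 12 + zz 12 ^ 11)) * zz 12 ^ (j : ℕ) := by
      intro j
      unfold dodecT
      rw [map_add, map_zsmul, map_zsmul, map_add, ev_iter _ _ hm, hm, e1]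
      simp only [zsmul_eq_mul]
      push_cast
      ring
    simp only [e1, e2] at h
    exact h

/-! ## from `M` to multiples of `M` -/

lemma enlarged_of_centred {M n d : ℕ} (hM : 0 < M) (hd : 0 < d) (h : Centred M n) :
    ∃ m ≤ d * n, EnlargedBy (d * M) m := by
  obtain ⟨u, hu, hw⟩ := h
  set N := d * M with hN
  have hN0 : 0 < N := Nat.mul_pos hd hM
  have hzN : zz N ^ d = zz M := by
    unfold zz
    rw [← Complex.exp_nat_mul]
    congr 1
    have h1 : (d : ℂ) ≠ 0 := by exact_mod_cast hd.ne'
    have h2 : (M : ℂ) ≠ 0 := by exact_mod_cast hM.ne'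
    rw [hN]
    push_cast
    field_simp
  -- embedding of the k-th coset
  have hlt : ∀ (k : ℕ) (j : Fin M), k < d → k + d * (j : ℕ) < N := by
    intro k j hk
    have := j.2
    calc k + d * (j : ℕ) < d + d * (j : ℕ) := by omega
      _ = d * ((j : ℕ) + 1) := by ring
      _ ≤ d * M := Nat.mul_le_mul_left _ (by omega)
  have key : ∀ k ≤ d, Within (k * n) (polygon N)
      (fun i : Fin N => if (i : ℕ) % d < k then u * polygon N i else polygon N i) := by
    intro k
    induction k with
    | zero =>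
      intro _
      have : (fun i : Fin N => if (i : ℕ) % d < 0 then u * polygon N i else polygon N i)
          = polygon N := by
        funext i; simp
      rw [this]
      exact within_mono (within_refl _) (Nat.zero_le _)
    | succ k ih =>
      intro hk
      have h1 := ih (by omega)
      set e : Fin M → Fin N := fun j => ⟨k + d * (j : ℕ), hlt k j (by omega)⟩ with he
      have hinj : Function.Injective e := by
        intro a b hab
        have : k + d * (a : ℕ) = k + d * (b : ℕ) := congrArg Fin.val hab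
        apply Fin.ext
        exact Nat.eq_of_mul_eq_mul_left hd (by omega)
      have h2 := within_map (AddMonoidHom.mulLeft (zz N ^ k)) hw
      simp only [AddMonoidHom.coe_mulLeft] at h2
      have hpos : ∀ j : Fin M, polygon N (e j) = zz N ^ k * zz M ^ (j : ℕ) := by
        intro j
        rw [polygon_eq, he]
        simp only
        rw [pow_add, pow_mul, hzN]
      have h3 := within_extend e hinj h2
        (fun i : Fin N => if (i : ℕ) % d < k then u * polygon N i else polygon N i) (by
          intro j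
          have : ((e j : Fin N) : ℕ) % d = k := by
            rw [he]
            simp only
            rw [Nat.add_mul_mod_self_left, Nat.mod_eq_of_lt (by omega)]
          rw [this, if_neg (lt_irrefl k), hpos])
      have e4 : Function.extend e (fun j : Fin M => zz N ^ k * (u * zz M ^ (j : ℕ)))
          (fun i : Fin N => if (i : ℕ) % d < k then u * polygon N i else polygon N i)
          = (fun i : Fin N => if (i : ℕ) % d < k + 1 then u * polygon N i else polygon N i) := by
        funext i
        by_cases hi : ∃ j, e j = i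
        · obtain ⟨j, rfl⟩ := hi
          rw [hinj.extend_apply]
          have : ((e j : Fin N) : ℕ) % d = k := by
            rw [he]
            simp only
            rw [Nat.add_mul_mod_self_left, Nat.mod_eq_of_lt (by omega)]
          rw [this, if_pos (Nat.lt_succ_self k), hpos]
          ring
        · rw [Function.extend_apply' _ _ _ hi]
          have hne : (i : ℕ) % d ≠ k := by
            intro hc
            apply hi
            refine ⟨⟨(i : ℕ) / d, ?_⟩, ?_⟩
            · rw [Nat.div_lt_iff_lt_mul hd, mul_comm]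
              exact i.2
            · apply Fin.ext
              rw [he]
              simp only
              rw [← hc]
              exact Nat.mod_add_div _ _
          have : ((i : ℕ) % d < k) ↔ ((i : ℕ) % d < k + 1) := by omega
          simp only [this]
      rw [e4] at h3
      refine within_mono (within_trans h1 h3) (le_of_eq (by ring))
  obtain ⟨m, hm, hs⟩ := key d le_rfl
  refine ⟨m, hm, _, hs, 0, u, hu, ?_⟩
  have : (fun i : Fin N => if (i : ℕ) % d < d then u * polygon N i else polygon N i)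
      = fun i : Fin N => u * polygon N i := by
    funext i
    rw [if_pos (Nat.mod_lt _ hd)]
  rw [this]
  ext x
  constructor
  · rintro ⟨i, rfl⟩
    exact ⟨polygon N i, ⟨i, rfl⟩, by simp⟩
  · rintro ⟨_, ⟨i, rfl⟩, rfl⟩
    exact ⟨i, by simp⟩

/-- every relevant `N` is a multiple of a good `M` -/
lemma exists_factor (N : ℕ) (hN : N = 5 ∨ 7 ≤ N) :
    ∃ d M, 0 < d ∧ N = d * M ∧ ((M % 2 = 1 ∧ 5 ≤ M) ∨ M = 8 ∨ M = 12) := by
  obtain ⟨a, m, hm, hN2⟩ := Nat.exists_eq_two_pow_mul_odd (n := N) (by omega)
  have hm1 : m % 2 = 1 := Nat.odd_iff.mp hm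
  have h2a : 0 < 2 ^ a := by positivity
  by_cases h5 : 5 ≤ m
  · exact ⟨2 ^ a, m, h2a, hN2, Or.inl ⟨hm1, h5⟩⟩
  · rcases (by omega : m = 1 ∨ m = 3) with rfl | rfl
    · -- N = 2^a
      have ha : 3 ≤ a := by
        by_contra hlt
        push Not at hlt
        interval_cases a <;> omega
      refine ⟨2 ^ (a - 3), 8, by positivity, ?_, Or.inr (Or.inl rfl)⟩
      rw [hN2, mul_one]
      obtain ⟨b, rfl⟩ := Nat.exists_eq_add_of_le ha
      rw [Nat.add_sub_cancel_left, pow_add]
      ring
    · have ha : 2 ≤ a := by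
        by_contra hlt
        push Not at hlt
        interval_cases a <;> omega
      refine ⟨2 ^ (a - 2), 12, by positivity, ?_, Or.inr (Or.inr rfl)⟩
      rw [hN2]
      obtain ⟨b, rfl⟩ := Nat.exists_eq_add_of_le ha
      rw [Nat.add_sub_cancel_left, pow_add]
      ring

/-- **Main theorem**: at most `9 N ^ 4` moves suffice. -/
theorem main (N : ℕ) (hN : N = 5 ∨ 7 ≤ N) : ∃ m ≤ 9 * N ^ 4, EnlargedBy N m := by
  obtain ⟨d, M, hd, hNd, hM⟩ := exists_factor N hN
  subst hNd
  have hM0 : 0 < M := by omega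
  have hdM : d * (9 * M ^ 4) ≤ 9 * (d * M) ^ 4 := by
    have h1 : d ≤ d ^ 4 := by
      calc d = d ^ 1 := (pow_one d).symm
        _ ≤ d ^ 4 := Nat.pow_le_pow_right hd (by norm_num)
    calc d * (9 * M ^ 4) ≤ d ^ 4 * (9 * M ^ 4) := Nat.mul_le_mul_right _ h1
      _ = 9 * (d * M) ^ 4 := by ring
  have hc : Centred M (9 * M ^ 4) := by
    rcases hM with ⟨h1, h2⟩ | rfl | rfl
    · exact odd_centred h1 h2
    · obtain ⟨u, hu, hw⟩ := centred8
      exact ⟨u, hu, within_mono hw (by norm_num)⟩
    · obtain ⟨u, hu, hw⟩ := centred12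
      exact ⟨u, hu, within_mono hw (by norm_num)⟩
  obtain ⟨m, hm, he⟩ := enlarged_of_centred hM0 hd hc
  exact ⟨m, hm.trans hdM, he⟩

end Pool.Agent.Helper156.JumpPoly
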