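import Pool.Agent.Helper156.PercBasic

/-!
The van den Berg–Häggström–Kahn correlation inequalities, by exploring the cluster of `a`.
-/

set_option linter.unusedSectionVars false

namespace Pool.Agent.Helper156.Perc

open Finset

variable {V : Type*} [DecidableEq V]

theorem cross_PA {p T0 T1 X0 X1 Y0 Y1 Q0 Q1 : ℝ} (hp0 : 0 ≤ p) (hp1 : p ≤ 1)
    (hT0 : 0 ≤ T0) (hT1 : 0 ≤ T1) (hX1 : 0 ≤ X1) (hY1 : 0 ≤ Y1)
    (hQ1 : 0 ≤ Q1) (hQ : Q1 ≤ Q0) (hXQ : X1 ≤ Q1) (hYQ : Y1 ≤ Q1)
    (h0 : X0 * Y0 ≤ T0 * Q0) (h1 : X1 * Y1 ≤ T1 * Q1)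
    (hx : X1 * Q0 ≤ X0 * Q1) (hy : Y1 * Q0 ≤ Y0 * Q1) :
    (p * X1 + (1 - p) * X0) * (p * Y1 + (1 - p) * Y0) ≤
      (p * T1 + (1 - p) * T0) * (p * Q1 + (1 - p) * Q0) := by
  have hcross : X1 * Y0 + X0 * Y1 ≤ T1 * Q0 + T0 * Q1 := by
    rcases hQ1.eq_or_lt with hz | hpos
    · have hX : X1 = 0 := le_antisymm (by linarith) hX1
      have hY : Y1 = 0 := le_antisymm (by linarith) hY1
      rw [hX, hY]
      have : 0 ≤ T1 * Q0 := mul_nonneg hT1 (by linarith)
      have : 0 ≤ T0 * Q1 := mul_nonneg hT0 hQ1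
      linarith
    · have hQ0 : 0 < Q0 := lt_of_lt_of_le hpos hQ
      have hQQ : 0 < Q0 * Q1 := mul_pos hQ0 hpos
      apply le_of_mul_le_mul_left _ hQQ
      have hprod : 0 ≤ (X0 * Q1 - X1 * Q0) * (Y0 * Q1 - Y1 * Q0) :=
        mul_nonneg (by linarith) (by linarith)
      have e1 : Q1 ^ 2 * (X0 * Y0) ≤ Q1 ^ 2 * (T0 * Q0) :=
        mul_le_mul_of_nonneg_left h0 (sq_nonneg _)
      have e2 : Q0 ^ 2 * (X1 * Y1) ≤ Q0 ^ 2 * (T1 * Q1) :=
        mul_le_mul_of_nonneg_left h1 (sq_nonneg _)
      nlinarith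
  have hq : 0 ≤ p * (1 - p) := mul_nonneg hp0 (by linarith)
  have f1 : p ^ 2 * (X1 * Y1) ≤ p ^ 2 * (T1 * Q1) := mul_le_mul_of_nonneg_left h1 (sq_nonneg _)
  have f2 : (1 - p) ^ 2 * (X0 * Y0) ≤ (1 - p) ^ 2 * (T0 * Q0) :=
    mul_le_mul_of_nonneg_left h0 (sq_nonneg _)
  have f3 := mul_le_mul_of_nonneg_left hcross hq
  nlinarith

theorem cross_NA {p T0 T1 X0 X1 Y0 Y1 Q0 Q1 : ℝ} (hp0 : 0 ≤ p) (hp1 : p ≤ 1)
    (hX0 : 0 ≤ X0) (hX1 : 0 ≤ X1) (hY0 : 0 ≤ Y0) (hY1 : 0 ≤ Y1)
    (hQ1 : 0 ≤ Q1) (hQ : Q1 ≤ Q0) (hT1 : T1 ≤ Q1)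
    (h0 : T0 * Q0 ≤ X0 * Y0) (h1 : T1 * Q1 ≤ X1 * Y1)
    (hx : X0 * Q1 ≤ X1 * Q0) (hy : Y1 * Q0 ≤ Y0 * Q1) :
    (p * T1 + (1 - p) * T0) * (p * Q1 + (1 - p) * Q0) ≤
      (p * X1 + (1 - p) * X0) * (p * Y1 + (1 - p) * Y0) := by
  have hcross : T1 * Q0 + T0 * Q1 ≤ X1 * Y0 + X0 * Y1 := by
    rcases hQ1.eq_or_lt with hz | hpos
    · have h3 : T1 * Q0 ≤ 0 := by
        have : T1 ≤ 0 := by linarith
        exact mul_nonpos_of_nonpos_of_nonneg this (by linarith)
      have h4 : T0 * Q1 = 0 := by rw [← hz]; ring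
      have : 0 ≤ X1 * Y0 := mul_nonneg hX1 hY0
      have : 0 ≤ X0 * Y1 := mul_nonneg hX0 hY1
      linarith
    · have hQ0 : 0 < Q0 := lt_of_lt_of_le hpos hQ
      have hQQ : 0 < Q0 * Q1 := mul_pos hQ0 hpos
      apply le_of_mul_le_mul_left _ hQQ
      have hprod : 0 ≤ (X1 * Q0 - X0 * Q1) * (Y0 * Q1 - Y1 * Q0) :=
        mul_nonneg (by linarith) (by linarith)
      have e1 : Q1 ^ 2 * (T0 * Q0) ≤ Q1 ^ 2 * (X0 * Y0) :=
        mul_le_mul_of_nonneg_left h0 (sq_nonneg _)
      have e2 : Q0 ^ 2 * (T1 * Q1) ≤ Q0 ^ 2 * (X1 * Y1) :=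
        mul_le_mul_of_nonneg_left h1 (sq_nonneg _)
      nlinarith
  have hq : 0 ≤ p * (1 - p) := mul_nonneg hp0 (by linarith)
  have f1 : p ^ 2 * (T1 * Q1) ≤ p ^ 2 * (X1 * Y1) := mul_le_mul_of_nonneg_left h1 (sq_nonneg _)
  have f2 : (1 - p) ^ 2 * (T0 * Q0) ≤ (1 - p) ^ 2 * (X0 * Y0) :=
    mul_le_mul_of_nonneg_left h0 (sq_nonneg _)
  have f3 := mul_le_mul_of_nonneg_left hcross hq
  nlinarith

/-- if no unrevealed edge touches the explored cluster of `a`, the cluster is determined -/
theorem R_base {E O T : Finset (Sym2 V)} {a : V}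
    (hE : ∀ e ∈ E, ∀ u ∈ e, ¬ R O a u) (hO : O ⊆ T) (hT : T ⊆ O ∪ E) (x : V) :
    R T a x ↔ R O a x := by
  constructor
  · intro h
    refine R_induct (Q := fun x => R O a x) (R.refl _ _) ?_ h
    intro y z hy hedge
    rcases Finset.mem_union.mp (hT hedge) with h1 | h1
    · exact hy.trans (R_edge h1)
    · exact absurd hy (hE _ h1 y (Sym2.mem_mk_left y z))
  · exact fun h => h.mono hO

section
variable {p : Sym2 V → ℝ} (hp : ∀ e, 0 ≤ p e ∧ p e ≤ 1)
include hp

/-- Positive association of the cluster of `c`, given `c` is not joined to `a`. -/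
theorem PA (a c : V) : ∀ (n : ℕ) (E O : Finset (Sym2 V)), E.card = n → ∀ v z : V,
    P p E O (fun T => R T c v ∧ ¬ R T a c) * P p E O (fun T => R T c z ∧ ¬ R T a c) ≤
      P p E O (fun T => (R T c v ∧ R T c z) ∧ ¬ R T a c) * P p E O (fun T => ¬ R T a c) := by
  intro n
  induction n with
  | zero =>
    intro E O hE v z
    rw [Finset.card_eq_zero] at hE
    subst hE
    classical
    simp only [P, Ev, Finset.powerset_empty, Finset.sum_singleton, Finset.prod_empty,
      Finset.sdiff_self, Finset.union_empty, one_mul]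
    by_cases h1 : R O a c <;> by_cases h2 : R O c v <;> by_cases h3 : R O c z <;>
      simp [h1, h2, h3]
  | succ n ih =>
    intro E O hE v z
    by_cases hb : ∀ e ∈ E, ∀ u ∈ e, ¬ R O a u
    · by_cases hac : R O a c
      · have hz : P p E O (fun T => R T c v ∧ ¬ R T a c) = 0 := by
          rw [← P_false (p := p) (E := E) (O := O)]
          apply P_congr hp
          intro T h1 h2
          simp only [R_base hb h1 h2 c]
          tauto
        rw [hz, zero_mul]
        exact mul_nonneg (P_nonneg hp _) (P_nonneg hp _)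
      · have e1 : ∀ A : Finset (Sym2 V) → Prop,
            P p E O (fun T => A T ∧ ¬ R T a c) = P p E O A := by
          intro A
          apply P_congr hp
          intro T h1 h2
          simp only [R_base hb h1 h2 c]
          tauto
        have e2 : P p E O (fun T => ¬ R T a c) = 1 := by
          rw [← P_true (p := p) (E := E) (O := O)]
          apply P_congr hp
          intro T h1 h2
          simp only [R_base hb h1 h2 c]
          tauto
        rw [e1, e1, e1 (fun T => R T c v ∧ R T c z), e2, mul_one]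
        exact harris hp E O _ _ (fun S T hST h => h.mono hST) (fun S T hST h => h.mono hST)
    · push Not at hb
      obtain ⟨e, heE, u, hue, hau⟩ := hb
      obtain ⟨y, rfl⟩ : ∃ y, e = s(u, y) := Sym2.mem_iff_exists.mp hue
      have hcard : (E.erase s(u, y)).card = n := by
        rw [Finset.card_erase_of_mem heE, hE]; rfl
      set E' := E.erase s(u, y) with hE'
      have hau' : ∀ T, O ⊆ T → R T a u := fun T hT => hau.mono hT
      rw [P_step heE (fun T => R T c v ∧ ¬ R T a c), P_step heE (fun T => R T c z ∧ ¬ R T a c),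
        P_step heE (fun T => (R T c v ∧ R T c z) ∧ ¬ R T a c), P_step heE (fun T => ¬ R T a c),
        ← hE']
      have hmono : ∀ w : V,
          P p E' (insert s(u, y) O) (fun T => R T c w ∧ ¬ R T a c) *
            P p E' O (fun T => ¬ R T a c) ≤
          P p E' O (fun T => R T c w ∧ ¬ R T a c) *
            P p E' (insert s(u, y) O) (fun T => ¬ R T a c) := by
        intro w
        have q1 : P p E' (insert s(u, y) O) (fun T => R T c w ∧ ¬ R T a c) =
            P p E' O (fun T => (R T c w ∧ ¬ R T a c) ∧ ¬ R T c y) := by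
          rw [P_open]
          apply P_congr hp
          intro T h1 _
          have hh : R T y c ↔ R T c y := ⟨R.symm, R.symm⟩
          by_cases k1 : R T a c
          · simp [ins_a (hau' T h1), k1]
          · by_cases k2 : R T y c
            · simp [ins_a (hau' T h1), k2, hh.mp k2]
            · simp only [ins_a (hau' T h1), ins_c (hau' T h1) k1 k2, ← hh]
              tauto
        have q2 : P p E' (insert s(u, y) O) (fun T => ¬ R T a c) =
            P p E' O (fun T => (¬ R T a c) ∧ ¬ R T c y) := by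
          rw [P_open]
          apply P_congr hp
          intro T h1 _
          have hh : R T y c ↔ R T c y := ⟨R.symm, R.symm⟩
          simp only [ins_a (hau' T h1), hh]
          tauto
        have s1 := P_split (p := p) (E := E') (O := O)
          (fun T => R T c w ∧ ¬ R T a c) (fun T => R T c y)
        have s2 := P_split (p := p) (E := E') (O := O)
          (fun T => ¬ R T a c) (fun T => R T c y)
        have i1 := ih E' O hcard w y
        have c1 : P p E' O (fun T => (R T c w ∧ R T c y) ∧ ¬ R T a c) =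
            P p E' O (fun T => (R T c w ∧ ¬ R T a c) ∧ R T c y) :=
          P_congr hp (fun T _ _ => by tauto)
        have c2 : P p E' O (fun T => R T c y ∧ ¬ R T a c) =
            P p E' O (fun T => (¬ R T a c) ∧ R T c y) :=
          P_congr hp (fun T _ _ => by tauto)
        rw [c1, c2] at i1
        rw [q1, q2]
        have r1 : P p E' O (fun T => (R T c w ∧ ¬ R T a c) ∧ ¬ R T c y) =
          P p E' O (fun T => R T c w ∧ ¬ R T a c) -
            P p E' O (fun T => (R T c w ∧ ¬ R T a c) ∧ R T c y) := by linarith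
        have r2 : P p E' O (fun T => (¬ R T a c) ∧ ¬ R T c y) =
          P p E' O (fun T => ¬ R T a c) -
            P p E' O (fun T => (¬ R T a c) ∧ R T c y) := by linarith
        rw [r1, r2]
        nlinarith
      refine cross_PA (hp _).1 (hp _).2 (P_nonneg hp _) (P_nonneg hp _) (P_nonneg hp _)
        (P_nonneg hp _) (P_nonneg hp _) ?_ ?_ ?_ (ih E' O hcard v z)
        (ih E' (insert s(u, y) O) hcard v z) (hmono v) (hmono z)
      · rw [P_open]
        exact P_mono hp (fun T _ _ h h' => h (h'.mono (Finset.subset_insert _ _)))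
      · exact P_mono hp (fun T _ _ h => h.2)
      · exact P_mono hp (fun T _ _ h => h.2)

/-- monotonicity step used twice -/
theorem mono_step (a c u y w : V) (E' O : Finset (Sym2 V)) (hau : R O a u) :
    P p E' (insert s(u, y) O) (fun T => R T c w ∧ ¬ R T a c) *
      P p E' O (fun T => ¬ R T a c) ≤
    P p E' O (fun T => R T c w ∧ ¬ R T a c) *
      P p E' (insert s(u, y) O) (fun T => ¬ R T a c) := by
  have hau' : ∀ T, O ⊆ T → R T a u := fun T hT => hau.mono hT
  have q1 : P p E' (insert s(u, y) O) (fun T => R T c w ∧ ¬ R T a c) =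
      P p E' O (fun T => (R T c w ∧ ¬ R T a c) ∧ ¬ R T c y) := by
    rw [P_open]
    apply P_congr hp
    intro T h1 _
    have hh : R T y c ↔ R T c y := ⟨R.symm, R.symm⟩
    by_cases k1 : R T a c
    · simp [ins_a (hau' T h1), k1]
    · by_cases k2 : R T y c
      · simp [ins_a (hau' T h1), k2, hh.mp k2]
      · simp only [ins_a (hau' T h1), ins_c (hau' T h1) k1 k2, ← hh]
        tauto
  have q2 : P p E' (insert s(u, y) O) (fun T => ¬ R T a c) =
      P p E' O (fun T => (¬ R T a c) ∧ ¬ R T c y) := by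
    rw [P_open]
    apply P_congr hp
    intro T h1 _
    have hh : R T y c ↔ R T c y := ⟨R.symm, R.symm⟩
    simp only [ins_a (hau' T h1), hh]
    tauto
  have s1 := P_split (p := p) (E := E') (O := O)
    (fun T => R T c w ∧ ¬ R T a c) (fun T => R T c y)
  have s2 := P_split (p := p) (E := E') (O := O)
    (fun T => ¬ R T a c) (fun T => R T c y)
  have i1 := PA hp a c _ E' O rfl w y
  have c1 : P p E' O (fun T => (R T c w ∧ R T c y) ∧ ¬ R T a c) =
      P p E' O (fun T => (R T c w ∧ ¬ R T a c) ∧ R T c y) :=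
    P_congr hp (fun T _ _ => by tauto)
  have c2 : P p E' O (fun T => R T c y ∧ ¬ R T a c) =
      P p E' O (fun T => (¬ R T a c) ∧ R T c y) :=
    P_congr hp (fun T _ _ => by tauto)
  rw [c1, c2] at i1
  rw [q1, q2]
  have r1 : P p E' O (fun T => (R T c w ∧ ¬ R T a c) ∧ ¬ R T c y) =
    P p E' O (fun T => R T c w ∧ ¬ R T a c) -
      P p E' O (fun T => (R T c w ∧ ¬ R T a c) ∧ R T c y) := by linarith
  have r2 : P p E' O (fun T => (¬ R T a c) ∧ ¬ R T c y) =
    P p E' O (fun T => ¬ R T a c) -
      P p E' O (fun T => (¬ R T a c) ∧ R T c y) := by linarith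
  rw [r1, r2]
  nlinarith

/-- Negative correlation of `a ↔ b` and `c ↔ v`, given `a` and `c` are not joined. -/
theorem NA (a b c : V) : ∀ (n : ℕ) (E O : Finset (Sym2 V)), E.card = n → ∀ v : V,
    P p E O (fun T => (R T a b ∧ R T c v) ∧ ¬ R T a c) * P p E O (fun T => ¬ R T a c) ≤
      P p E O (fun T => R T a b ∧ ¬ R T a c) * P p E O (fun T => R T c v ∧ ¬ R T a c) := by
  intro n
  induction n with
  | zero =>
    intro E O hE v
    rw [Finset.card_eq_zero] at hE
    subst hE
    classical
    simp only [P, Ev, Finset.powerset_empty, Finset.sum_singleton, Finset.prod_empty,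
      Finset.sdiff_self, Finset.union_empty, one_mul]
    by_cases h1 : R O a c <;> by_cases h2 : R O a b <;> by_cases h3 : R O c v <;>
      simp [h1, h2, h3]
  | succ n ih =>
    intro E O hE v
    by_cases hb : ∀ e ∈ E, ∀ u ∈ e, ¬ R O a u
    · by_cases hab : R O a b
      · have e1 : P p E O (fun T => (R T a b ∧ R T c v) ∧ ¬ R T a c) =
            P p E O (fun T => R T c v ∧ ¬ R T a c) := by
          apply P_congr hp
          intro T h1 h2
          simp only [R_base hb h1 h2 b]
          tauto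
        have e2 : P p E O (fun T => R T a b ∧ ¬ R T a c) = P p E O (fun T => ¬ R T a c) := by
          apply P_congr hp
          intro T h1 h2
          simp only [R_base hb h1 h2 b]
          tauto
        rw [e1, e2, mul_comm]
      · have hz : P p E O (fun T => (R T a b ∧ R T c v) ∧ ¬ R T a c) = 0 := by
          rw [← P_false (p := p) (E := E) (O := O)]
          apply P_congr hp
          intro T h1 h2
          simp only [R_base hb h1 h2 b]
          tauto
        rw [hz, zero_mul]
        exact mul_nonneg (P_nonneg hp _) (P_nonneg hp _)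
    · push Not at hb
      obtain ⟨e, heE, u, hue, hau⟩ := hb
      obtain ⟨y, rfl⟩ : ∃ y, e = s(u, y) := Sym2.mem_iff_exists.mp hue
      have hcard : (E.erase s(u, y)).card = n := by
        rw [Finset.card_erase_of_mem heE, hE]; rfl
      set E' := E.erase s(u, y) with hE'
      have hau' : ∀ T, O ⊆ T → R T a u := fun T hT => hau.mono hT
      rw [P_step heE (fun T => R T a b ∧ ¬ R T a c), P_step heE (fun T => R T c v ∧ ¬ R T a c),
        P_step heE (fun T => (R T a b ∧ R T c v) ∧ ¬ R T a c), P_step heE (fun T => ¬ R T a c),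
        ← hE']
      refine cross_NA (hp _).1 (hp _).2 (P_nonneg hp _) (P_nonneg hp _) (P_nonneg hp _)
        (P_nonneg hp _) (P_nonneg hp _) ?_ ?_ (ih E' O hcard v)
        (ih E' (insert s(u, y) O) hcard v) ?_ (mono_step hp a c u y v E' O hau)
      · rw [P_open]
        exact P_mono hp (fun T _ _ h h' => h (h'.mono (Finset.subset_insert _ _)))
      · exact P_mono hp (fun T _ _ h => h.2)
      · have q2 : P p E' (insert s(u, y) O) (fun T => ¬ R T a c) =
            P p E' O (fun T => (¬ R T a c) ∧ ¬ R T c y) := by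
          rw [P_open]
          apply P_congr hp
          intro T h1 _
          have hh : R T y c ↔ R T c y := ⟨R.symm, R.symm⟩
          simp only [ins_a (hau' T h1), hh]
          tauto
        have q1 : P p E' O (fun T => (R T a b ∧ ¬ R T a c) ∧ ¬ R T c y) ≤
            P p E' (insert s(u, y) O) (fun T => R T a b ∧ ¬ R T a c) := by
          rw [P_open]
          apply P_mono hp
          intro T h1 _ h
          have hh : R T y c ↔ R T c y := ⟨R.symm, R.symm⟩
          simp only [ins_a (hau' T h1), hh]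
          tauto
        have s1 := P_split (p := p) (E := E') (O := O)
          (fun T => R T a b ∧ ¬ R T a c) (fun T => R T c y)
        have s2 := P_split (p := p) (E := E') (O := O)
          (fun T => ¬ R T a c) (fun T => R T c y)
        have i1 := ih E' O hcard y
        have c1 : P p E' O (fun T => (R T a b ∧ R T c y) ∧ ¬ R T a c) =
            P p E' O (fun T => (R T a b ∧ ¬ R T a c) ∧ R T c y) :=
          P_congr hp (fun T _ _ => by tauto)
        have c2 : P p E' O (fun T => R T c y ∧ ¬ R T a c) =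
            P p E' O (fun T => (¬ R T a c) ∧ R T c y) :=
          P_congr hp (fun T _ _ => by tauto)
        rw [c1, c2] at i1
        rw [q2]
        have r2 : P p E' O (fun T => (¬ R T a c) ∧ ¬ R T c y) =
          P p E' O (fun T => ¬ R T a c) -
            P p E' O (fun T => (¬ R T a c) ∧ R T c y) := by linarith
        have hQ := P_nonneg (E := E') (O := O) hp (fun T => ¬ R T a c)
        have q3 : (P p E' O (fun T => R T a b ∧ ¬ R T a c) -
            P p E' O (fun T => (R T a b ∧ ¬ R T a c) ∧ R T c y)) *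
              P p E' O (fun T => ¬ R T a c) ≤
            P p E' (insert s(u, y) O) (fun T => R T a b ∧ ¬ R T a c) *
              P p E' O (fun T => ¬ R T a c) :=
          mul_le_mul_of_nonneg_right (by linarith) hQ
        rw [r2]
        nlinarith

end

end Pool.Agent.Helper156.Perc
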