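import Pool.Agent.Helper156.PercBHK

/-!
Correlation inequalities given that the cluster of `b` avoids both `a` and `c`.
-/

set_option linter.unusedSectionVars false

namespace Pool.Agent.Helper156.Perc

open Finset

variable {V : Type*} [DecidableEq V]

section
variable {p : Sym2 V → ℝ} (hp : ∀ e, 0 ≤ p e ∧ p e ≤ 1)
include hp

/-- gluing `a` and `c` -/
theorem glue_not (a b c : V) (E O : Finset (Sym2 V)) :
    P p E (insert s(a, c) O) (fun T => ¬ R T b a) =
      P p E O (fun T => ¬ R T b a ∧ ¬ R T b c) := by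
  rw [P_open]
  apply P_congr hp
  intro T _ _
  have h1 : R (insert s(a, c) T) b a ↔ R (insert s(a, c) T) a b := ⟨R.symm, R.symm⟩
  have h2 : R T b a ↔ R T a b := ⟨R.symm, R.symm⟩
  have h3 : R T b c ↔ R T c b := ⟨R.symm, R.symm⟩
  rw [h1, ins_a (R.refl T a), h2, h3]
  tauto

theorem glue_in (a b c z : V) (E O : Finset (Sym2 V)) :
    P p E (insert s(a, c) O) (fun T => R T a z ∧ ¬ R T b a) =
      P p E O (fun T => (R T a z ∨ R T c z) ∧ (¬ R T b a ∧ ¬ R T b c)) := by
  rw [P_open]
  apply P_congr hp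
  intro T _ _
  have h1 : R (insert s(a, c) T) b a ↔ R (insert s(a, c) T) a b := ⟨R.symm, R.symm⟩
  have h2 : R T b a ↔ R T a b := ⟨R.symm, R.symm⟩
  have h3 : R T b c ↔ R T c b := ⟨R.symm, R.symm⟩
  rw [h1, ins_a (R.refl T a), ins_a (R.refl T a), h2, h3]
  tauto

theorem glue_in2 (a b c z y : V) (E O : Finset (Sym2 V)) :
    P p E (insert s(a, c) O) (fun T => (R T a z ∧ R T a y) ∧ ¬ R T b a) =
      P p E O (fun T => ((R T a z ∨ R T c z) ∧ (¬ R T b a ∧ ¬ R T b c)) ∧
        (R T a y ∨ R T c y)) := by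
  rw [P_open]
  apply P_congr hp
  intro T _ _
  have h1 : R (insert s(a, c) T) b a ↔ R (insert s(a, c) T) a b := ⟨R.symm, R.symm⟩
  have h2 : R T b a ↔ R T a b := ⟨R.symm, R.symm⟩
  have h3 : R T b c ↔ R T c b := ⟨R.symm, R.symm⟩
  rw [h1, ins_a (R.refl T a), ins_a (R.refl T a), ins_a (R.refl T a), h2, h3]
  tauto

theorem glue_b (a b c v : V) (E O : Finset (Sym2 V)) :
    P p E (insert s(a, c) O) (fun T => R T b v ∧ ¬ R T b a) =
      P p E O (fun T => R T b v ∧ (¬ R T b a ∧ ¬ R T b c)) := by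
  rw [P_open]
  apply P_congr hp
  intro T _ _
  have h1 : R (insert s(a, c) T) b a ↔ R (insert s(a, c) T) a b := ⟨R.symm, R.symm⟩
  have h2 : R T b a ↔ R T a b := ⟨R.symm, R.symm⟩
  have h3 : R T b c ↔ R T c b := ⟨R.symm, R.symm⟩
  rw [h1, ins_a (R.refl T a), h2, h3]
  by_cases k1 : R T a b
  · tauto
  · by_cases k2 : R T c b
    · tauto
    · rw [ins_c (R.refl T a) k1 k2]
      tauto

theorem glue_b2 (a b c v y : V) (E O : Finset (Sym2 V)) :
    P p E (insert s(a, c) O) (fun T => (R T b v ∧ R T a y) ∧ ¬ R T b a) =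
      P p E O (fun T => (R T b v ∧ (¬ R T b a ∧ ¬ R T b c)) ∧ (R T a y ∨ R T c y)) := by
  rw [P_open]
  apply P_congr hp
  intro T _ _
  have h1 : R (insert s(a, c) T) b a ↔ R (insert s(a, c) T) a b := ⟨R.symm, R.symm⟩
  have h2 : R T b a ↔ R T a b := ⟨R.symm, R.symm⟩
  have h3 : R T b c ↔ R T c b := ⟨R.symm, R.symm⟩
  rw [h1, ins_a (R.refl T a), ins_a (R.refl T a), h2, h3]
  by_cases k1 : R T a b
  · tauto
  · by_cases k2 : R T c b
    · tauto
    · rw [ins_c (R.refl T a) k1 k2]
      tauto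

/-- the probability that the cluster of `b` avoids `a` and `c` after opening an edge at `b` -/
theorem open_avoid (a b c u y : V) (E O : Finset (Sym2 V)) (hbu : R O b u)
    (A : Finset (Sym2 V) → Prop) (A' : Finset (Sym2 V) → Prop)
    (hA : ∀ T, O ⊆ T → ¬ R T b a → ¬ R T b c → ¬ R T a y → ¬ R T c y →
      (A (insert s(u, y) T) ↔ A' T)) :
    P p E (insert s(u, y) O) (fun T => A T ∧ (¬ R T b a ∧ ¬ R T b c)) =
      P p E O (fun T => (A' T ∧ (¬ R T b a ∧ ¬ R T b c)) ∧ ¬ (R T a y ∨ R T c y)) := by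
  rw [P_open]
  apply P_congr hp
  intro T hT _
  have h1 : R T a y ↔ R T y a := ⟨R.symm, R.symm⟩
  have h2 : R T c y ↔ R T y c := ⟨R.symm, R.symm⟩
  have h3 := hA T hT
  rw [ins_a (hbu.mono hT), ins_a (hbu.mono hT)]
  rw [h1, h2] at *
  by_cases k1 : R T b a <;> by_cases k2 : R T b c <;> by_cases k3 : R T y a <;>
    by_cases k4 : R T y c <;> simp only [k1, k2, k3, k4, not_true_eq_false, not_false_eq_true,
      false_and, and_false, true_and, and_true, or_true, true_or, or_false, false_or] at h3 ⊢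
  exact h3 trivial trivial trivial trivial

theorem PA2_base (a b c : V) (E O : Finset (Sym2 V))
    (hb : ∀ e ∈ E, ∀ u ∈ e, ¬ R O b u) (z : V) :
    P p E O (fun T => R T a c ∧ (¬ R T b a ∧ ¬ R T b c)) *
        P p E O (fun T => (R T a z ∨ R T c z) ∧ (¬ R T b a ∧ ¬ R T b c)) ≤
      P p E O (fun T => (R T a c ∧ (R T a z ∨ R T c z)) ∧ (¬ R T b a ∧ ¬ R T b c)) *
        P p E O (fun T => ¬ R T b a ∧ ¬ R T b c) := by
  by_cases hac : R O b a ∨ R O b c
  · have hz : P p E O (fun T => R T a c ∧ (¬ R T b a ∧ ¬ R T b c)) = 0 := by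
      rw [← P_false (p := p) (E := E) (O := O)]
      apply P_congr hp
      intro T h1 h2
      simp only [R_base hb h1 h2 c, R_base hb h1 h2 a]
      tauto
    rw [hz, zero_mul]
    exact mul_nonneg (P_nonneg hp _) (P_nonneg hp _)
  · have e1 : ∀ A : Finset (Sym2 V) → Prop,
        P p E O (fun T => A T ∧ (¬ R T b a ∧ ¬ R T b c)) = P p E O A := by
      intro A
      apply P_congr hp
      intro T h1 h2
      simp only [R_base hb h1 h2 c, R_base hb h1 h2 a]
      tauto
    have e2 : P p E O (fun T => ¬ R T b a ∧ ¬ R T b c) = 1 := by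
      rw [← P_true (p := p) (E := E) (O := O)]
      apply P_congr hp
      intro T h1 h2
      simp only [R_base hb h1 h2 c, R_base hb h1 h2 a]
      tauto
    rw [e1, e1 (fun T => R T a z ∨ R T c z), e1 (fun T => R T a c ∧ (R T a z ∨ R T c z)), e2,
      mul_one]
    exact harris hp E O _ _ (fun S T hST h => h.mono hST)
      (fun S T hST h => h.imp (fun h => h.mono hST) (fun h => h.mono hST))

theorem PA2 (a b c : V) : ∀ (n : ℕ) (E O : Finset (Sym2 V)), E.card = n → ∀ z : V,
    P p E O (fun T => R T a c ∧ (¬ R T b a ∧ ¬ R T b c)) *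
        P p E O (fun T => (R T a z ∨ R T c z) ∧ (¬ R T b a ∧ ¬ R T b c)) ≤
      P p E O (fun T => (R T a c ∧ (R T a z ∨ R T c z)) ∧ (¬ R T b a ∧ ¬ R T b c)) *
        P p E O (fun T => ¬ R T b a ∧ ¬ R T b c) := by
  intro n
  induction n with
  | zero =>
    intro E O hE z
    rw [Finset.card_eq_zero] at hE
    subst hE
    exact PA2_base hp a b c ∅ O (by simp) z
  | succ n ih =>
    intro E O hE z
    by_cases hb : ∀ e ∈ E, ∀ u ∈ e, ¬ R O b u
    · exact PA2_base hp a b c E O hb z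
    · push Not at hb
      obtain ⟨e, heE, u, hue, hbu⟩ := hb
      obtain ⟨y, rfl⟩ : ∃ y, e = s(u, y) := Sym2.mem_iff_exists.mp hue
      have hcard : (E.erase s(u, y)).card = n := by
        rw [Finset.card_erase_of_mem heE, hE]; rfl
      set E' := E.erase s(u, y) with hE'
      rw [P_step heE (fun T => R T a c ∧ (¬ R T b a ∧ ¬ R T b c)),
        P_step heE (fun T => (R T a z ∨ R T c z) ∧ (¬ R T b a ∧ ¬ R T b c)),
        P_step heE (fun T => (R T a c ∧ (R T a z ∨ R T c z)) ∧ (¬ R T b a ∧ ¬ R T b c)),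
        P_step heE (fun T => ¬ R T b a ∧ ¬ R T b c), ← hE']
      -- the open child
      have hinsert : ∀ T, O ⊆ T → ¬ R T b a → ¬ R T b c → ¬ R T a y → ¬ R T c y →
          (∀ w, R (insert s(u, y) T) a w ↔ R T a w) ∧
          (∀ w, R (insert s(u, y) T) c w ↔ R T c w) := by
        intro T hT h1 h2 h3 h4
        exact ⟨fun w => ins_c (hbu.mono hT) h1 (fun h => h3 h.symm),
          fun w => ins_c (hbu.mono hT) h2 (fun h => h4 h.symm)⟩
      have x1 : P p E' (insert s(u, y) O) (fun T => R T a c ∧ (¬ R T b a ∧ ¬ R T b c)) =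
          P p E' O (fun T => (R T a c ∧ (¬ R T b a ∧ ¬ R T b c)) ∧ ¬ (R T a y ∨ R T c y)) := by
        refine open_avoid hp a b c u y E' O hbu _ (fun T => R T a c) ?_
        intro T hT h1 h2 h3 h4
        exact (hinsert T hT h1 h2 h3 h4).1 c
      have y1 : P p E' (insert s(u, y) O)
            (fun T => (R T a z ∨ R T c z) ∧ (¬ R T b a ∧ ¬ R T b c)) =
          P p E' O (fun T => ((R T a z ∨ R T c z) ∧ (¬ R T b a ∧ ¬ R T b c)) ∧
            ¬ (R T a y ∨ R T c y)) := by
        refine open_avoid hp a b c u y E' O hbu _ (fun T => R T a z ∨ R T c z) ?_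
        intro T hT h1 h2 h3 h4
        simp only [(hinsert T hT h1 h2 h3 h4).1 z, (hinsert T hT h1 h2 h3 h4).2 z]
      have q1 : P p E' (insert s(u, y) O) (fun T => ¬ R T b a ∧ ¬ R T b c) =
          P p E' O (fun T => (¬ R T b a ∧ ¬ R T b c) ∧ ¬ (R T a y ∨ R T c y)) := by
        have := open_avoid hp a b c u y E' O hbu (fun _ => True) (fun _ => True)
          (fun _ _ _ _ _ _ => Iff.rfl)
        simpa only [true_and] using this
      have sx := P_split (p := p) (E := E') (O := O)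
        (fun T => R T a c ∧ (¬ R T b a ∧ ¬ R T b c)) (fun T => R T a y ∨ R T c y)
      have sy := P_split (p := p) (E := E') (O := O)
        (fun T => (R T a z ∨ R T c z) ∧ (¬ R T b a ∧ ¬ R T b c)) (fun T => R T a y ∨ R T c y)
      have sq := P_split (p := p) (E := E') (O := O)
        (fun T => ¬ R T b a ∧ ¬ R T b c) (fun T => R T a y ∨ R T c y)
      have c1 : P p E' O (fun T => (¬ R T b a ∧ ¬ R T b c) ∧ (R T a y ∨ R T c y)) =
          P p E' O (fun T => (R T a y ∨ R T c y) ∧ (¬ R T b a ∧ ¬ R T b c)) :=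
        P_congr hp (fun T _ _ => by tauto)
      have c2 : P p E' O (fun T => (R T a c ∧ (¬ R T b a ∧ ¬ R T b c)) ∧ (R T a y ∨ R T c y)) =
          P p E' O (fun T => (R T a c ∧ (R T a y ∨ R T c y)) ∧ (¬ R T b a ∧ ¬ R T b c)) :=
        P_congr hp (fun T _ _ => by tauto)
      have i1 := ih E' O hcard y
      have i2 := PA hp b a _ E' (insert s(a, c) O) rfl z y
      rw [glue_in hp, glue_in hp, glue_in2 hp, glue_not hp] at i2
      have hx : P p E' (insert s(u, y) O) (fun T => R T a c ∧ (¬ R T b a ∧ ¬ R T b c)) *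
            P p E' O (fun T => ¬ R T b a ∧ ¬ R T b c) ≤
          P p E' O (fun T => R T a c ∧ (¬ R T b a ∧ ¬ R T b c)) *
            P p E' (insert s(u, y) O) (fun T => ¬ R T b a ∧ ¬ R T b c) := by
        rw [x1, q1]
        rw [c1] at sq
        rw [c2] at sx
        have r1 := eq_sub_of_add_eq' sx.symm
        have r2 := eq_sub_of_add_eq' sq.symm
        rw [r1, r2]
        nlinarith
      have hy : P p E' (insert s(u, y) O)
              (fun T => (R T a z ∨ R T c z) ∧ (¬ R T b a ∧ ¬ R T b c)) *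
            P p E' O (fun T => ¬ R T b a ∧ ¬ R T b c) ≤
          P p E' O (fun T => (R T a z ∨ R T c z) ∧ (¬ R T b a ∧ ¬ R T b c)) *
            P p E' (insert s(u, y) O) (fun T => ¬ R T b a ∧ ¬ R T b c) := by
        rw [y1, q1]
        rw [c1] at sq
        have r1 := eq_sub_of_add_eq' sy.symm
        have r2 := eq_sub_of_add_eq' sq.symm
        rw [r1, r2]
        nlinarith
      refine cross_PA (hp _).1 (hp _).2 (P_nonneg hp _) (P_nonneg hp _) (P_nonneg hp _)
        (P_nonneg hp _) (P_nonneg hp _) ?_ ?_ ?_ (ih E' O hcard z)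
        (ih E' (insert s(u, y) O) hcard z) hx hy
      · rw [q1]
        exact P_mono hp (fun T _ _ h => h.1)
      · exact P_mono hp (fun T _ _ h => h.2)
      · exact P_mono hp (fun T _ _ h => h.2)

theorem NA2_base (a b c : V) (E O : Finset (Sym2 V))
    (hb : ∀ e ∈ E, ∀ u ∈ e, ¬ R O b u) (v : V) :
    P p E O (fun T => (R T b v ∧ R T a c) ∧ (¬ R T b a ∧ ¬ R T b c)) *
        P p E O (fun T => ¬ R T b a ∧ ¬ R T b c) ≤
      P p E O (fun T => R T b v ∧ (¬ R T b a ∧ ¬ R T b c)) *
        P p E O (fun T => R T a c ∧ (¬ R T b a ∧ ¬ R T b c)) := by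
  by_cases hv : R O b v
  · have e1 : P p E O (fun T => (R T b v ∧ R T a c) ∧ (¬ R T b a ∧ ¬ R T b c)) =
        P p E O (fun T => R T a c ∧ (¬ R T b a ∧ ¬ R T b c)) := by
      apply P_congr hp
      intro T h1 h2
      simp only [R_base hb h1 h2 v]
      tauto
    have e2 : P p E O (fun T => R T b v ∧ (¬ R T b a ∧ ¬ R T b c)) =
        P p E O (fun T => ¬ R T b a ∧ ¬ R T b c) := by
      apply P_congr hp
      intro T h1 h2
      simp only [R_base hb h1 h2 v]
      tauto
    rw [e1, e2, mul_comm]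
  · have hz : P p E O (fun T => (R T b v ∧ R T a c) ∧ (¬ R T b a ∧ ¬ R T b c)) = 0 := by
      rw [← P_false (p := p) (E := E) (O := O)]
      apply P_congr hp
      intro T h1 h2
      simp only [R_base hb h1 h2 v]
      tauto
    rw [hz, zero_mul]
    exact mul_nonneg (P_nonneg hp _) (P_nonneg hp _)

theorem NA2 (a b c : V) : ∀ (n : ℕ) (E O : Finset (Sym2 V)), E.card = n → ∀ v : V,
    P p E O (fun T => (R T b v ∧ R T a c) ∧ (¬ R T b a ∧ ¬ R T b c)) *
        P p E O (fun T => ¬ R T b a ∧ ¬ R T b c) ≤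
      P p E O (fun T => R T b v ∧ (¬ R T b a ∧ ¬ R T b c)) *
        P p E O (fun T => R T a c ∧ (¬ R T b a ∧ ¬ R T b c)) := by
  intro n
  induction n with
  | zero =>
    intro E O hE v
    rw [Finset.card_eq_zero] at hE
    subst hE
    exact NA2_base hp a b c ∅ O (by simp) v
  | succ n ih =>
    intro E O hE v
    by_cases hb : ∀ e ∈ E, ∀ u ∈ e, ¬ R O b u
    · exact NA2_base hp a b c E O hb v
    · push Not at hb
      obtain ⟨e, heE, u, hue, hbu⟩ := hb
      obtain ⟨y, rfl⟩ : ∃ y, e = s(u, y) := Sym2.mem_iff_exists.mp hue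
      have hcard : (E.erase s(u, y)).card = n := by
        rw [Finset.card_erase_of_mem heE, hE]; rfl
      set E' := E.erase s(u, y) with hE'
      rw [P_step heE (fun T => (R T b v ∧ R T a c) ∧ (¬ R T b a ∧ ¬ R T b c)),
        P_step heE (fun T => ¬ R T b a ∧ ¬ R T b c),
        P_step heE (fun T => R T b v ∧ (¬ R T b a ∧ ¬ R T b c)),
        P_step heE (fun T => R T a c ∧ (¬ R T b a ∧ ¬ R T b c)), ← hE']
      have hinsert : ∀ T, O ⊆ T → ¬ R T b a → ¬ R T b c → ¬ R T a y → ¬ R T c y →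
          (∀ w, R (insert s(u, y) T) a w ↔ R T a w) := by
        intro T hT h1 h2 h3 h4
        exact fun w => ins_c (hbu.mono hT) h1 (fun h => h3 h.symm)
      have y1 : P p E' (insert s(u, y) O) (fun T => R T a c ∧ (¬ R T b a ∧ ¬ R T b c)) =
          P p E' O (fun T => (R T a c ∧ (¬ R T b a ∧ ¬ R T b c)) ∧ ¬ (R T a y ∨ R T c y)) := by
        refine open_avoid hp a b c u y E' O hbu _ (fun T => R T a c) ?_
        intro T hT h1 h2 h3 h4
        exact hinsert T hT h1 h2 h3 h4 c
      have q1 : P p E' (insert s(u, y) O) (fun T => ¬ R T b a ∧ ¬ R T b c) =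
          P p E' O (fun T => (¬ R T b a ∧ ¬ R T b c) ∧ ¬ (R T a y ∨ R T c y)) := by
        have := open_avoid hp a b c u y E' O hbu (fun _ => True) (fun _ => True)
          (fun _ _ _ _ _ _ => Iff.rfl)
        simpa only [true_and] using this
      have x1 : P p E' O (fun T => (R T b v ∧ (¬ R T b a ∧ ¬ R T b c)) ∧
            ¬ (R T a y ∨ R T c y)) ≤
          P p E' (insert s(u, y) O) (fun T => R T b v ∧ (¬ R T b a ∧ ¬ R T b c)) := by
        have h0 := open_avoid hp a b c u y E' O hbu (fun T => R T b v)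
          (fun T => R T b v ∨ R T y v) (by
            intro T hT _ _ _ _
            exact ins_a (hbu.mono hT))
        rw [h0]
        exact P_mono hp (fun T _ _ h => ⟨⟨Or.inl h.1.1, h.1.2⟩, h.2⟩)
      have sx := P_split (p := p) (E := E') (O := O)
        (fun T => R T b v ∧ (¬ R T b a ∧ ¬ R T b c)) (fun T => R T a y ∨ R T c y)
      have sy := P_split (p := p) (E := E') (O := O)
        (fun T => R T a c ∧ (¬ R T b a ∧ ¬ R T b c)) (fun T => R T a y ∨ R T c y)
      have sq := P_split (p := p) (E := E') (O := O)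
        (fun T => ¬ R T b a ∧ ¬ R T b c) (fun T => R T a y ∨ R T c y)
      have c1 : P p E' O (fun T => (¬ R T b a ∧ ¬ R T b c) ∧ (R T a y ∨ R T c y)) =
          P p E' O (fun T => (R T a y ∨ R T c y) ∧ (¬ R T b a ∧ ¬ R T b c)) :=
        P_congr hp (fun T _ _ => by tauto)
      have c2 : P p E' O (fun T => (R T a c ∧ (¬ R T b a ∧ ¬ R T b c)) ∧ (R T a y ∨ R T c y)) =
          P p E' O (fun T => (R T a c ∧ (R T a y ∨ R T c y)) ∧ (¬ R T b a ∧ ¬ R T b c)) :=
        P_congr hp (fun T _ _ => by tauto)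
      rw [c1] at sq
      rw [c2] at sy
      have i1 := PA2 hp a b c _ E' O rfl y
      have i2 := NA hp b v a _ E' (insert s(a, c) O) rfl y
      rw [glue_b2 hp, glue_not hp, glue_b hp, glue_in hp] at i2
      have hy : P p E' (insert s(u, y) O) (fun T => R T a c ∧ (¬ R T b a ∧ ¬ R T b c)) *
            P p E' O (fun T => ¬ R T b a ∧ ¬ R T b c) ≤
          P p E' O (fun T => R T a c ∧ (¬ R T b a ∧ ¬ R T b c)) *
            P p E' (insert s(u, y) O) (fun T => ¬ R T b a ∧ ¬ R T b c) := by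
        rw [y1, q1]
        have r1 := eq_sub_of_add_eq' sy.symm
        have r2 := eq_sub_of_add_eq' sq.symm
        rw [r1, r2]
        nlinarith
      have hQ := P_nonneg (E := E') (O := O) hp (fun T => ¬ R T b a ∧ ¬ R T b c)
      have hx : P p E' O (fun T => R T b v ∧ (¬ R T b a ∧ ¬ R T b c)) *
            P p E' (insert s(u, y) O) (fun T => ¬ R T b a ∧ ¬ R T b c) ≤
          P p E' (insert s(u, y) O) (fun T => R T b v ∧ (¬ R T b a ∧ ¬ R T b c)) *
            P p E' O (fun T => ¬ R T b a ∧ ¬ R T b c) := by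
        rw [q1]
        have x2 := mul_le_mul_of_nonneg_right x1 hQ
        have r1 := eq_sub_of_add_eq' sx.symm
        have r2 := eq_sub_of_add_eq' sq.symm
        rw [r1] at x2
        rw [r2]
        nlinarith
      refine cross_NA (hp _).1 (hp _).2 (P_nonneg hp _) (P_nonneg hp _) (P_nonneg hp _)
        (P_nonneg hp _) (P_nonneg hp _) ?_ ?_ (ih E' O hcard v)
        (ih E' (insert s(u, y) O) hcard v) hx hy
      · rw [q1]
        exact P_mono hp (fun T _ _ h => h.1)
      · exact P_mono hp (fun T _ _ h => h.2)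

end

end Pool.Agent.Helper156.Perc
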