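import Mathlib

/-!
Bernoulli bond percolation on a finite edge set, by revealing edges one at a time.
-/

namespace Pool.Agent.Helper156.Perc

open Finset

variable {V : Type*} [DecidableEq V]

/-- `x` and `y` are joined by a path of edges of `S`. -/
def R (S : Finset (Sym2 V)) (x y : V) : Prop :=
  (SimpleGraph.fromEdgeSet (S : Set (Sym2 V))).Reachable x y

theorem R.refl (S : Finset (Sym2 V)) (x : V) : R S x x := SimpleGraph.Reachable.refl _

theorem R.symm {S : Finset (Sym2 V)} {x y : V} (h : R S x y) : R S y x :=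
  SimpleGraph.Reachable.symm h

theorem R.trans {S : Finset (Sym2 V)} {x y z : V} (h : R S x y) (h' : R S y z) : R S x z :=
  SimpleGraph.Reachable.trans h h'

theorem R.mono {S T : Finset (Sym2 V)} (h : S ⊆ T) {x y : V} (hr : R S x y) : R T x y := by
  unfold R at *
  refine SimpleGraph.Reachable.mono ?_ hr
  apply SimpleGraph.fromEdgeSet_mono
  exact_mod_cast h

theorem R_edge {S : Finset (Sym2 V)} {x y : V} (h : s(x, y) ∈ S) : R S x y := by
  by_cases hxy : x = y
  · subst hxy; exact R.refl _ _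
  · apply SimpleGraph.Adj.reachable
    rw [SimpleGraph.fromEdgeSet_adj]
    exact ⟨by exact_mod_cast h, hxy⟩

theorem R_induct {S : Finset (Sym2 V)} {x : V} {Q : V → Prop} (h0 : Q x)
    (hs : ∀ y z, Q y → s(y, z) ∈ S → Q z) {w : V} (h : R S x w) : Q w := by
  unfold R at h
  rw [SimpleGraph.reachable_iff_reflTransGen] at h
  induction h with
  | refl => exact h0
  | tail _ hadj ih =>
    rw [SimpleGraph.fromEdgeSet_adj] at hadj
    exact hs _ _ ih (by exact_mod_cast hadj.1)

theorem R_insert {S : Finset (Sym2 V)} {u z x y : V} :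
    R (insert s(u, z) S) x y ↔ R S x y ∨ (R S x u ∧ R S z y) ∨ (R S x z ∧ R S u y) := by
  constructor
  · intro h
    refine R_induct (Q := fun y => R S x y ∨ (R S x u ∧ R S z y) ∨ (R S x z ∧ R S u y))
      (Or.inl (R.refl _ _)) ?_ h
    intro w w' hw hedge
    rw [Finset.mem_insert] at hedge
    rcases hedge with hedge | hedge
    · rw [Sym2.eq_iff] at hedge
      rcases hedge with ⟨rfl, rfl⟩ | ⟨rfl, rfl⟩
      · rcases hw with hw | ⟨h1, h2⟩ | ⟨h1, h2⟩
        · exact Or.inr (Or.inl ⟨hw, R.refl _ _⟩)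
        · exact Or.inr (Or.inl ⟨h1, R.refl _ _⟩)
        · exact Or.inl h1
      · rcases hw with hw | ⟨h1, h2⟩ | ⟨h1, h2⟩
        · exact Or.inr (Or.inr ⟨hw, R.refl _ _⟩)
        · exact Or.inl h1
        · exact Or.inr (Or.inr ⟨h1, R.refl _ _⟩)
    · have he := R_edge hedge
      rcases hw with hw | ⟨h1, h2⟩ | ⟨h1, h2⟩
      · exact Or.inl (hw.trans he)
      · exact Or.inr (Or.inl ⟨h1, h2.trans he⟩)
      · exact Or.inr (Or.inr ⟨h1, h2.trans he⟩)
  · have hsub : S ⊆ insert s(u, z) S := Finset.subset_insert _ _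
    have he : R (insert s(u, z) S) u z := R_edge (Finset.mem_insert_self _ _)
    rintro (h | ⟨h1, h2⟩ | ⟨h1, h2⟩)
    · exact h.mono hsub
    · exact ((h1.mono hsub).trans he).trans (h2.mono hsub)
    · exact ((h1.mono hsub).trans he.symm).trans (h2.mono hsub)

/-- inserting an edge at the cluster of `a`. -/
theorem ins_a {T : Finset (Sym2 V)} {a u y x : V} (hau : R T a u) :
    R (insert s(u, y) T) a x ↔ R T a x ∨ R T y x := by
  rw [R_insert]
  constructor
  · rintro (h | ⟨h1, h2⟩ | ⟨h1, h2⟩)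
    · exact Or.inl h
    · exact Or.inr h2
    · exact Or.inl (hau.trans h2)
  · rintro (h | h)
    · exact Or.inl h
    · exact Or.inr (Or.inl ⟨hau, h⟩)

theorem ins_c {T : Finset (Sym2 V)} {a u y c v : V} (hau : R T a u)
    (h1 : ¬ R T a c) (h2 : ¬ R T y c) :
    R (insert s(u, y) T) c v ↔ R T c v := by
  rw [R_insert]
  constructor
  · rintro (h | ⟨h3, h4⟩ | ⟨h3, h4⟩)
    · exact h
    · exact absurd (hau.trans h3.symm) h1
    · exact absurd h3.symm h2
  · intro h; exact Or.inl h

theorem ins_bc {T : Finset (Sym2 V)} {a u y b c : V} (hau : R T a u) :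
    R (insert s(u, y) T) b c ↔ R T b c ∨ (R T a b ∧ R T y c) ∨ (R T y b ∧ R T a c) := by
  rw [R_insert]
  constructor
  · rintro (h | ⟨h3, h4⟩ | ⟨h3, h4⟩)
    · exact Or.inl h
    · exact Or.inr (Or.inl ⟨hau.trans h3.symm, h4⟩)
    · exact Or.inr (Or.inr ⟨h3.symm, hau.trans h4⟩)
  · rintro (h | ⟨h3, h4⟩ | ⟨h3, h4⟩)
    · exact Or.inl h
    · exact Or.inr (Or.inl ⟨h3.symm.trans hau, h4⟩)
    · exact Or.inr (Or.inr ⟨h3.symm, hau.symm.trans h4⟩)

/-- expectation of `F (O ∪ S)` for a random subset `S` of `E`. -/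
noncomputable def Ev (p : Sym2 V → ℝ) (E O : Finset (Sym2 V)) (F : Finset (Sym2 V) → ℝ) : ℝ :=
  ∑ S ∈ E.powerset, ((∏ e ∈ S, p e) * ∏ e ∈ E \ S, (1 - p e)) * F (O ∪ S)

theorem Ev_insert (p : Sym2 V → ℝ) {E : Finset (Sym2 V)} {e : Sym2 V} (he : e ∉ E)
    (O : Finset (Sym2 V)) (F : Finset (Sym2 V) → ℝ) :
    Ev p (insert e E) O F = p e * Ev p E (insert e O) F + (1 - p e) * Ev p E O F := by
  unfold Ev
  rw [Finset.sum_powerset_insert he, add_comm, Finset.mul_sum, Finset.mul_sum]
  congr 1
  · apply Finset.sum_congr rfl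
    intro S hS
    rw [Finset.mem_powerset] at hS
    have heS : e ∉ S := fun h => he (hS h)
    rw [Finset.prod_insert heS, Finset.insert_sdiff_insert, Finset.sdiff_insert_of_notMem he,
      Finset.union_insert, Finset.insert_union]
    ring
  · apply Finset.sum_congr rfl
    intro S hS
    rw [Finset.mem_powerset] at hS
    have heS : e ∉ S := fun h => he (hS h)
    rw [Finset.insert_sdiff_of_notMem _ heS, Finset.prod_insert]
    · ring
    · intro h; exact he (Finset.mem_sdiff.mp h).1

theorem Ev_open (p : Sym2 V → ℝ) (E O : Finset (Sym2 V)) (e : Sym2 V)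
    (F : Finset (Sym2 V) → ℝ) :
    Ev p E (insert e O) F = Ev p E O (fun T => F (insert e T)) := by
  unfold Ev
  simp only [Finset.insert_union]

theorem Ev_step (p : Sym2 V → ℝ) {E : Finset (Sym2 V)} {e : Sym2 V} (he : e ∈ E)
    (O : Finset (Sym2 V)) (F : Finset (Sym2 V) → ℝ) :
    Ev p E O F = p e * Ev p (E.erase e) (insert e O) F + (1 - p e) * Ev p (E.erase e) O F := by
  conv_lhs => rw [← Finset.insert_erase he]
  exact Ev_insert p (Finset.notMem_erase e E) O F

theorem Ev_add (p : Sym2 V → ℝ) (E O : Finset (Sym2 V)) (F G : Finset (Sym2 V) → ℝ) :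
    Ev p E O (fun T => F T + G T) = Ev p E O F + Ev p E O G := by
  unfold Ev
  rw [← Finset.sum_add_distrib]
  exact Finset.sum_congr rfl (fun S _ => by ring)

theorem Ev_one (p : Sym2 V → ℝ) (E : Finset (Sym2 V)) :
    ∀ O : Finset (Sym2 V), Ev p E O (fun _ => 1) = 1 := by
  induction E using Finset.induction_on with
  | empty => intro O; simp [Ev]
  | insert e E he ih => intro O; rw [Ev_insert p he, ih, ih]; ring

theorem Ev_mono {p : Sym2 V → ℝ} (hp : ∀ e, 0 ≤ p e ∧ p e ≤ 1) {E O : Finset (Sym2 V)}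
    {F G : Finset (Sym2 V) → ℝ} (h : ∀ T, O ⊆ T → T ⊆ O ∪ E → F T ≤ G T) :
    Ev p E O F ≤ Ev p E O G := by
  unfold Ev
  apply Finset.sum_le_sum
  intro S hS
  rw [Finset.mem_powerset] at hS
  apply mul_le_mul_of_nonneg_left (h _ Finset.subset_union_left
    (Finset.union_subset_union_right hS))
  exact mul_nonneg (Finset.prod_nonneg (fun e _ => (hp e).1))
    (Finset.prod_nonneg (fun e _ => by linarith [(hp e).2]))

open Classical in
/-- probability of an event. -/
noncomputable def P (p : Sym2 V → ℝ) (E O : Finset (Sym2 V)) (A : Finset (Sym2 V) → Prop) : ℝ :=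
  Ev p E O (fun T => if A T then 1 else 0)

section
variable {p : Sym2 V → ℝ} (hp : ∀ e, 0 ≤ p e ∧ p e ≤ 1) {E O : Finset (Sym2 V)}
include hp

theorem P_mono {A B : Finset (Sym2 V) → Prop}
    (h : ∀ T, O ⊆ T → T ⊆ O ∪ E → A T → B T) : P p E O A ≤ P p E O B := by
  classical
  unfold P
  apply Ev_mono hp
  intro T hT hT'
  by_cases hA : A T
  · simp [hA, h T hT hT' hA]
  · simp only [hA, if_false]
    split_ifs <;> norm_num

theorem P_congr {A B : Finset (Sym2 V) → Prop}
    (h : ∀ T, O ⊆ T → T ⊆ O ∪ E → (A T ↔ B T)) : P p E O A = P p E O B :=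
  le_antisymm (P_mono hp fun T h1 h2 => (h T h1 h2).1) (P_mono hp fun T h1 h2 => (h T h1 h2).2)

omit hp in
theorem P_true : P p E O (fun _ => True) = 1 := by
  classical
  unfold P
  simp [Ev_one]

omit hp in
theorem P_false : P p E O (fun _ => False) = 0 := by
  classical
  unfold P
  simp [Ev]

theorem P_nonneg (A : Finset (Sym2 V) → Prop) : 0 ≤ P p E O A := by
  rw [← P_false (p := p) (E := E) (O := O)]
  exact P_mono hp (fun T _ _ h => h.elim)

theorem P_le_one (A : Finset (Sym2 V) → Prop) : P p E O A ≤ 1 := by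
  rw [← P_true (p := p) (E := E) (O := O)]
  exact P_mono hp (fun T _ _ _ => trivial)

omit hp in
theorem P_split (A B : Finset (Sym2 V) → Prop) :
    P p E O A = P p E O (fun T => A T ∧ B T) + P p E O (fun T => A T ∧ ¬ B T) := by
  classical
  unfold P
  rw [← Ev_add]
  congr 1
  funext T
  by_cases hA : A T <;> by_cases hB : B T <;> simp [hA, hB]

/-- union bound -/
theorem P_or_le (A B : Finset (Sym2 V) → Prop) :
    P p E O (fun T => A T ∨ B T) ≤ P p E O A + P p E O B := by
  rw [P_split (fun T => A T ∨ B T) A]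
  have h1 : P p E O (fun T => (A T ∨ B T) ∧ A T) ≤ P p E O A :=
    P_mono hp (fun T _ _ h => h.2)
  have h2 : P p E O (fun T => (A T ∨ B T) ∧ ¬ A T) ≤ P p E O B :=
    P_mono hp (fun T _ _ h => h.1.resolve_left h.2)
  linarith

omit hp in
theorem P_step {e : Sym2 V} (he : e ∈ E) (A : Finset (Sym2 V) → Prop) :
    P p E O A = p e * P p (E.erase e) (insert e O) A + (1 - p e) * P p (E.erase e) O A := by
  unfold P
  exact Ev_step p he O _

omit hp in
theorem P_open (e : Sym2 V) (A : Finset (Sym2 V) → Prop) :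
    P p E (insert e O) A = P p E O (fun T => A (insert e T)) := by
  unfold P
  rw [Ev_open]

end

/-- Harris inequality. -/
theorem harris {p : Sym2 V → ℝ} (hp : ∀ e, 0 ≤ p e ∧ p e ≤ 1) (E : Finset (Sym2 V)) :
    ∀ (O : Finset (Sym2 V)) (A B : Finset (Sym2 V) → Prop)
      (_ : ∀ S T, S ⊆ T → A S → A T) (_ : ∀ S T, S ⊆ T → B S → B T),
      P p E O A * P p E O B ≤ P p E O (fun T => A T ∧ B T) := by
  induction E using Finset.induction_on with
  | empty =>
    intro O A B _ _
    classical
    simp only [P, Ev, Finset.powerset_empty, Finset.sum_singleton, Finset.prod_empty,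
      Finset.sdiff_self, Finset.union_empty, one_mul]
    by_cases hA : A O <;> by_cases hB : B O <;> simp [hA, hB]
  | insert e E he ih =>
    intro O A B hA hB
    have hmem : e ∈ insert e E := Finset.mem_insert_self _ _
    have herase : (insert e E).erase e = E := Finset.erase_insert he
    rw [P_step hmem A, P_step hmem B, P_step hmem (fun T => A T ∧ B T), herase]
    have h1 := ih (insert e O) A B hA hB
    have h0 := ih O A B hA hB
    have hAm : P p E O A ≤ P p E (insert e O) A := by
      rw [P_open]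
      exact P_mono hp (fun T _ _ h => hA _ _ (Finset.subset_insert _ _) h)
    have hBm : P p E O B ≤ P p E (insert e O) B := by
      rw [P_open]
      exact P_mono hp (fun T _ _ h => hB _ _ (Finset.subset_insert _ _) h)
    have hpe := hp e
    have hkey : 0 ≤ p e * (1 - p e) * ((P p E (insert e O) A - P p E O A) *
        (P p E (insert e O) B - P p E O B)) :=
      mul_nonneg (mul_nonneg hpe.1 (by linarith)) (mul_nonneg (by linarith) (by linarith))
    nlinarith [mul_le_mul_of_nonneg_left h1 hpe.1,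
      mul_le_mul_of_nonneg_left h0 (by linarith [hpe.2] : (0:ℝ) ≤ 1 - p e)]

end Pool.Agent.Helper156.Perc
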