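import Pool.Agent.Helper156.PercBHK2

/-!
Bellman-function induction for the covariance of `a ↔ c` and `b ↔ c`.
-/

set_option linter.unusedSectionVars false

namespace Pool.Agent.Helper156.Perc

open Finset

variable {V : Type*} [DecidableEq V]

/-- The Bellman function for the covariance. -/
noncomputable def B2 (l κ s x : ℝ) : ℝ :=
  l + κ + 2 * (s / κ) + 5 * κ / (2 * l ^ 2) * (x * (1 - x)) + 1 / (2 * κ) * (s * (1 - s))

theorem B2_nonneg {l κ s x : ℝ} (hl : 0 < l) (hκ : 0 < κ) (hs : 0 ≤ s) (hs1 : s ≤ 1)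
    (hx0 : 0 ≤ x) (hx1 : x ≤ 1) : 0 ≤ B2 l κ s x := by
  unfold B2
  have h1 : 0 ≤ x * (1 - x) := mul_nonneg hx0 (by linarith)
  have h2 : 0 ≤ s * (1 - s) := mul_nonneg hs (by linarith)
  positivity

theorem piv_arith {l κ φ d t1 t2 : ℝ} (hl : 0 < l) (hl1 : l ≤ 1) (hκ : 0 < κ)
    (hφ : 0 ≤ φ) (h1 : l * t1 ≤ κ * φ) (h2 : l * t2 ≤ |d| + t1) :
    φ * (t1 + t2) ≤ 5 * κ / (2 * l ^ 2) * φ ^ 2 + 1 / (2 * κ) * d ^ 2 := by
  have e0 : 0 ≤ 2 * κ * l * φ := by positivity
  have e1 := mul_le_mul_of_nonneg_left h1 e0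
  have e2 := mul_le_mul_of_nonneg_left h2 e0
  have e3 : 2 * κ * φ * (l * t1) ≤ 2 * κ * φ * (κ * φ) :=
    mul_le_mul_of_nonneg_left h1 (by positivity)
  have e4 : 2 * κ * l * φ * |d| ≤ κ ^ 2 * φ ^ 2 + l ^ 2 * d ^ 2 := by
    have := sq_nonneg (κ * φ - l * |d|)
    have hd : |d| ^ 2 = d ^ 2 := sq_abs d
    nlinarith
  have e5 : 2 * κ * l * φ * (κ * φ) ≤ 2 * κ ^ 2 * φ ^ 2 := by
    have : l * (2 * κ ^ 2 * φ ^ 2) ≤ 1 * (2 * κ ^ 2 * φ ^ 2) :=
      mul_le_mul_of_nonneg_right hl1 (by positivity)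
    nlinarith
  have key : (2 * κ * l ^ 2) * (φ * (t1 + t2)) ≤ 5 * κ ^ 2 * φ ^ 2 + l ^ 2 * d ^ 2 := by
    nlinarith
  have hpos : 0 < 2 * κ * l ^ 2 := by positivity
  have heq : 5 * κ / (2 * l ^ 2) * φ ^ 2 + 1 / (2 * κ) * d ^ 2 =
      (5 * κ ^ 2 * φ ^ 2 + l ^ 2 * d ^ 2) / (2 * κ * l ^ 2) := by
    field_simp
  rw [heq, le_div_iff₀ hpos]
  linarith

theorem bell2 {p l κ s0 s1 x0 x1 w0 w1 α0 α1 β0 β1 t1 t2 : ℝ}
    (hp0 : 0 ≤ p) (hp1 : p ≤ 1) (hl : 0 < l) (hl1 : l ≤ 1) (hκ : 0 < κ)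
    (hs0 : 0 ≤ s0) (hs1 : 0 ≤ s1) (hs0' : s0 ≤ 1) (hs1' : s1 ≤ 1)
    (hx0 : 0 ≤ x0) (hx : x0 ≤ x1) (hx1 : x1 ≤ 1)
    (hw0 : 0 ≤ w0) (hw : w0 ≤ w1) (hw1 : w1 ≤ 1)
    (hα0 : α0 ≤ 1) (hα1 : α1 ≤ 1) (hβ : β1 ≤ β0)
    (id0 : α0 + 1 = x0 + w0 + β0 + s0) (id1 : α1 + 1 = x1 + w1 + β1 + s1)
    (ht1 : 0 ≤ t1) (ht2 : 0 ≤ t2)
    (hθ : w1 - w0 ≤ t1 + t2) (h1 : t1 * β0 ≤ s0 * (x1 - x0)) (h2 : t2 * β0 ≤ s1 - s0 + t1)
    (ih1 : α1 - x1 * w1 ≤ B2 l κ s1 x1) (ih0 : α0 - x0 * w0 ≤ B2 l κ s0 x0) :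
    (p * α1 + (1 - p) * α0) - (p * x1 + (1 - p) * x0) * (p * w1 + (1 - p) * w0) ≤
      B2 l κ (p * s1 + (1 - p) * s0) (p * x1 + (1 - p) * x0) := by
  have hq : 0 ≤ 1 - p := by linarith
  have hpq : 0 ≤ p * (1 - p) := mul_nonneg hp0 hq
  have mix_le : ∀ {a b c : ℝ}, a ≤ c → b ≤ c → p * a + (1 - p) * b ≤ c := by
    intro a b c ha hb
    have k1 := mul_le_mul_of_nonneg_left ha hp0
    have k2 := mul_le_mul_of_nonneg_left hb hq
    linarith
  have mix_ge : ∀ {a b c : ℝ}, c ≤ a → c ≤ b → c ≤ p * a + (1 - p) * b := by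
    intro a b c ha hb
    have k1 := mul_le_mul_of_nonneg_left ha hp0
    have k2 := mul_le_mul_of_nonneg_left hb hq
    linarith
  have hD : (p * α1 + (1 - p) * α0) - (p * x1 + (1 - p) * x0) * (p * w1 + (1 - p) * w0) =
      p * (α1 - x1 * w1) + (1 - p) * (α0 - x0 * w0) +
        p * (1 - p) * ((x1 - x0) * (w1 - w0)) := by ring
  have hid : (p * α1 + (1 - p) * α0) + 1 = (p * x1 + (1 - p) * x0) + (p * w1 + (1 - p) * w0) +
      (p * β1 + (1 - p) * β0) + (p * s1 + (1 - p) * s0) := by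
    have k1 : p * α1 = p * (x1 + w1 + β1 + s1 - 1) := by rw [← id1]; ring
    have k0 : (1 - p) * α0 = (1 - p) * (x0 + w0 + β0 + s0 - 1) := by rw [← id0]; ring
    rw [k1, k0]; ring
  have hβle : p * β1 + (1 - p) * β0 ≤ β0 := mix_le hβ le_rfl
  have hRx : p * (x1 * (1 - x1)) + (1 - p) * (x0 * (1 - x0)) =
      (p * x1 + (1 - p) * x0) * (1 - (p * x1 + (1 - p) * x0)) -
        p * (1 - p) * (x1 - x0) ^ 2 := by ring
  have hRs : p * (s1 * (1 - s1)) + (1 - p) * (s0 * (1 - s0)) =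
      (p * s1 + (1 - p) * s0) * (1 - (p * s1 + (1 - p) * s0)) -
        p * (1 - p) * (s1 - s0) ^ 2 := by ring
  have hSs : p * (s1 / κ) + (1 - p) * (s0 / κ) = (p * s1 + (1 - p) * s0) / κ := by ring
  have hα : p * α1 + (1 - p) * α0 ≤ 1 := mix_le hα1 hα0
  have hs_nn : 0 ≤ p * s1 + (1 - p) * s0 := mix_ge hs1 hs0
  have hs_le : p * s1 + (1 - p) * s0 ≤ 1 := mix_le hs1' hs0'
  have hx_nn : 0 ≤ p * x1 + (1 - p) * x0 := mix_ge (le_trans hx0 hx) hx0
  have hx_le : p * x1 + (1 - p) * x0 ≤ 1 := mix_le hx1 (le_trans hx hx1)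
  have hw_nn : 0 ≤ p * w1 + (1 - p) * w0 := mix_ge (le_trans hw0 hw) hw0
  have hw_le : p * w1 + (1 - p) * w0 ≤ 1 := mix_le hw1 (le_trans hw hw1)
  rw [hD]
  set s := p * s1 + (1 - p) * s0 with hs
  set x := p * x1 + (1 - p) * x0 with hxdef
  set w := p * w1 + (1 - p) * w0 with hwdef
  set β := p * β1 + (1 - p) * β0 with hβdef
  set α := p * α1 + (1 - p) * α0 with hαdef
  rw [← hD]
  have hA1 : 0 ≤ 5 * κ / (2 * l ^ 2) := by positivity
  have hA2 : 0 ≤ 1 / (2 * κ) := by positivity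
  have hX : 0 ≤ x * (1 - x) := mul_nonneg hx_nn (by linarith)
  have hS : 0 ≤ s * (1 - s) := mul_nonneg hs_nn (by linarith)
  have hX' : 0 ≤ 5 * κ / (2 * l ^ 2) * (x * (1 - x)) := mul_nonneg hA1 hX
  have hS' : 0 ≤ 1 / (2 * κ) * (s * (1 - s)) := mul_nonneg hA2 hS
  by_cases hA : κ ≤ s
  · have k1 : 1 ≤ s / κ := by rw [le_div_iff₀ hκ]; linarith
    have k2 : 0 ≤ x * w := mul_nonneg hx_nn hw_nn
    unfold B2
    linarith
  by_cases hB : β ≤ l
  · have k1 : 0 ≤ (1 - x) * (1 - w) := mul_nonneg (by linarith) (by linarith)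
    have k2 : α - x * w = β + s - (1 - x) * (1 - w) := by
      have : α = x + w + β + s - 1 := by linarith
      rw [this]; ring
    have k3 : 0 ≤ s / κ := div_nonneg hs_nn hκ.le
    push Not at hA
    unfold B2
    rw [k2]
    linarith
  push Not at hA hB
  have hβ0 : l < β0 := lt_of_lt_of_le hB hβle
  rw [hD]
  have ih1' := mul_le_mul_of_nonneg_left ih1 hp0
  have ih0' := mul_le_mul_of_nonneg_left ih0 hq
  have hφ : 0 ≤ x1 - x0 := by linarith
  have hθ0 : 0 ≤ w1 - w0 := by linarith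
  unfold B2 at ih1' ih0' ⊢
  set μ := 5 * κ / (2 * l ^ 2) with hμ
  set ρ := 1 / (2 * κ) with hρ
  have h14 : p * (l + κ + 2 * (s1 / κ) + μ * (x1 * (1 - x1)) + ρ * (s1 * (1 - s1))) =
      p * (l + κ) + 2 * (p * (s1 / κ)) + μ * (p * (x1 * (1 - x1))) +
        ρ * (p * (s1 * (1 - s1))) := by ring
  rw [h14] at ih1'
  by_cases hC : κ ≤ s0
  · have k1 : 1 ≤ s0 / κ := by rw [le_div_iff₀ hκ]; linarith
    have k2 : (1 - p) * (α0 - x0 * w0) ≤ (1 - p) * 1 := by
      apply mul_le_mul_of_nonneg_left _ hq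
      have := mul_nonneg hx0 hw0
      linarith
    have k3 : p * (1 - p) * ((x1 - x0) * (w1 - w0)) ≤ (1 - p) * 1 := by
      have m1 : (x1 - x0) * (w1 - w0) ≤ 1 := by
        have : (x1 - x0) * (w1 - w0) ≤ 1 * 1 :=
          mul_le_mul (by linarith) (by linarith) hθ0 (by norm_num)
        linarith
      have m2 : 0 ≤ (x1 - x0) * (w1 - w0) := mul_nonneg hφ hθ0
      calc p * (1 - p) * ((x1 - x0) * (w1 - w0)) =
          (1 - p) * (p * ((x1 - x0) * (w1 - w0))) := by ring
        _ ≤ (1 - p) * 1 := mul_le_mul_of_nonneg_left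
            (le_trans (mul_le_of_le_one_left m2 hp1) m1) hq
    have k4 : (1 - p) * 2 ≤ 2 * ((1 - p) * (s0 / κ)) := by
      have := mul_le_mul_of_nonneg_left k1 hq
      linarith
    have k5 : μ * (p * (x1 * (1 - x1))) ≤ μ * (x * (1 - x)) := by
      apply mul_le_mul_of_nonneg_left _ hA1
      have m1 : 0 ≤ (1 - p) * (x0 * (1 - x0)) :=
        mul_nonneg hq (mul_nonneg hx0 (by linarith))
      have m2 : 0 ≤ p * (1 - p) * (x1 - x0) ^ 2 := mul_nonneg hpq (sq_nonneg _)
      linarith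
    have k6 : ρ * (p * (s1 * (1 - s1))) ≤ ρ * (s * (1 - s)) := by
      apply mul_le_mul_of_nonneg_left _ hA2
      have m1 : 0 ≤ (1 - p) * (s0 * (1 - s0)) :=
        mul_nonneg hq (mul_nonneg hs0 (by linarith))
      have m2 : 0 ≤ p * (1 - p) * (s1 - s0) ^ 2 := mul_nonneg hpq (sq_nonneg _)
      linarith
    have k7 : p * (l + κ) ≤ l + κ := mul_le_of_le_one_left (by linarith) hp1
    linarith
  · push Not at hC
    have m1 : l * t1 ≤ κ * (x1 - x0) := by
      have n1 : l * t1 ≤ β0 * t1 := mul_le_mul_of_nonneg_right hβ0.le ht1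
      have n2 : s0 * (x1 - x0) ≤ κ * (x1 - x0) := mul_le_mul_of_nonneg_right hC.le hφ
      linarith
    have m2 : l * t2 ≤ |s1 - s0| + t1 := by
      have n1 : l * t2 ≤ β0 * t2 := mul_le_mul_of_nonneg_right hβ0.le ht2
      have n2 := le_abs_self (s1 - s0)
      linarith
    have m3 := piv_arith hl hl1 hκ hφ m1 m2
    rw [← hμ, ← hρ] at m3
    have m4 : (x1 - x0) * (w1 - w0) ≤ (x1 - x0) * (t1 + t2) := mul_le_mul_of_nonneg_left hθ hφ
    have m5 := mul_le_mul_of_nonneg_left (le_trans m4 m3) hpq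
    have h15 : (1 - p) * (l + κ + 2 * (s0 / κ) + μ * (x0 * (1 - x0)) + ρ * (s0 * (1 - s0))) =
        (1 - p) * (l + κ) + 2 * ((1 - p) * (s0 / κ)) + μ * ((1 - p) * (x0 * (1 - x0))) +
          ρ * ((1 - p) * (s0 * (1 - s0))) := by ring
    rw [h15] at ih0'
    have m6 : μ * (p * (x1 * (1 - x1))) + μ * ((1 - p) * (x0 * (1 - x0))) =
        μ * (x * (1 - x)) - p * (1 - p) * (μ * (x1 - x0) ^ 2) := by
      rw [← mul_add, hRx]; ring
    have m7 : ρ * (p * (s1 * (1 - s1))) + ρ * ((1 - p) * (s0 * (1 - s0))) =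
        ρ * (s * (1 - s)) - p * (1 - p) * (ρ * (s1 - s0) ^ 2) := by
      rw [← mul_add, hRs]; ring
    linarith

section
variable {p : Sym2 V → ℝ} (hp : ∀ e, 0 ≤ p e ∧ p e ≤ 1)
include hp

/-- `P(abc) + 1 = P(ac) + P(bc) + P(a|b|c) + P(ab|c)`. -/
theorem incl_excl (a b c : V) (E O : Finset (Sym2 V)) :
    P p E O (fun T => R T a b ∧ R T a c) + 1 =
      P p E O (fun T => R T a c) + P p E O (fun T => R T b c) +
        P p E O (fun T => ¬ R T a b ∧ ¬ R T a c ∧ ¬ R T b c) +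
        P p E O (fun T => R T a b ∧ ¬ R T a c) := by
  have h1 : (1:ℝ) = P p E O (fun T => R T a c) + P p E O (fun T => ¬ R T a c) := by
    have := P_split (p := p) (E := E) (O := O) (fun _ => True) (fun T => R T a c)
    rw [P_true] at this
    simpa only [true_and] using this
  have h2 := P_split (p := p) (E := E) (O := O) (fun T => ¬ R T a c) (fun T => R T a b)
  have h3 := P_split (p := p) (E := E) (O := O) (fun T => ¬ R T a c ∧ ¬ R T a b)
    (fun T => R T b c)
  have h4 := P_split (p := p) (E := E) (O := O) (fun T => R T b c) (fun T => R T a b)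
  have c1 : P p E O (fun T => ¬ R T a c ∧ R T a b) = P p E O (fun T => R T a b ∧ ¬ R T a c) :=
    P_congr hp (fun T _ _ => by tauto)
  have c2 : P p E O (fun T => (¬ R T a c ∧ ¬ R T a b) ∧ ¬ R T b c) =
      P p E O (fun T => ¬ R T a b ∧ ¬ R T a c ∧ ¬ R T b c) :=
    P_congr hp (fun T _ _ => by tauto)
  have c3 : P p E O (fun T => R T b c ∧ R T a b) = P p E O (fun T => R T a b ∧ R T a c) := by
    apply P_congr hp
    intro T _ _
    exact ⟨fun h => ⟨h.2, h.2.trans h.1⟩, fun h => ⟨h.1.symm.trans h.2, h.1⟩⟩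
  have c4 : P p E O (fun T => (¬ R T a c ∧ ¬ R T a b) ∧ R T b c) =
      P p E O (fun T => R T b c ∧ ¬ R T a b) := by
    apply P_congr hp
    intro T _ _
    constructor
    · exact fun h => ⟨h.2, h.1.2⟩
    · exact fun h => ⟨⟨fun h' => h.2 (h'.trans h.1.symm), h.2⟩, h.1⟩
  rw [c1] at h2
  rw [c2, c4] at h3
  rw [c3] at h4
  linarith

theorem cov_base {l κ : ℝ} (hl : 0 < l) (hκ : 0 < κ) (a b c : V) (E O : Finset (Sym2 V))
    (hb : ∀ e ∈ E, ∀ u ∈ e, ¬ R O a u) :
    P p E O (fun T => R T a b ∧ R T a c) -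
        P p E O (fun T => R T a c) * P p E O (fun T => R T b c) ≤
      B2 l κ (P p E O (fun T => R T a b ∧ ¬ R T a c)) (P p E O (fun T => R T a c)) := by
  have hnn := B2_nonneg (l := l) (κ := κ)
    (s := P p E O (fun T => R T a b ∧ ¬ R T a c)) (x := P p E O (fun T => R T a c)) hl hκ
    (P_nonneg hp _) (P_le_one hp _) (P_nonneg hp _) (P_le_one hp _)
  refine le_trans ?_ hnn
  by_cases hac : R O a c
  · have h1 : P p E O (fun T => R T a c) = 1 := by
      rw [← P_true (p := p) (E := E) (O := O)]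
      exact P_congr hp (fun T hT _ => ⟨fun _ => trivial, fun _ => hac.mono hT⟩)
    have h2 : P p E O (fun T => R T a b ∧ R T a c) ≤ P p E O (fun T => R T b c) :=
      P_mono hp (fun T _ _ h => h.1.symm.trans h.2)
    rw [h1]
    linarith
  · have hz : P p E O (fun T => R T a b ∧ R T a c) = 0 := by
      rw [← P_false (p := p) (E := E) (O := O)]
      apply P_congr hp
      intro T hT hT'
      simp only [R_base hb hT hT' c]
      tauto
    rw [hz]
    have := mul_nonneg (P_nonneg (E := E) (O := O) hp (fun T => R T a c))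
      (P_nonneg (E := E) (O := O) hp (fun T => R T b c))
    linarith

theorem cov_ineq {l κ : ℝ} (hl : 0 < l) (hl1 : l ≤ 1) (hκ : 0 < κ) (a b c : V) :
    ∀ (n : ℕ) (E O : Finset (Sym2 V)), E.card = n →
      P p E O (fun T => R T a b ∧ R T a c) -
          P p E O (fun T => R T a c) * P p E O (fun T => R T b c) ≤
        B2 l κ (P p E O (fun T => R T a b ∧ ¬ R T a c)) (P p E O (fun T => R T a c)) := by
  intro n
  induction n with
  | zero =>
    intro E O hE
    rw [Finset.card_eq_zero] at hE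
    subst hE
    exact cov_base hp hl hκ a b c ∅ O (by simp)
  | succ n ih =>
    intro E O hE
    by_cases hb : ∀ e ∈ E, ∀ u ∈ e, ¬ R O a u
    · exact cov_base hp hl hκ a b c E O hb
    · push Not at hb
      obtain ⟨e, heE, u, hue, hau⟩ := hb
      obtain ⟨y, rfl⟩ : ∃ y, e = s(u, y) := Sym2.mem_iff_exists.mp hue
      have hcard : (E.erase s(u, y)).card = n := by
        rw [Finset.card_erase_of_mem heE, hE]; rfl
      set E' := E.erase s(u, y) with hE'
      have hau' : ∀ T, O ⊆ T → R T a u := fun T hT => hau.mono hT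
      rw [P_step heE (fun T => R T a b ∧ R T a c), P_step heE (fun T => R T a b ∧ ¬ R T a c),
        P_step heE (fun T => R T b c), P_step heE (fun T => R T a c), ← hE']
      have hmonoR : ∀ v w : V, P p E' O (fun T => R T v w) ≤
          P p E' (insert s(u, y) O) (fun T => R T v w) := by
        intro v w
        rw [P_open]
        exact P_mono hp (fun T _ _ h => h.mono (Finset.subset_insert _ _))
      have hsepm : P p E' (insert s(u, y) O) (fun T => ¬ R T a b ∧ ¬ R T a c ∧ ¬ R T b c) ≤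
          P p E' O (fun T => ¬ R T a b ∧ ¬ R T a c ∧ ¬ R T b c) := by
        rw [P_open]
        refine P_mono hp (fun T _ _ h => ?_)
        have hs := Finset.subset_insert s(u, y) T
        exact ⟨fun h' => h.1 (h'.mono hs), fun h' => h.2.1 (h'.mono hs),
          fun h' => h.2.2 (h'.mono hs)⟩
      have id1 := incl_excl hp a b c E' (insert s(u, y) O)
      have id0 := incl_excl hp a b c E' O
      -- increments
      have hc1 : P p E' (insert s(u, y) O) (fun T => R T a c) =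
          P p E' O (fun T => R T a c) + P p E' O (fun T => R T c y ∧ ¬ R T a c) := by
        rw [P_open, P_split (fun T => R (insert s(u, y) T) a c) (fun T => R T a c)]
        congr 1
        · apply P_congr hp
          intro T h1 _
          simp only [ins_a (hau' T h1)]
          tauto
        · apply P_congr hp
          intro T h1 _
          have hh : R T y c ↔ R T c y := ⟨R.symm, R.symm⟩
          simp only [ins_a (hau' T h1), hh]
          tauto
      have hw1 : P p E' (insert s(u, y) O) (fun T => R T b c) -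
          P p E' O (fun T => R T b c) ≤
          P p E' O (fun T => (R T a b ∧ R T c y) ∧ ¬ R T a c) +
            P p E' O (fun T => (R T b y ∧ R T a c) ∧ (¬ R T b a ∧ ¬ R T b c)) := by
        have q1 : P p E' (insert s(u, y) O) (fun T => R T b c) ≤
            P p E' O (fun T => R T b c ∨ (((R T a b ∧ R T c y) ∧ ¬ R T a c) ∨
              ((R T b y ∧ R T a c) ∧ (¬ R T b a ∧ ¬ R T b c)))) := by
          rw [P_open]
          apply P_mono hp
          intro T h1 _ h3
          rw [ins_bc (hau' T h1)] at h3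
          by_cases hbc : R T b c
          · exact Or.inl hbc
          · right
            rcases h3 with h3 | ⟨h3, h4⟩ | ⟨h3, h4⟩
            · exact absurd h3 hbc
            · exact Or.inl ⟨⟨h3, h4.symm⟩, fun h5 => hbc (h3.symm.trans h5)⟩
            · exact Or.inr ⟨⟨h3.symm, h4⟩, fun h5 => hbc (h5.trans h4), hbc⟩
        have q2 := P_or_le (E := E') (O := O) hp (fun T => R T b c)
          (fun T => ((R T a b ∧ R T c y) ∧ ¬ R T a c) ∨
              ((R T b y ∧ R T a c) ∧ (¬ R T b a ∧ ¬ R T b c)))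
        have q3 := P_or_le (E := E') (O := O) hp
          (fun T => (R T a b ∧ R T c y) ∧ ¬ R T a c)
          (fun T => (R T b y ∧ R T a c) ∧ (¬ R T b a ∧ ¬ R T b c))
        linarith
      have n1 := NA hp a b c _ E' O rfl y
      have n2 := NA2 hp a b c _ E' O rfl y
      have m1 : P p E' O (fun T => ¬ R T a b ∧ ¬ R T a c ∧ ¬ R T b c) ≤
          P p E' O (fun T => ¬ R T a c) := P_mono hp (fun T _ _ h => h.2.1)
      -- decompositions
      have d1 := P_split (p := p) (E := E') (O := O) (fun T => ¬ R T b a ∧ ¬ R T b c)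
        (fun T => R T a c)
      have d2 := P_split (p := p) (E := E') (O := O)
        (fun T => R T b y ∧ (¬ R T b a ∧ ¬ R T b c)) (fun T => R T a c)
      have g1 : P p E' O (fun T => (¬ R T b a ∧ ¬ R T b c) ∧ R T a c) =
          P p E' O (fun T => R T a c ∧ (¬ R T b a ∧ ¬ R T b c)) :=
        P_congr hp (fun T _ _ => by tauto)
      have g2 : P p E' O (fun T => (¬ R T b a ∧ ¬ R T b c) ∧ ¬ R T a c) =
          P p E' O (fun T => ¬ R T a b ∧ ¬ R T a c ∧ ¬ R T b c) := by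
        apply P_congr hp
        intro T _ _
        have hh : R T b a ↔ R T a b := ⟨R.symm, R.symm⟩
        rw [hh]
        tauto
      have g3 : P p E' O (fun T => (R T b y ∧ (¬ R T b a ∧ ¬ R T b c)) ∧ R T a c) =
          P p E' O (fun T => (R T b y ∧ R T a c) ∧ (¬ R T b a ∧ ¬ R T b c)) :=
        P_congr hp (fun T _ _ => by tauto)
      rw [g1, g2] at d1
      rw [g3] at d2
      -- the increment of P(ab|c)
      have hs1 : P p E' (insert s(u, y) O) (fun T => R T a b ∧ ¬ R T a c) =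
          P p E' O (fun T => (R T a b ∧ ¬ R T a c) ∧ ¬ R T c y) +
            P p E' O (fun T => (R T b y ∧ (¬ R T b a ∧ ¬ R T b c)) ∧ ¬ R T a c) := by
        rw [P_open, P_split (fun T => R (insert s(u, y) T) a b ∧ ¬ R (insert s(u, y) T) a c)
          (fun T => R T a b)]
        congr 1
        · apply P_congr hp
          intro T h1 _
          have hh : R T y c ↔ R T c y := ⟨R.symm, R.symm⟩
          simp only [ins_a (hau' T h1), hh]
          tauto
        · apply P_congr hp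
          intro T h1 _
          have hh : R T y c ↔ R T c y := ⟨R.symm, R.symm⟩
          have hh2 : R T y b ↔ R T b y := ⟨R.symm, R.symm⟩
          have hh3 : R T b a ↔ R T a b := ⟨R.symm, R.symm⟩
          have hh4 : R T b y → (R T b c ↔ R T c y) := fun h =>
            ⟨fun h' => h'.symm.trans h, fun h' => h.trans h'.symm⟩
          simp only [ins_a (hau' T h1), hh, hh2, hh3]
          tauto
      have hs0 := P_split (p := p) (E := E') (O := O) (fun T => R T a b ∧ ¬ R T a c)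
        (fun T => R T c y)
      have g4 : P p E' O (fun T => (R T a b ∧ ¬ R T a c) ∧ R T c y) =
          P p E' O (fun T => (R T a b ∧ R T c y) ∧ ¬ R T a c) :=
        P_congr hp (fun T _ _ => by tauto)
      rw [g4] at hs0
      refine bell2 (t1 := P p E' O (fun T => (R T a b ∧ R T c y) ∧ ¬ R T a c))
        (t2 := P p E' O (fun T => (R T b y ∧ R T a c) ∧ (¬ R T b a ∧ ¬ R T b c)))
        (hp _).1 (hp _).2 hl hl1 hκ
        (P_nonneg hp _) (P_nonneg hp _) (P_le_one hp _) (P_le_one hp _)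
        (P_nonneg hp _) (hmonoR a c) (P_le_one hp _)
        (P_nonneg hp _) (hmonoR b c) (P_le_one hp _) (P_le_one hp _) (P_le_one hp _)
        hsepm id0 id1 (P_nonneg hp _) (P_nonneg hp _) hw1 ?_ ?_
        (ih E' (insert s(u, y) O) hcard) (ih E' O hcard)
      · rw [hc1]
        have z2 := P_nonneg (E := E') (O := O) hp
          (fun T => (R T a b ∧ R T c y) ∧ ¬ R T a c)
        have w1 := le_trans (mul_le_mul_of_nonneg_left m1 z2) n1
        linarith
      · rw [hs1]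
        set β0 := P p E' O (fun T => ¬ R T a b ∧ ¬ R T a c ∧ ¬ R T b c)
        set r0 := P p E' O (fun T => R T a c ∧ (¬ R T b a ∧ ¬ R T b c))
        set t2 := P p E' O (fun T => (R T b y ∧ R T a c) ∧ (¬ R T b a ∧ ¬ R T b c))
        set Δ := P p E' O (fun T => (R T b y ∧ (¬ R T b a ∧ ¬ R T b c)) ∧ ¬ R T a c)
        have z1 : 0 ≤ Δ := P_nonneg hp _
        have z2 : r0 ≤ 1 := P_le_one hp _
        rw [d1, d2] at n2
        have z3 : Δ * r0 ≤ Δ * 1 := mul_le_mul_of_nonneg_left z2 z1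
        have z4 : t2 * β0 ≤ Δ := by nlinarith
        linarith

end

end Pool.Agent.Helper156.Perc
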