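import Pool.Agent.Helper156.PercCov

/-!
Infinite-volume Bernoulli bond percolation as a limit of finite-volume percolation.
-/

namespace Pool.Agent.Helper156.PercInf

open Finset MeasureTheory Helper156.Perc

universe u

/-- The Bernoulli law with parameter `t` on `Bool`. -/
noncomputable def coin (t : unitInterval) : Measure Bool :=
  ENNReal.ofReal (t : ℝ) • Measure.dirac true + ENNReal.ofReal (1 - (t : ℝ)) • Measure.dirac false

instance (t : unitInterval) : IsProbabilityMeasure (coin t) := by
  constructor
  unfold coin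
  have h0 := t.2.1
  have h1 := t.2.2
  simp only [Measure.coe_add, Measure.coe_smul, Pi.add_apply, Pi.smul_apply, measure_univ,
    smul_eq_mul, mul_one]
  rw [← ENNReal.ofReal_add h0 (by linarith)]
  simp

theorem coin_singleton (t : unitInterval) (b : Bool) :
    coin t {b} = ENNReal.ofReal (if b = true then (t : ℝ) else 1 - (t : ℝ)) := by
  unfold coin
  cases b <;> simp

variable {V : Type u} [DecidableEq V] {G : SimpleGraph V}

/-- inclusion of the edges -/
def val (G : SimpleGraph V) : G.edgeSet ↪ Sym2 V := Function.Embedding.subtype _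

/-- the open edges among the finite set `F` -/
def op (F : Finset G.edgeSet) (ω : G.edgeSet → Bool) : Finset (Sym2 V) :=
  (F.filter (fun e => ω e = true)).map (val G)

/-- extension of the edge probabilities -/
noncomputable def ext (p : G.edgeSet → unitInterval) : Sym2 V → ℝ := by
  classical
  exact fun e => if h : e ∈ G.edgeSet then (p ⟨e, h⟩ : ℝ) else 0

theorem ext_val (p : G.edgeSet → unitInterval) (e : G.edgeSet) : ext p (val G e) = (p e : ℝ) := by
  unfold ext val
  simp

theorem ext_mem (p : G.edgeSet → unitInterval) (e : Sym2 V) : 0 ≤ ext p e ∧ ext p e ≤ 1 := by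
  unfold ext
  by_cases h : e ∈ G.edgeSet
  · simp only [h, dite_true]
    exact ⟨(p ⟨e, h⟩).2.1, (p ⟨e, h⟩).2.2⟩
  · simp only [h, dite_false]
    exact ⟨le_refl _, zero_le_one⟩

/-- the cylinder on which exactly the edges of `S` are open among those of `F` -/
def cyl (F S : Finset G.edgeSet) : Set (G.edgeSet → Bool) :=
  Set.pi (F : Set G.edgeSet) (fun e => {decide (e ∈ S)})

theorem mem_cyl {F S : Finset G.edgeSet} (hS : S ⊆ F) (ω : G.edgeSet → Bool) :
    ω ∈ cyl F S ↔ F.filter (fun e => ω e = true) = S := by
  unfold cyl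
  constructor
  · intro h
    ext e
    rw [Finset.mem_filter]
    constructor
    · rintro ⟨h1, h2⟩
      have := h e (by exact_mod_cast h1)
      rw [Set.mem_singleton_iff, h2] at this
      exact of_decide_eq_true this.symm
    · intro he
      have h1 := hS he
      refine ⟨h1, ?_⟩
      have := h e (by exact_mod_cast h1)
      rw [Set.mem_singleton_iff] at this
      rw [this]
      exact decide_eq_true he
  · intro h e he
    rw [Set.mem_singleton_iff]
    have heF : e ∈ F := by exact_mod_cast he
    rw [← h]
    by_cases hw : ω e = true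
    · rw [hw]
      simp [heF, hw]
    · have hw' : ω e = false := by simpa using hw
      rw [hw']
      simp [hw']

theorem measurableSet_cyl (F S : Finset G.edgeSet) : MeasurableSet (cyl F S) := by
  unfold cyl
  exact MeasurableSet.pi (Finset.countable_toSet F) (fun e _ => MeasurableSet.singleton _)

/-- the law of Bernoulli percolation -/
noncomputable def law (p : G.edgeSet → unitInterval) : Measure (G.edgeSet → Bool) :=
  Measure.infinitePi (fun e => coin (p e))

instance (p : G.edgeSet → unitInterval) : IsProbabilityMeasure (law p) := by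
  unfold law
  infer_instance

theorem law_cyl (p : G.edgeSet → unitInterval) {F S : Finset G.edgeSet} (hS : S ⊆ F) :
    (law p).real (cyl F S) =
      (∏ e ∈ S.map (val G), ext p e) * ∏ e ∈ F.map (val G) \ S.map (val G), (1 - ext p e) := by
  have h1 : law p (cyl F S) = ENNReal.ofReal
      (∏ e ∈ F, (if e ∈ S then (p e : ℝ) else 1 - (p e : ℝ))) := by
    unfold law cyl
    rw [Measure.infinitePi_pi _ (fun e _ => MeasurableSet.singleton _),
      ENNReal.ofReal_prod_of_nonneg]
    · apply Finset.prod_congr rfl
      intro e _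
      rw [coin_singleton]
      by_cases he : e ∈ S <;> simp [he]
    · intro e _
      have h2 := (p e).2.1
      have h3 := (p e).2.2
      split_ifs
      · exact h2
      · linarith
  rw [measureReal_def, h1, ENNReal.toReal_ofReal]
  · rw [← Finset.map_sdiff, Finset.prod_map, Finset.prod_map]
    rw [← Finset.prod_sdiff hS, mul_comm]
    congr 1
    · apply Finset.prod_congr rfl
      intro e he
      rw [if_pos he, ext_val]
    · apply Finset.prod_congr rfl
      intro e he
      rw [if_neg (Finset.mem_sdiff.mp he).2, ext_val]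
  · apply Finset.prod_nonneg
    intro e _
    have h2 := (p e).2.1
    have h3 := (p e).2.2
    split_ifs
    · exact h2
    · linarith

open Classical in
theorem event_eq (F : Finset G.edgeSet) (A : Finset (Sym2 V) → Prop) :
    {ω | A (op F ω)} = ⋃ S ∈ F.powerset.filter (fun S => A (S.map (val G))), cyl F S := by
  ext ω
  simp only [Set.mem_setOf_eq, Set.mem_iUnion, Finset.mem_filter, Finset.mem_powerset]
  constructor
  · intro h
    exact ⟨F.filter (fun e => ω e = true), ⟨Finset.filter_subset _ _, h⟩,
      (mem_cyl (Finset.filter_subset _ _) ω).mpr rfl⟩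
  · rintro ⟨S, ⟨hS, hA⟩, h⟩
    rw [mem_cyl hS] at h
    unfold op
    rw [h]
    exact hA

theorem measurableSet_event (F : Finset G.edgeSet) (A : Finset (Sym2 V) → Prop) :
    MeasurableSet {ω : G.edgeSet → Bool | A (op F ω)} := by
  rw [event_eq]
  exact Finset.measurableSet_biUnion _ (fun S _ => measurableSet_cyl F S)

theorem powerset_map' (F : Finset G.edgeSet) :
    (F.map (val G)).powerset = F.powerset.map (Finset.mapEmbedding (val G)).toEmbedding := by
  ext S
  rw [Finset.mem_powerset, Finset.subset_map_iff, Finset.mem_map]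
  constructor
  · rintro ⟨T, hT, rfl⟩
    exact ⟨T, Finset.mem_powerset.mpr hT, rfl⟩
  · rintro ⟨T, hT, rfl⟩
    exact ⟨T, Finset.mem_powerset.mp hT, rfl⟩

theorem law_event (p : G.edgeSet → unitInterval) (F : Finset G.edgeSet)
    (A : Finset (Sym2 V) → Prop) :
    (law p).real {ω | A (op F ω)} = P (ext p) (F.map (val G)) ∅ A := by
  classical
  rw [event_eq, measureReal_biUnion_finset]
  · unfold P Ev
    rw [powerset_map', Finset.sum_map, Finset.sum_filter]
    apply Finset.sum_congr rfl
    intro S hS
    rw [Finset.mem_powerset] at hS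
    change _ = ((∏ e ∈ S.map (val G), ext p e) *
      ∏ e ∈ F.map (val G) \ S.map (val G), (1 - ext p e)) * _
    rw [← law_cyl p hS]
    change _ = _ * (if A (∅ ∪ S.map (val G)) then 1 else 0)
    rw [Finset.empty_union]
    split_ifs with h
    · rw [mul_one]
    · rw [mul_zero]
  · intro S hS T hT hST
    rw [Finset.mem_coe, Finset.mem_filter, Finset.mem_powerset] at hS hT
    apply Set.disjoint_left.mpr
    intro ω h1 h2
    rw [mem_cyl hS.1] at h1
    rw [mem_cyl hT.1] at h2
    exact hST (h1.symm.trans h2)
  · intro S _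
    exact measurableSet_cyl F S

/-- The open subgraph. -/
def openGraph (G : SimpleGraph V) (ω : G.edgeSet → Bool) : SimpleGraph V :=
  SimpleGraph.fromEdgeSet {e | ∃ h : e ∈ G.edgeSet, ω ⟨e, h⟩ = true}

theorem mem_op {F : Finset G.edgeSet} {ω : G.edgeSet → Bool} {e : Sym2 V} :
    e ∈ op F ω ↔ ∃ h : e ∈ G.edgeSet, (⟨e, h⟩ : G.edgeSet) ∈ F ∧ ω ⟨e, h⟩ = true := by
  unfold op val
  simp only [Finset.mem_map, Finset.mem_filter, Function.Embedding.subtype_apply,
    Subtype.exists, exists_and_right, exists_eq_right]

theorem op_mono {F F' : Finset G.edgeSet} (h : F ⊆ F') (ω : G.edgeSet → Bool) :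
    op F ω ⊆ op F' ω := by
  intro e he
  rw [mem_op] at he ⊢
  obtain ⟨h1, h2, h3⟩ := he
  exact ⟨h1, h h2, h3⟩

theorem reach_iff (ω : G.edgeSet → Bool) (a b : V) :
    (openGraph G ω).Reachable a b ↔ ∃ F : Finset G.edgeSet, R (op F ω) a b := by
  constructor
  · intro h
    rw [SimpleGraph.reachable_iff_reflTransGen] at h
    induction h with
    | refl => exact ⟨∅, R.refl _ _⟩
    | @tail y z _ hadj ih =>
      obtain ⟨F, hF⟩ := ih
      unfold openGraph at hadj
      rw [SimpleGraph.fromEdgeSet_adj] at hadj
      obtain ⟨⟨h1, h2⟩, _⟩ := hadj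
      classical
      refine ⟨insert ⟨s(y, z), h1⟩ F, ?_⟩
      refine (hF.mono (op_mono (Finset.subset_insert _ _) ω)).trans (R_edge ?_)
      rw [mem_op]
      exact ⟨h1, Finset.mem_insert_self _ _, h2⟩
  · rintro ⟨F, hF⟩
    unfold R at hF
    refine SimpleGraph.Reachable.mono ?_ hF
    unfold openGraph
    apply SimpleGraph.fromEdgeSet_mono
    intro e he
    have he' : e ∈ op F ω := by exact_mod_cast he
    rw [mem_op] at he'
    obtain ⟨h1, _, h3⟩ := he'
    exact ⟨h1, h3⟩

theorem event_reach (a b : V) :
    {ω : G.edgeSet → Bool | (openGraph G ω).Reachable a b} =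
      ⋃ F : Finset G.edgeSet, {ω | R (op F ω) a b} := by
  ext ω
  simp only [Set.mem_setOf_eq, Set.mem_iUnion]
  exact reach_iff ω a b

theorem event_reach2 (a b c : V) :
    {ω : G.edgeSet → Bool | (openGraph G ω).Reachable a b ∧ (openGraph G ω).Reachable a c} =
      ⋃ F : Finset G.edgeSet, {ω | R (op F ω) a b ∧ R (op F ω) a c} := by
  classical
  ext ω
  simp only [Set.mem_setOf_eq, Set.mem_iUnion]
  rw [reach_iff, reach_iff]
  constructor
  · rintro ⟨⟨F, hF⟩, ⟨F', hF'⟩⟩
    exact ⟨F ∪ F', hF.mono (op_mono Finset.subset_union_left ω),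
      hF'.mono (op_mono Finset.subset_union_right ω)⟩
  · rintro ⟨F, h1, h2⟩
    exact ⟨⟨F, h1⟩, ⟨F, h2⟩⟩

variable [Countable V]

theorem measurable_reach (a b : V) :
    MeasurableSet {ω : G.edgeSet → Bool | (openGraph G ω).Reachable a b} := by
  rw [event_reach]
  exact MeasurableSet.iUnion (fun F => measurableSet_event F (fun T => R T a b))

open Filter Topology

theorem tendsto_reach (p : G.edgeSet → unitInterval) (a b : V) :
    Tendsto (fun F : Finset G.edgeSet => P (ext p) (F.map (val G)) ∅ (fun T => R T a b)) atTop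
      (𝓝 ((law p).real {ω | (openGraph G ω).Reachable a b})) := by
  have hm : Monotone (fun F : Finset G.edgeSet =>
      {ω : G.edgeSet → Bool | R (op F ω) a b}) := by
    intro F F' h ω hω
    exact R.mono (op_mono h ω) hω
  have h1 := tendsto_measure_iUnion_atTop (μ := law p) hm
  rw [← event_reach] at h1
  have h2 := (ENNReal.tendsto_toReal (measure_ne_top (law p) _)).comp h1
  refine h2.congr ?_
  intro F
  rw [← law_event p F (fun T => R T a b)]
  rfl

theorem tendsto_reach2 (p : G.edgeSet → unitInterval) (a b c : V) :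
    Tendsto (fun F : Finset G.edgeSet =>
        P (ext p) (F.map (val G)) ∅ (fun T => R T a b ∧ R T a c)) atTop
      (𝓝 ((law p).real {ω | (openGraph G ω).Reachable a b ∧ (openGraph G ω).Reachable a c})) := by
  have hm : Monotone (fun F : Finset G.edgeSet =>
      {ω : G.edgeSet → Bool | R (op F ω) a b ∧ R (op F ω) a c}) := by
    intro F F' h ω hω
    exact ⟨R.mono (op_mono h ω) hω.1, R.mono (op_mono h ω) hω.2⟩
  have h1 := tendsto_measure_iUnion_atTop (μ := law p) hm
  rw [← event_reach2] at h1
  have h2 := (ENNReal.tendsto_toReal (measure_ne_top (law p) _)).comp h1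
  refine h2.congr ?_
  intro F
  rw [← law_event p F (fun T => R T a b ∧ R T a c)]
  rfl

end Pool.Agent.Helper156.PercInf
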