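import Pool.Agent.Helper156.PercBHK

/-!
Bellman-function induction along the exploration of the cluster of `a`.
-/

set_option linter.unusedSectionVars false

namespace Pool.Agent.Helper156.Perc

open Finset

variable {V : Type*} [DecidableEq V]

theorem sq_pos_part {p z0 z1 : ℝ} (hp0 : 0 ≤ p) (hp1 : p ≤ 1) :
    p * (max 0 z1) ^ 2 + (1 - p) * (max 0 z0) ^ 2 ≤
      (max 0 (p * z1 + (1 - p) * z0)) ^ 2 + p * (1 - p) * (z1 - z0) ^ 2 := by
  have hq : 0 ≤ 1 - p := by linarith
  have hpq : 0 ≤ p * (1 - p) := mul_nonneg hp0 hq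
  have hnn : 0 ≤ p * (1 - p) * (z1 - z0) ^ 2 := mul_nonneg hpq (sq_nonneg _)
  rcases le_total z1 0 with h1 | h1
  · rcases le_total z0 0 with h0 | h0
    · rw [max_eq_left h1, max_eq_left h0]
      have : 0 ≤ (max 0 (p * z1 + (1 - p) * z0)) ^ 2 := sq_nonneg _
      linarith
    · rw [max_eq_left h1, max_eq_right h0]
      rcases le_total (p * z1 + (1 - p) * z0) 0 with h | h
      · rw [max_eq_left h]
        have e1 : z0 ≤ p * (z0 - z1) := by linarith
        have e2 : z0 ≤ z0 - z1 := by linarith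
        have e3 : z0 * z0 ≤ p * (z0 - z1) * (z0 - z1) :=
          mul_le_mul e1 e2 h0 (le_trans h0 e1)
        have e4 := mul_le_mul_of_nonneg_left e3 hq
        nlinarith
      · rw [max_eq_right h]
        nlinarith [mul_nonneg hp0 (sq_nonneg z1)]
  · rcases le_total z0 0 with h0 | h0
    · rw [max_eq_right h1, max_eq_left h0]
      rcases le_total (p * z1 + (1 - p) * z0) 0 with h | h
      · rw [max_eq_left h]
        have e1 : z1 ≤ (1 - p) * (z1 - z0) := by linarith
        have e2 : z1 ≤ z1 - z0 := by linarith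
        have e3 : z1 * z1 ≤ (1 - p) * (z1 - z0) * (z1 - z0) :=
          mul_le_mul e1 e2 h1 (le_trans h1 e1)
        have e4 := mul_le_mul_of_nonneg_left e3 hp0
        nlinarith
      · rw [max_eq_right h]
        nlinarith [mul_nonneg hq (sq_nonneg z0)]
    · have h : 0 ≤ p * z1 + (1 - p) * z0 := add_nonneg (mul_nonneg hp0 h1) (mul_nonneg hq h0)
      rw [max_eq_right h1, max_eq_right h0, max_eq_right h]
      nlinarith

/-- The Bellman function. -/
noncomputable def B (ν κ s u x y : ℝ) : ℝ :=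
  (1 + 4 / ν ^ 2) * (s / κ) + 4 * (max 0 (1 - u / ν)) ^ 2 +
    128 * κ ^ 2 / ν ^ 4 * (x * (1 - x) + y * (1 - y))

theorem B_nonneg {ν κ s u x y : ℝ} (hκ : 0 < κ) (hs : 0 ≤ s)
    (hx0 : 0 ≤ x) (hx1 : x ≤ 1) (hy0 : 0 ≤ y) (hy1 : y ≤ 1) : 0 ≤ B ν κ s u x y := by
  unfold B
  have h1 : 0 ≤ (1 + 4 / ν ^ 2) * (s / κ) := by positivity
  have h2 : 0 ≤ x * (1 - x) + y * (1 - y) :=
    add_nonneg (mul_nonneg hx0 (by linarith)) (mul_nonneg hy0 (by linarith))
  have h3 : 0 ≤ 128 * κ ^ 2 / ν ^ 4 * (x * (1 - x) + y * (1 - y)) := by positivity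
  positivity

theorem bell {p ν κ s0 s1 u0 u1 x0 x1 y0 y1 α0 α1 : ℝ}
    (hp0 : 0 ≤ p) (hp1 : p ≤ 1) (hν : 0 < ν) (hκ : 0 < κ) (hκν : κ ≤ ν / 4)
    (hs0 : 0 ≤ s0) (hs1 : 0 ≤ s1)
    (hx0 : 0 ≤ x0) (hx : x0 ≤ x1) (hx1 : x1 ≤ 1)
    (hy0 : 0 ≤ y0) (hy : y0 ≤ y1) (hy1 : y1 ≤ 1)
    (hu1 : 0 ≤ u1) (hu : u1 ≤ u0) (hu0 : u0 ≤ 1)
    (hα0 : α0 ≤ 1) (hα1 : α1 ≤ 1)
    (hβ : u1 - s1 ≤ u0 - s0)
    (hθ : (u0 - u1) * (u0 - s0) ≤ s0 * ((x1 - x0) + (y1 - y0)))
    (ih1 : α1 ≤ B ν κ s1 u1 x1 y1) (ih0 : α0 ≤ B ν κ s0 u0 x0 y0) :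
    p * α1 + (1 - p) * α0 ≤
      B ν κ (p * s1 + (1 - p) * s0) (p * u1 + (1 - p) * u0) (p * x1 + (1 - p) * x0)
        (p * y1 + (1 - p) * y0) := by
  have hq : 0 ≤ 1 - p := by linarith
  have hpq : 0 ≤ p * (1 - p) := mul_nonneg hp0 hq
  set s := p * s1 + (1 - p) * s0 with hs
  set u := p * u1 + (1 - p) * u0 with hudef
  set x := p * x1 + (1 - p) * x0 with hxdef
  set y := p * y1 + (1 - p) * y0 with hydef
  have hα : p * α1 + (1 - p) * α0 ≤ 1 := by
    have k1 := mul_le_mul_of_nonneg_left hα1 hp0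
    have k2 := mul_le_mul_of_nonneg_left hα0 hq
    linarith
  have hs_nn : 0 ≤ s := add_nonneg (mul_nonneg hp0 hs1) (mul_nonneg hq hs0)
  have hx_nn : 0 ≤ x := add_nonneg (mul_nonneg hp0 (by linarith)) (mul_nonneg hq hx0)
  have hy_nn : 0 ≤ y := add_nonneg (mul_nonneg hp0 (by linarith)) (mul_nonneg hq hy0)
  have hx_le : x ≤ 1 := by
    have k1 := mul_le_mul_of_nonneg_left hx1 hp0
    have k2 := mul_le_mul_of_nonneg_left (le_trans hx hx1) hq
    rw [hxdef]; linarith
  have hy_le : y ≤ 1 := by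
    have k1 := mul_le_mul_of_nonneg_left hy1 hp0
    have k2 := mul_le_mul_of_nonneg_left (le_trans hy hy1) hq
    rw [hydef]; linarith
  have hR : 0 ≤ 128 * κ ^ 2 / ν ^ 4 * (x * (1 - x) + y * (1 - y)) := by
    have : 0 ≤ x * (1 - x) + y * (1 - y) :=
      add_nonneg (mul_nonneg hx_nn (by linarith)) (mul_nonneg hy_nn (by linarith))
    positivity
  have hG : 0 ≤ 4 * (max 0 (1 - u / ν)) ^ 2 := by positivity
  have hS : 0 ≤ (1 + 4 / ν ^ 2) * (s / κ) := by positivity
  by_cases hA : κ ≤ s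
  · have h1 : 1 ≤ s / κ := by rw [le_div_iff₀ hκ]; linarith
    have h2 : 0 ≤ 4 / ν ^ 2 := by positivity
    have h3 : 1 ≤ (1 + 4 / ν ^ 2) * (s / κ) := by
      have := mul_le_mul_of_nonneg_left h1 (by linarith : (0:ℝ) ≤ 1 + 4 / ν ^ 2)
      linarith
    unfold B
    linarith
  by_cases hB : u ≤ ν / 2
  · have h1 : (1:ℝ) / 2 ≤ 1 - u / ν := by
      have : u / ν ≤ 1 / 2 := by rw [div_le_iff₀ hν]; linarith
      linarith
    have h2 : (1:ℝ) / 2 ≤ max 0 (1 - u / ν) := le_trans h1 (le_max_right _ _)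
    have h3 : 1 ≤ 4 * (max 0 (1 - u / ν)) ^ 2 := by
      have := pow_le_pow_left₀ (by norm_num : (0:ℝ) ≤ 1 / 2) h2 2
      linarith
    unfold B
    linarith
  push Not at hA hB
  -- convexity facts
  have hg := sq_pos_part (z0 := 1 - u0 / ν) (z1 := 1 - u1 / ν) hp0 hp1
  have hz : p * (1 - u1 / ν) + (1 - p) * (1 - u0 / ν) = 1 - u / ν := by
    rw [hudef]; field_simp; ring
  rw [hz] at hg
  have hz2 : (1 - u1 / ν - (1 - u0 / ν)) ^ 2 = (u0 - u1) ^ 2 / ν ^ 2 := by
    rw [← div_pow]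
    congr 1
    rw [sub_div]
    ring
  rw [hz2] at hg
  have hRx : p * (x1 * (1 - x1)) + (1 - p) * (x0 * (1 - x0)) =
      x * (1 - x) - p * (1 - p) * (x1 - x0) ^ 2 := by rw [hxdef]; ring
  have hRy : p * (y1 * (1 - y1)) + (1 - p) * (y0 * (1 - y0)) =
      y * (1 - y) - p * (1 - p) * (y1 - y0) ^ 2 := by rw [hydef]; ring
  set μ := 128 * κ ^ 2 / ν ^ 4 with hμ
  have hμ0 : 0 ≤ μ := by positivity
  have hSs : p * ((1 + 4 / ν ^ 2) * (s1 / κ)) + (1 - p) * ((1 + 4 / ν ^ 2) * (s0 / κ)) =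
      (1 + 4 / ν ^ 2) * (s / κ) := by rw [hs]; ring
  have ih1' := mul_le_mul_of_nonneg_left ih1 hp0
  have ih0' := mul_le_mul_of_nonneg_left ih0 hq
  unfold B at ih1' ih0' ⊢
  rw [← hμ] at ih1' ih0' ⊢
  set g0 := (max 0 (1 - u0 / ν)) ^ 2 with hg0
  set g1 := (max 0 (1 - u1 / ν)) ^ 2 with hg1
  set g := (max 0 (1 - u / ν)) ^ 2 with hgg
  have hg0n : 0 ≤ g0 := sq_nonneg _
  by_cases hC : κ ≤ s0
  · -- the closed child crosses the threshold
    have h1 : 1 ≤ s0 / κ := by rw [le_div_iff₀ hκ]; linarith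
    have h2 : 0 ≤ 4 / ν ^ 2 := by positivity
    have h3 : 1 ≤ (1 + 4 / ν ^ 2) * (s0 / κ) - 4 / ν ^ 2 := by
      have := mul_le_mul_of_nonneg_left h1 (by linarith : (0:ℝ) ≤ 1 + 4 / ν ^ 2)
      linarith
    have h4 : (1 - p) * α0 ≤ (1 - p) * ((1 + 4 / ν ^ 2) * (s0 / κ) - 4 / ν ^ 2) :=
      mul_le_mul_of_nonneg_left (by linarith) hq
    have h5 : p * (1 - p) * ((u0 - u1) ^ 2 / ν ^ 2) ≤ (1 - p) * (1 / ν ^ 2) := by
      have h6 : (u0 - u1) ^ 2 ≤ 1 := pow_le_one₀ (by linarith) (by linarith)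
      have h7 : (u0 - u1) ^ 2 / ν ^ 2 ≤ 1 / ν ^ 2 := by gcongr
      have h8 : 0 ≤ (u0 - u1) ^ 2 / ν ^ 2 := by positivity
      calc p * (1 - p) * ((u0 - u1) ^ 2 / ν ^ 2) = (1 - p) * (p * ((u0 - u1) ^ 2 / ν ^ 2)) := by ring
        _ ≤ (1 - p) * (1 / ν ^ 2) := by
            apply mul_le_mul_of_nonneg_left _ hq
            exact le_trans (mul_le_of_le_one_left h8 hp1) h7
    have h9 : 0 ≤ (1 - p) * g0 := mul_nonneg hq hg0n
    have h10 : p * (x1 * (1 - x1) + y1 * (1 - y1)) ≤ x * (1 - x) + y * (1 - y) := by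
      have k1 : 0 ≤ (1 - p) * (x0 * (1 - x0)) :=
        mul_nonneg hq (mul_nonneg hx0 (by linarith))
      have k2 : 0 ≤ (1 - p) * (y0 * (1 - y0)) :=
        mul_nonneg hq (mul_nonneg hy0 (by linarith))
      have k3 : 0 ≤ p * (1 - p) * (x1 - x0) ^ 2 := mul_nonneg hpq (sq_nonneg _)
      have k4 : 0 ≤ p * (1 - p) * (y1 - y0) ^ 2 := mul_nonneg hpq (sq_nonneg _)
      have k5 : p * (x1 * (1 - x1) + y1 * (1 - y1)) =
        p * (x1 * (1 - x1)) + p * (y1 * (1 - y1)) := by ring
      rw [k5]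
      linarith
    have h11 := mul_le_mul_of_nonneg_left h10 hμ0
    have h12 : 4 / ν ^ 2 = 4 * (1 / ν ^ 2) := by ring
    have h13 : (1 - p) * ((1 + 4 / ν ^ 2) * (s0 / κ) - 4 / ν ^ 2) =
      (1 - p) * ((1 + 4 / ν ^ 2) * (s0 / κ)) - (1 - p) * (4 * (1 / ν ^ 2)) := by
        rw [mul_sub, ← h12]
    have h14 : p * ((1 + 4 / ν ^ 2) * (s1 / κ) + 4 * g1 +
        μ * (x1 * (1 - x1) + y1 * (1 - y1))) =
        p * ((1 + 4 / ν ^ 2) * (s1 / κ)) + 4 * (p * g1) +
          μ * (p * (x1 * (1 - x1) + y1 * (1 - y1))) := by ring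
    rw [h14] at ih1'
    linarith
  · push Not at hC
    have hβ0 : ν / 4 ≤ u0 - s0 := by
      have : u - s ≤ u0 - s0 := by
        have k := mul_le_mul_of_nonneg_left hβ hp0
        have k' : u - s = p * (u1 - s1) + (1 - p) * (u0 - s0) := by rw [hudef, hs]; ring
        rw [k']
        linarith
      linarith
    have hθ1 : (u0 - u1) * (ν / 4) ≤ κ * ((x1 - x0) + (y1 - y0)) := by
      have k1 : (u0 - u1) * (ν / 4) ≤ (u0 - u1) * (u0 - s0) :=
        mul_le_mul_of_nonneg_left hβ0 (by linarith)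
      have k2 : s0 * ((x1 - x0) + (y1 - y0)) ≤ κ * ((x1 - x0) + (y1 - y0)) :=
        mul_le_mul_of_nonneg_right hC.le (by linarith)
      linarith
    have hθ2 : ((u0 - u1) * (ν / 4)) ^ 2 ≤ (κ * ((x1 - x0) + (y1 - y0))) ^ 2 :=
      pow_le_pow_left₀ (mul_nonneg (by linarith) (by positivity)) hθ1 2
    have hθ3 : 4 * ((u0 - u1) ^ 2 / ν ^ 2) ≤ μ * ((x1 - x0) ^ 2 + (y1 - y0) ^ 2) := by
      have k1 : (u0 - u1) ^ 2 * ν ^ 2 ≤ 32 * κ ^ 2 * ((x1 - x0) ^ 2 + (y1 - y0) ^ 2) := by
        have k3 : ((x1 - x0) + (y1 - y0)) ^ 2 ≤ 2 * ((x1 - x0) ^ 2 + (y1 - y0) ^ 2) := by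
          have := sq_nonneg ((x1 - x0) - (y1 - y0))
          linarith [this, (by ring : ((x1 - x0) - (y1 - y0)) ^ 2 + ((x1 - x0) + (y1 - y0)) ^ 2 =
            2 * ((x1 - x0) ^ 2 + (y1 - y0) ^ 2))]
        have k4 := mul_le_mul_of_nonneg_left k3 (sq_nonneg κ)
        have k5 : ((u0 - u1) * (ν / 4)) ^ 2 = (u0 - u1) ^ 2 * ν ^ 2 / 16 := by ring
        have k6 : (κ * ((x1 - x0) + (y1 - y0))) ^ 2 = κ ^ 2 * ((x1 - x0) + (y1 - y0)) ^ 2 := by
          ring
        rw [k5, k6] at hθ2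
        linarith
      have k2 : 4 * ((u0 - u1) ^ 2 / ν ^ 2) = 4 * ((u0 - u1) ^ 2 * ν ^ 2) / ν ^ 4 := by
        field_simp
      rw [k2, hμ]
      rw [div_mul_eq_mul_div]
      apply div_le_div_of_nonneg_right _ (by positivity)
      linarith
    have hθ4 := mul_le_mul_of_nonneg_left hθ3 hpq
    have h14 : p * ((1 + 4 / ν ^ 2) * (s1 / κ) + 4 * g1 +
        μ * (x1 * (1 - x1) + y1 * (1 - y1))) =
        p * ((1 + 4 / ν ^ 2) * (s1 / κ)) + 4 * (p * g1) +
          μ * (p * (x1 * (1 - x1)) + p * (y1 * (1 - y1))) := by ring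
    have h15 : (1 - p) * ((1 + 4 / ν ^ 2) * (s0 / κ) + 4 * g0 +
        μ * (x0 * (1 - x0) + y0 * (1 - y0))) =
        (1 - p) * ((1 + 4 / ν ^ 2) * (s0 / κ)) + 4 * ((1 - p) * g0) +
          μ * ((1 - p) * (x0 * (1 - x0)) + (1 - p) * (y0 * (1 - y0))) := by ring
    rw [h14] at ih1'
    rw [h15] at ih0'
    have h16 : μ * (p * (x1 * (1 - x1)) + p * (y1 * (1 - y1))) +
        μ * ((1 - p) * (x0 * (1 - x0)) + (1 - p) * (y0 * (1 - y0))) =
        μ * (x * (1 - x) + y * (1 - y)) -
          p * (1 - p) * (μ * ((x1 - x0) ^ 2 + (y1 - y0) ^ 2)) := by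
      have : p * (x1 * (1 - x1)) + p * (y1 * (1 - y1)) +
        ((1 - p) * (x0 * (1 - x0)) + (1 - p) * (y0 * (1 - y0))) =
        (x * (1 - x) - p * (1 - p) * (x1 - x0) ^ 2) +
        (y * (1 - y) - p * (1 - p) * (y1 - y0) ^ 2) := by linarith
      rw [← mul_add, this]; ring
    linarith

section
variable {p : Sym2 V → ℝ} (hp : ∀ e, 0 ≤ p e ∧ p e ≤ 1)
include hp

/-- `P(b ↮ c) = P(a|b|c) + P(ab|c) + P(ac|b)`. -/
theorem sep_eq (a b c : V) (E O : Finset (Sym2 V)) :
    P p E O (fun T => ¬ R T b c) =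
      P p E O (fun T => ¬ R T a b ∧ ¬ R T a c ∧ ¬ R T b c) +
        (P p E O (fun T => R T a b ∧ ¬ R T a c) + P p E O (fun T => R T a c ∧ ¬ R T a b)) := by
  rw [P_split (fun T => ¬ R T b c) (fun T => R T a b)]
  rw [P_split (fun T => ¬ R T b c ∧ ¬ R T a b) (fun T => R T a c)]
  have c1 : P p E O (fun T => ¬ R T b c ∧ R T a b) = P p E O (fun T => R T a b ∧ ¬ R T a c) := by
    apply P_congr hp
    intro T _ _
    constructor
    · rintro ⟨h1, h2⟩
      exact ⟨h2, fun h3 => h1 (h2.symm.trans h3)⟩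
    · rintro ⟨h1, h2⟩
      exact ⟨fun h3 => h2 (h1.trans h3), h1⟩
  have c2 : P p E O (fun T => (¬ R T b c ∧ ¬ R T a b) ∧ R T a c) =
      P p E O (fun T => R T a c ∧ ¬ R T a b) := by
    apply P_congr hp
    intro T _ _
    constructor
    · rintro ⟨⟨_, h2⟩, h3⟩
      exact ⟨h3, h2⟩
    · rintro ⟨h1, h2⟩
      exact ⟨⟨fun h3 => h2 (h1.trans h3.symm), h2⟩, h1⟩
  have c3 : P p E O (fun T => (¬ R T b c ∧ ¬ R T a b) ∧ ¬ R T a c) =
      P p E O (fun T => ¬ R T a b ∧ ¬ R T a c ∧ ¬ R T b c) :=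
    P_congr hp (fun T _ _ => by tauto)
  rw [c1, c2, c3]
  ring

theorem main_ineq {ν κ : ℝ} (hν : 0 < ν) (hκ : 0 < κ) (hκν : κ ≤ ν / 4) (a b c : V) :
    ∀ (n : ℕ) (E O : Finset (Sym2 V)), E.card = n →
      P p E O (fun T => R T a b ∧ R T a c) ≤
        B ν κ (P p E O (fun T => R T a b ∧ ¬ R T a c) + P p E O (fun T => R T a c ∧ ¬ R T a b))
          (P p E O (fun T => ¬ R T b c)) (P p E O (fun T => R T a b))
          (P p E O (fun T => R T a c)) := by
  intro n
  induction n with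
  | zero =>
    intro E O hE
    rw [Finset.card_eq_zero] at hE
    subst hE
    have hb : ∀ e ∈ (∅ : Finset (Sym2 V)), ∀ u ∈ e, ¬ R O a u := by simp
    have hnn := B_nonneg (ν := ν) (κ := κ)
      (s := P p ∅ O (fun T => R T a b ∧ ¬ R T a c) + P p ∅ O (fun T => R T a c ∧ ¬ R T a b))
      (u := P p ∅ O (fun T => ¬ R T b c)) (x := P p ∅ O (fun T => R T a b))
      (y := P p ∅ O (fun T => R T a c)) hκ
      (add_nonneg (P_nonneg hp _) (P_nonneg hp _)) (P_nonneg hp _) (P_le_one hp _)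
      (P_nonneg hp _) (P_le_one hp _)
    by_cases h1 : R O a b ∧ R O a c
    · have hu : P p ∅ O (fun T => ¬ R T b c) = 0 := by
        rw [← P_false (p := p) (E := ∅) (O := O)]
        apply P_congr hp
        intro T hT _
        constructor
        · intro h
          exact h ((h1.1.symm.trans h1.2).mono hT)
        · intro h; exact h.elim
      rw [hu]
      refine le_trans (P_le_one hp _) ?_
      unfold B
      have k1 : 0 ≤ (1 + 4 / ν ^ 2) * ((P p ∅ O (fun T => R T a b ∧ ¬ R T a c) +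
          P p ∅ O (fun T => R T a c ∧ ¬ R T a b)) / κ) := by
        have := add_nonneg (P_nonneg (E := ∅) (O := O) hp (fun T => R T a b ∧ ¬ R T a c))
          (P_nonneg (E := ∅) (O := O) hp (fun T => R T a c ∧ ¬ R T a b))
        positivity
      have k2 : 0 ≤ 128 * κ ^ 2 / ν ^ 4 * (P p ∅ O (fun T => R T a b) *
          (1 - P p ∅ O (fun T => R T a b)) + P p ∅ O (fun T => R T a c) *
          (1 - P p ∅ O (fun T => R T a c))) := by
        have e1 := P_nonneg (E := ∅) (O := O) hp (fun T => R T a b)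
        have e2 := P_le_one (E := ∅) (O := O) hp (fun T => R T a b)
        have e3 := P_nonneg (E := ∅) (O := O) hp (fun T => R T a c)
        have e4 := P_le_one (E := ∅) (O := O) hp (fun T => R T a c)
        have := add_nonneg (mul_nonneg e1 (sub_nonneg.mpr e2)) (mul_nonneg e3 (sub_nonneg.mpr e4))
        positivity
      have k3 : (max 0 (1 - 0 / ν)) = 1 := by simp
      rw [k3]
      linarith
    · have hz : P p ∅ O (fun T => R T a b ∧ R T a c) = 0 := by
        rw [← P_false (p := p) (E := ∅) (O := O)]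
        apply P_congr hp
        intro T hT hT'
        simp only [R_base hb hT hT' b, R_base hb hT hT' c]
        tauto
      rw [hz]
      exact hnn
  | succ n ih =>
    intro E O hE
    by_cases hb : ∀ e ∈ E, ∀ u ∈ e, ¬ R O a u
    · have hnn := B_nonneg (ν := ν) (κ := κ)
        (s := P p E O (fun T => R T a b ∧ ¬ R T a c) + P p E O (fun T => R T a c ∧ ¬ R T a b))
        (u := P p E O (fun T => ¬ R T b c)) (x := P p E O (fun T => R T a b))
        (y := P p E O (fun T => R T a c)) hκ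
        (add_nonneg (P_nonneg hp _) (P_nonneg hp _)) (P_nonneg hp _) (P_le_one hp _)
        (P_nonneg hp _) (P_le_one hp _)
      by_cases h1 : R O a b ∧ R O a c
      · have hu : P p E O (fun T => ¬ R T b c) = 0 := by
          rw [← P_false (p := p) (E := E) (O := O)]
          apply P_congr hp
          intro T hT _
          constructor
          · intro h
            exact h ((h1.1.symm.trans h1.2).mono hT)
          · intro h; exact h.elim
        rw [hu]
        refine le_trans (P_le_one hp _) ?_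
        unfold B
        have k1 : 0 ≤ (1 + 4 / ν ^ 2) * ((P p E O (fun T => R T a b ∧ ¬ R T a c) +
            P p E O (fun T => R T a c ∧ ¬ R T a b)) / κ) := by
          have := add_nonneg (P_nonneg (E := E) (O := O) hp (fun T => R T a b ∧ ¬ R T a c))
            (P_nonneg (E := E) (O := O) hp (fun T => R T a c ∧ ¬ R T a b))
          positivity
        have k2 : 0 ≤ 128 * κ ^ 2 / ν ^ 4 * (P p E O (fun T => R T a b) *
            (1 - P p E O (fun T => R T a b)) + P p E O (fun T => R T a c) *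
            (1 - P p E O (fun T => R T a c))) := by
          have e1 := P_nonneg (E := E) (O := O) hp (fun T => R T a b)
          have e2 := P_le_one (E := E) (O := O) hp (fun T => R T a b)
          have e3 := P_nonneg (E := E) (O := O) hp (fun T => R T a c)
          have e4 := P_le_one (E := E) (O := O) hp (fun T => R T a c)
          have := add_nonneg (mul_nonneg e1 (sub_nonneg.mpr e2))
            (mul_nonneg e3 (sub_nonneg.mpr e4))
          positivity
        have k3 : (max 0 (1 - 0 / ν)) = 1 := by simp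
        rw [k3]
        linarith
      · have hz : P p E O (fun T => R T a b ∧ R T a c) = 0 := by
          rw [← P_false (p := p) (E := E) (O := O)]
          apply P_congr hp
          intro T hT hT'
          simp only [R_base hb hT hT' b, R_base hb hT hT' c]
          tauto
        rw [hz]
        exact hnn
    · push Not at hb
      obtain ⟨e, heE, u, hue, hau⟩ := hb
      obtain ⟨y, rfl⟩ : ∃ y, e = s(u, y) := Sym2.mem_iff_exists.mp hue
      have hcard : (E.erase s(u, y)).card = n := by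
        rw [Finset.card_erase_of_mem heE, hE]; rfl
      set E' := E.erase s(u, y) with hE'
      have hau' : ∀ T, O ⊆ T → R T a u := fun T hT => hau.mono hT
      rw [P_step heE (fun T => R T a b ∧ R T a c), P_step heE (fun T => R T a b ∧ ¬ R T a c),
        P_step heE (fun T => R T a c ∧ ¬ R T a b), P_step heE (fun T => ¬ R T b c),
        P_step heE (fun T => R T a b), P_step heE (fun T => R T a c), ← hE']
      have hsum : p s(u, y) * P p E' (insert s(u, y) O) (fun T => R T a b ∧ ¬ R T a c) +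
          (1 - p s(u, y)) * P p E' O (fun T => R T a b ∧ ¬ R T a c) +
          (p s(u, y) * P p E' (insert s(u, y) O) (fun T => R T a c ∧ ¬ R T a b) +
          (1 - p s(u, y)) * P p E' O (fun T => R T a c ∧ ¬ R T a b)) =
          p s(u, y) * (P p E' (insert s(u, y) O) (fun T => R T a b ∧ ¬ R T a c) +
            P p E' (insert s(u, y) O) (fun T => R T a c ∧ ¬ R T a b)) +
          (1 - p s(u, y)) * (P p E' O (fun T => R T a b ∧ ¬ R T a c) +
            P p E' O (fun T => R T a c ∧ ¬ R T a b)) := by ring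
      rw [hsum]
      have hmonoR : ∀ v w : V, P p E' O (fun T => R T v w) ≤
          P p E' (insert s(u, y) O) (fun T => R T v w) := by
        intro v w
        rw [P_open]
        exact P_mono hp (fun T _ _ h => h.mono (Finset.subset_insert _ _))
      have hmonoN : P p E' (insert s(u, y) O) (fun T => ¬ R T b c) ≤
          P p E' O (fun T => ¬ R T b c) := by
        rw [P_open]
        exact P_mono hp (fun T _ _ h h' => h (h'.mono (Finset.subset_insert _ _)))
      have hsep1 := sep_eq hp a b c E' (insert s(u, y) O)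
      have hsep0 := sep_eq hp a b c E' O
      have hsepm : P p E' (insert s(u, y) O) (fun T => ¬ R T a b ∧ ¬ R T a c ∧ ¬ R T b c) ≤
          P p E' O (fun T => ¬ R T a b ∧ ¬ R T a c ∧ ¬ R T b c) := by
        rw [P_open]
        refine P_mono hp (fun T _ _ h => ?_)
        have hs := Finset.subset_insert s(u, y) T
        exact ⟨fun h' => h.1 (h'.mono hs), fun h' => h.2.1 (h'.mono hs),
          fun h' => h.2.2 (h'.mono hs)⟩
      refine bell (hp _).1 (hp _).2 hν hκ hκν
        (add_nonneg (P_nonneg hp _) (P_nonneg hp _)) (add_nonneg (P_nonneg hp _) (P_nonneg hp _))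
        (P_nonneg hp _) (hmonoR a b) (P_le_one hp _)
        (P_nonneg hp _) (hmonoR a c) (P_le_one hp _)
        (P_nonneg hp _) hmonoN (P_le_one hp _) (P_le_one hp _) (P_le_one hp _)
        (by linarith) ?_ (ih E' (insert s(u, y) O) hcard) (ih E' O hcard)
      -- the pivotality bound
      have hb1 : P p E' (insert s(u, y) O) (fun T => R T a b) =
          P p E' O (fun T => R T a b) + P p E' O (fun T => R T b y ∧ ¬ R T a b) := by
        rw [P_open, P_split (fun T => R (insert s(u, y) T) a b) (fun T => R T a b)]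
        congr 1
        · apply P_congr hp
          intro T h1 _
          simp only [ins_a (hau' T h1)]
          tauto
        · apply P_congr hp
          intro T h1 _
          have hh : R T y b ↔ R T b y := ⟨R.symm, R.symm⟩
          simp only [ins_a (hau' T h1), hh]
          tauto
      have hc1 : P p E' (insert s(u, y) O) (fun T => R T a c) =
          P p E' O (fun T => R T a c) + P p E' O (fun T => R T c y ∧ ¬ R T a c) := by
        rw [P_open, P_split (fun T => R (insert s(u, y) T) a c) (fun T => R T a c)]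
        congr 1
        · apply P_congr hp
          intro T h1 _
          simp only [ins_a (hau' T h1)]
          tauto
        · apply P_congr hp
          intro T h1 _
          have hh : R T y c ↔ R T c y := ⟨R.symm, R.symm⟩
          simp only [ins_a (hau' T h1), hh]
          tauto
      have hu1 : P p E' O (fun T => ¬ R T b c) -
          P p E' (insert s(u, y) O) (fun T => ¬ R T b c) ≤
          P p E' O (fun T => (R T a b ∧ R T c y) ∧ ¬ R T a c) +
            P p E' O (fun T => (R T a c ∧ R T b y) ∧ ¬ R T a b) := by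
        have q1 : P p E' (insert s(u, y) O) (fun T => ¬ R T b c) =
            P p E' O (fun T => (¬ R T b c) ∧ ¬ R (insert s(u, y) T) b c) := by
          rw [P_open]
          apply P_congr hp
          intro T _ _
          constructor
          · intro h
            exact ⟨fun h' => h (h'.mono (Finset.subset_insert _ _)), h⟩
          · exact fun h => h.2
        have q2 := P_split (p := p) (E := E') (O := O) (fun T => ¬ R T b c)
          (fun T => R (insert s(u, y) T) b c)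
        have q3 : P p E' O (fun T => (¬ R T b c) ∧ R (insert s(u, y) T) b c) ≤
            P p E' O (fun T => ((R T a b ∧ R T c y) ∧ ¬ R T a c) ∨
              ((R T a c ∧ R T b y) ∧ ¬ R T a b)) := by
          apply P_mono hp
          intro T h1 _ h
          obtain ⟨h2, h3⟩ := h
          rw [ins_bc (hau' T h1)] at h3
          rcases h3 with h3 | ⟨h3, h4⟩ | ⟨h3, h4⟩
          · exact absurd h3 h2
          · exact Or.inl ⟨⟨h3, h4.symm⟩, fun h5 => h2 (h3.symm.trans h5)⟩
          · exact Or.inr ⟨⟨h4, h3.symm⟩, fun h5 => h2 (h5.symm.trans h4)⟩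
        have q4 := P_or_le (E := E') (O := O) hp
          (fun T => (R T a b ∧ R T c y) ∧ ¬ R T a c) (fun T => (R T a c ∧ R T b y) ∧ ¬ R T a b)
        linarith
      have n1 := NA hp a b c _ E' O rfl y
      have n2 := NA hp a c b _ E' O rfl y
      have m1 : P p E' O (fun T => ¬ R T a b ∧ ¬ R T a c ∧ ¬ R T b c) ≤
          P p E' O (fun T => ¬ R T a c) := P_mono hp (fun T _ _ h => h.2.1)
      have m2 : P p E' O (fun T => ¬ R T a b ∧ ¬ R T a c ∧ ¬ R T b c) ≤
          P p E' O (fun T => ¬ R T a b) := P_mono hp (fun T _ _ h => h.1)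
      have hβ : P p E' O (fun T => ¬ R T b c) -
          (P p E' O (fun T => R T a b ∧ ¬ R T a c) + P p E' O (fun T => R T a c ∧ ¬ R T a b)) =
          P p E' O (fun T => ¬ R T a b ∧ ¬ R T a c ∧ ¬ R T b c) := by linarith
      rw [hβ, hb1, hc1]
      set β0 := P p E' O (fun T => ¬ R T a b ∧ ¬ R T a c ∧ ¬ R T b c)
      set t1 := P p E' O (fun T => (R T a b ∧ R T c y) ∧ ¬ R T a c)
      set t2 := P p E' O (fun T => (R T a c ∧ R T b y) ∧ ¬ R T a b)
      set sb := P p E' O (fun T => R T a b ∧ ¬ R T a c)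
      set sc := P p E' O (fun T => R T a c ∧ ¬ R T a b)
      set φb := P p E' O (fun T => R T b y ∧ ¬ R T a b)
      set φc := P p E' O (fun T => R T c y ∧ ¬ R T a c)
      have z1 : 0 ≤ β0 := P_nonneg hp _
      have z2 : 0 ≤ t1 := P_nonneg hp _
      have z3 : 0 ≤ t2 := P_nonneg hp _
      have z4 : 0 ≤ sb := P_nonneg hp _
      have z5 : 0 ≤ sc := P_nonneg hp _
      have z6 : 0 ≤ φb := P_nonneg hp _
      have z7 : 0 ≤ φc := P_nonneg hp _
      have w1 : t1 * β0 ≤ sb * φc := le_trans (mul_le_mul_of_nonneg_left m1 z2) n1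
      have w2 : t2 * β0 ≤ sc * φb := le_trans (mul_le_mul_of_nonneg_left m2 z3) n2
      have w3 := mul_le_mul_of_nonneg_right hu1 z1
      have w4 : 0 ≤ sb * φb := mul_nonneg z4 z6
      have w5 : 0 ≤ sc * φc := mul_nonneg z5 z7
      nlinarith

end

end Pool.Agent.Helper156.Perc
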